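import Pool.Agent.Lib.MP_a1bc66_al.Defs

set_option autoImplicit false

namespace Pool.Agent.Lib.MP_a1bc66_al

universe u v

section Basic

variable {M : Type u} [MulOneClass M] [IsBolTwo M]

theorem mul_mul_self (x y : M) : (x * y) * y = x := by
  have h := IsBolTwo.bol x y 1
  rw [mul_one, mul_one, IsBolTwo.sq, mul_one] at h
  exact h

/-- Left division in a Bol loop of exponent two. -/
noncomputable def ldv (a b : M) : M := Classical.choose (IsLoop.left_div a b).exists

theorem mul_ldv (a b : M) : a * ldv a b = b :=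
  Classical.choose_spec (IsLoop.left_div a b).exists

theorem mul_lcancel {a x y : M} (h : a * x = a * y) : x = y :=
  (IsLoop.left_div a (a * y)).unique h rfl

theorem eq_ldv {a b x : M} (h : a * x = b) : x = ldv a b :=
  mul_lcancel (h.trans (mul_ldv a b).symm)

theorem mul_ldv' (a b : M) : b * ldv a b = a := by
  conv_lhs => rw [← mul_ldv a b]
  rw [mul_ldv a b]
  conv_lhs => rw [← mul_ldv a b]
  rw [mul_ldv a b]
  have := mul_mul_self a (ldv a b)
  rw [mul_ldv] at this
  exact this

theorem ldv_comm (a b : M) : ldv a b = ldv b a := eq_ldv (mul_ldv' a b)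

theorem ldv_one (a : M) : ldv 1 a = a := (eq_ldv (one_mul a)).symm

theorem bol_conj (f z t : M) : (f * z) * ((z * t) * z) = (f * t) * z := by
  rw [← IsBolTwo.bol, mul_mul_self]

theorem conj_conj (z t : M) : (z * ((z * t) * z)) * z = t := by
  have h := bol_conj (1 : M) z ((z * t) * z)
  have h2 := bol_conj (z) z t
  rw [IsBolTwo.sq] at h2
  rw [one_mul, one_mul] at h
  -- h : z * ((z * ((z*t)*z)) * z) = ((z*t)*z) * z
  rw [mul_mul_self] at h
  exact mul_lcancel h

/-- Right multiplication as a permutation. -/
def Rt (z : M) : Equiv.Perm M where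
  toFun x := x * z
  invFun x := x * z
  left_inv x := mul_mul_self x z
  right_inv x := mul_mul_self x z

@[simp] theorem Rt_apply (z x : M) : Rt z x = x * z := rfl

theorem Rt_inv (z : M) : (Rt z)⁻¹ = Rt z := by
  ext x; rfl

theorem Rt_mul_self (z : M) : Rt z * Rt z = 1 := by
  ext x
  simp [mul_mul_self]

theorem Rt_one : Rt (1 : M) = 1 := by
  ext x; simp

theorem Rt_conj (z t : M) : Rt z * Rt t * Rt z = Rt ((z * t) * z) := by
  ext x
  simp only [Equiv.Perm.mul_apply, Rt_apply]
  exact IsBolTwo.bol x z t

theorem Rt_inj {a b : M} (h : Rt a = Rt b) : a = b := by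
  have := congrArg (fun f : Equiv.Perm M => f 1) h
  simpa using this

variable {N : Type v} [MulOneClass N] [IsBolTwo N]

theorem map_ldv (g : M →* N) (a b : M) : g (ldv a b) = ldv (g a) (g b) := by
  apply eq_ldv
  rw [← map_mul, mul_ldv]

end Basic

/-! ### The universal property of the free object -/

section Free

variable {X : Type u} {M : Type v} [MulOneClass M] [IsBolTwo M]

/-- Evaluation of terms. -/
noncomputable def Term.eval (m : X → M) : Term X → M
  | Term.var x => m x
  | Term.one => 1
  | Term.mul a b => a.eval m * b.eval m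
  | Term.ldiv a b => ldv (a.eval m) (b.eval m)
  | Term.rdiv b a => b.eval m * a.eval m

theorem eval_rel (m : X → M) {a b : Term X} (h : Rel X a b) : a.eval m = b.eval m := by
  induction h with
  | refl a => rfl
  | symm _ ih => exact ih.symm
  | trans _ _ ih1 ih2 => exact ih1.trans ih2
  | mul_congr _ _ ih1 ih2 => simp only [Term.eval, ih1, ih2]
  | ldiv_congr _ _ ih1 ih2 => simp only [Term.eval, ih1, ih2]
  | rdiv_congr _ _ ih1 ih2 => simp only [Term.eval, ih1, ih2]
  | one_mul a => simp only [Term.eval, one_mul]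
  | mul_one a => simp only [Term.eval, mul_one]
  | mul_ldiv a b => simp only [Term.eval, mul_ldv]
  | ldiv_mul a b => simp only [Term.eval]; exact (eq_ldv rfl).symm
  | rdiv_mul a b => simp only [Term.eval, mul_mul_self]
  | mul_rdiv a b => simp only [Term.eval, mul_mul_self]
  | bol x y z => simp only [Term.eval, IsBolTwo.bol]
  | sq x => simp only [Term.eval, IsBolTwo.sq]

/-- The homomorphism out of the free object extending a map on the generators. -/
noncomputable def FreeBolTwo.lift (m : X → M) : FreeBolTwo X →* M where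
  toFun := Quotient.lift (Term.eval m) (fun _ _ h => eval_rel m h)
  map_one' := rfl
  map_mul' := by
    rintro ⟨a⟩ ⟨b⟩
    rfl

@[simp] theorem FreeBolTwo.lift_of (m : X → M) (x : X) : FreeBolTwo.lift m (FreeBolTwo.of x) = m x :=
  rfl

/-- The class of a term. -/
def FreeBolTwo.mk (a : Term X) : FreeBolTwo X := Quotient.mk _ a

theorem FreeBolTwo.hom_ext {f g : FreeBolTwo X →* M}
    (h : ∀ x, f (FreeBolTwo.of x) = g (FreeBolTwo.of x)) : f = g := by
  have key : ∀ a : Term X, f (FreeBolTwo.mk a) = g (FreeBolTwo.mk a) := by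
    intro a
    induction a with
    | var x => exact h x
    | one => exact (map_one f).trans (map_one g).symm
    | mul a b iha ihb =>
      have e : FreeBolTwo.mk (a.mul b) = FreeBolTwo.mk a * FreeBolTwo.mk b := rfl
      rw [e, map_mul, map_mul, iha, ihb]
    | ldiv a b iha ihb =>
      have e : FreeBolTwo.mk a * FreeBolTwo.mk (a.ldiv b) = FreeBolTwo.mk b :=
        FreeBolTwo.mul_ldiv (FreeBolTwo.mk a) (FreeBolTwo.mk b)
      have e1 := congrArg f e
      have e2 := congrArg g e
      rw [map_mul] at e1 e2
      rw [iha] at e1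
      rw [← ihb, ← e1] at e2
      exact (mul_lcancel e2).symm
    | rdiv b a ihb iha =>
      have e : FreeBolTwo.mk (b.rdiv a) * FreeBolTwo.mk a = FreeBolTwo.mk b :=
        FreeBolTwo.rdiv_mul (FreeBolTwo.mk a) (FreeBolTwo.mk b)
      have e1 := congrArg f e
      have e2 := congrArg g e
      rw [map_mul] at e1 e2
      have e3 := congrArg (fun t => t * f (FreeBolTwo.mk a)) e1
      have e4 := congrArg (fun t => t * g (FreeBolTwo.mk a)) e2
      simp only [mul_mul_self] at e3 e4
      rw [e3, e4, iha, ihb]
  ext a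
  obtain ⟨a, rfl⟩ := Quotient.exists_rep a
  exact key a

end Free

end Pool.Agent.Lib.MP_a1bc66_al
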