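import Pool.Agent.Lib.MP_a1bc66_al.Loop

set_option autoImplicit false
set_option linter.unusedSectionVars false

namespace Pool.Agent.Lib.MP_a1bc66_al

universe u v

variable {X : Type u}

/-- A point of the model from an irreducible word. -/
def pt (p : Wd X) (hp : Irr p) : Md X := ⟨p, hp⟩

@[simp] theorem pt_val (p : Wd X) (hp : Irr p) : (pt p hp).1 = p := rfl

theorem tt_pt_tail {i : Ltr X} {p : Wd X} (hp : Irr (i :: p)) :
    tt i (pt p hp.tail) = pt (i :: p) hp := by
  apply Subtype.ext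
  rw [tt_val (irr_cons.1 hp).2.1]
  exact act_cons i p hp

theorem tt_pt_bd {i : Ltr X} (hi : Good i) : tt i (pt (bd i) (good_irr_bd hi)) = ep := by
  apply Subtype.ext
  rw [tt_val hi]
  exact act_bd i hi

theorem tt_ep {i : Ltr X} (hi : Good i) : tt i ep = pt (bd i) (good_irr_bd hi) := by
  apply Subtype.ext
  rw [tt_val hi]
  exact act_nil i

/-! ### Nice sets and their translates -/

/-- A set closed under the reflections mapping one of its points into it. -/
def Nice (S : Set (Md X)) : Prop :=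
  ∀ τ : Equiv.Perm (Md X), IsT τ → (∃ p ∈ S, τ p ∈ S) → ∀ q ∈ S, τ q ∈ S

/-- Translate by a letter. -/
def mv (i : Ltr X) (S : Set (Md X)) : Set (Md X) := {p | tt i p ∈ S}

/-- Translate by a word. -/
def mvw : Wd X → Set (Md X) → Set (Md X)
  | [], S => S
  | i :: c, S => mv i (mvw c S)

theorem mem_mv {i : Ltr X} {S : Set (Md X)} {p : Md X} : p ∈ mv i S ↔ tt i p ∈ S := Iff.rfl

theorem mv_mv (i : Ltr X) (S : Set (Md X)) : mv i (mv i S) = S := by
  ext p
  rw [mem_mv, mem_mv, tt_tt]

@[simp] theorem mvw_nil (S : Set (Md X)) : mvw [] S = S := rfl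

theorem mvw_cons (i : Ltr X) (c : Wd X) (S : Set (Md X)) : mvw (i :: c) S = mv i (mvw c S) := rfl

theorem mvw_append (a b : Wd X) (S : Set (Md X)) : mvw (a ++ b) S = mvw a (mvw b S) := by
  induction a with
  | nil => rfl
  | cons i a ih => rw [List.cons_append, mvw_cons, mvw_cons, ih]

theorem mem_mvw {c : Wd X} {S : Set (Md X)} {p : Md X} : p ∈ mvw c S ↔ (tw c)⁻¹ p ∈ S := by
  induction c generalizing p with
  | nil => simp
  | cons i c ih =>
    rw [mvw_cons, mem_mv, ih, tw_cons, mul_inv_rev, tt_inv]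
    rfl

theorem nice_mv {S : Set (Md X)} (h : Nice S) (i : Ltr X) : Nice (mv i S) := by
  by_cases hi : Good i
  · rintro τ hτ ⟨p, hp, hp'⟩ q hq
    rw [mem_mv] at hp hp' hq ⊢
    have h1 := hτ.conj (c := [i]) (by simpa using hi)
    have e : ∀ r, (tw [i] * τ * (tw [i])⁻¹) (tt i r) = tt i (τ r) := by
      intro r
      simp only [tw_cons, tw_nil, mul_one, tt_inv, Equiv.Perm.mul_apply, tt_tt]
    have h2 := h _ h1 ⟨tt i p, hp, by rw [e]; exact hp'⟩ (tt i q) hq
    rw [e] at h2
    exact h2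
  · have e : mv i S = S := by
      ext p
      rw [mem_mv]
      simp [tt, hi]
    rw [e]; exact h

theorem nice_mvw {S : Set (Md X)} (h : Nice S) (c : Wd X) : Nice (mvw c S) := by
  induction c with
  | nil => exact h
  | cons i c ih => exact nice_mv ih i

theorem nonempty_mv {S : Set (Md X)} (h : S.Nonempty) (i : Ltr X) : (mv i S).Nonempty := by
  obtain ⟨p, hp⟩ := h
  exact ⟨tt i p, by rw [mem_mv, tt_tt]; exact hp⟩

theorem nonempty_mvw {S : Set (Md X)} (h : S.Nonempty) (c : Wd X) : (mvw c S).Nonempty := by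
  induction c with
  | nil => exact h
  | cons i c ih => exact nonempty_mv ih i

/-- The letter `i` is a loop at `S`. -/
def Lp (S : Set (Md X)) (i : Ltr X) : Prop := ∃ p ∈ S, tt i p ∈ S

theorem Lp.mv_eq {S : Set (Md X)} (hS : Nice S) {i : Ltr X} (hi : Good i) (h : Lp S i) :
    mv i S = S := by
  have h1 := hS (tt i) (isT_tt hi) h
  ext p
  rw [mem_mv]
  constructor
  · intro hp
    have := h1 _ hp
    rwa [tt_tt] at this
  · exact h1 p

theorem Lp_mv {S : Set (Md X)} {i : Ltr X} : Lp (mv i S) i ↔ Lp S i := by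
  unfold Lp
  constructor
  · rintro ⟨p, hp, hp'⟩
    rw [mem_mv] at hp hp'
    exact ⟨tt i p, hp, hp'⟩
  · rintro ⟨p, hp, hp'⟩
    refine ⟨p, ?_, ?_⟩
    · rw [mem_mv]; exact hp'
    · rw [mem_mv, tt_tt]; exact hp

/-- Valid words: reduced words of good letters from `P` never passing a loop. -/
def Vd (P : Ltr X → Prop) (S : Set (Md X)) : Wd X → Prop
  | [] => True
  | i :: c => Vd P S c ∧ Good i ∧ P i ∧ c.head? ≠ some i ∧ ¬ Lp (mvw c S) i

theorem Vd.mem {P : Ltr X → Prop} {S : Set (Md X)} {c : Wd X} (h : Vd P S c) :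
    ∀ i ∈ c, P i := by
  induction c with
  | nil => simp
  | cons j c ih =>
    intro i hi
    rw [List.mem_cons] at hi
    rcases hi with hi | hi
    · rw [hi]; exact h.2.2.1
    · exact ih h.1 i hi

theorem Vd.mono {P P' : Ltr X → Prop} {S : Set (Md X)} {c : Wd X} (h : Vd P S c)
    (hP : ∀ i ∈ c, P' i) : Vd P' S c := by
  induction c with
  | nil => exact h
  | cons j c ih =>
    exact ⟨ih h.1 (fun i hi => hP i (by simp [hi])), h.2.1, hP j (by simp), h.2.2.2.1, h.2.2.2.2⟩

open Classical in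
/-- The action of a letter on valid words. -/
noncomputable def actC (S : Set (Md X)) (i : Ltr X) (c : Wd X) : Wd X :=
  if Lp (mvw c S) i then c else if c.head? = some i then c.tail else i :: c

theorem actC_cases {P : Ltr X → Prop} {S : Set (Md X)} (i : Ltr X) (hi : Good i) (hPi : P i)
    {c : Wd X} (hc : Vd P S c) :
    (Lp (mvw c S) i ∧ actC S i c = c) ∨
    (¬ Lp (mvw c S) i ∧ ∃ q, c = i :: q ∧ actC S i c = q) ∨
    (¬ Lp (mvw c S) i ∧ actC S i c = i :: c ∧ Vd P S (i :: c)) := by
  unfold actC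
  by_cases h1 : Lp (mvw c S) i
  · left; exact ⟨h1, by rw [if_pos h1]⟩
  · right
    rw [if_neg h1]
    by_cases h2 : c.head? = some i
    · left
      refine ⟨h1, ?_⟩
      cases c with
      | nil => simp at h2
      | cons j q =>
        simp only [List.head?_cons, Option.some.injEq] at h2
        subst h2
        exact ⟨q, rfl, by simp⟩
    · right
      rw [if_neg h2]
      exact ⟨h1, rfl, hc, hi, hPi, h2, h1⟩

theorem vd_actC {P : Ltr X → Prop} {S : Set (Md X)} {i : Ltr X} (hi : Good i) (hPi : P i)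
    {c : Wd X} (hc : Vd P S c) : Vd P S (actC S i c) := by
  rcases actC_cases i hi hPi hc with ⟨_, h⟩ | ⟨_, q, h1, h⟩ | ⟨_, h, h'⟩
  · rw [h]; exact hc
  · rw [h]; rw [h1] at hc; exact hc.1
  · rw [h]; exact h'

theorem mvw_actC {P : Ltr X → Prop} {S : Set (Md X)} (hS : Nice S) {i : Ltr X} (hi : Good i)
    (hPi : P i) {c : Wd X} (hc : Vd P S c) : mvw (actC S i c) S = mv i (mvw c S) := by
  rcases actC_cases i hi hPi hc with ⟨h0, h⟩ | ⟨_, q, h1, h⟩ | ⟨_, h, h'⟩
  · rw [h, Lp.mv_eq (nice_mvw hS c) hi h0]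
  · rw [h, h1, mvw_cons, mv_mv]
  · rw [h, mvw_cons]

theorem Lp_actC {P : Ltr X → Prop} {S : Set (Md X)} (hS : Nice S) {i : Ltr X} (hi : Good i)
    (hPi : P i) {c : Wd X} (hc : Vd P S c) : Lp (mvw (actC S i c) S) i ↔ Lp (mvw c S) i := by
  rw [mvw_actC hS hi hPi hc, Lp_mv]

theorem actC_actC {P : Ltr X → Prop} {S : Set (Md X)} (hS : Nice S) {i : Ltr X} (hi : Good i)
    (hPi : P i) {c : Wd X} (hc : Vd P S c) : actC S i (actC S i c) = c := by
  rcases actC_cases i hi hPi hc with ⟨_, h⟩ | ⟨h0, q, h1, h⟩ | ⟨h0, h, h'⟩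
  · rw [h, h]
  · have h2 : ¬ Lp (mvw q S) i := by
      rw [h1, mvw_cons, Lp_mv] at h0
      exact h0
    have h3 : q.head? ≠ some i := by rw [h1] at hc; exact hc.2.2.2.1
    rw [h, h1]
    unfold actC
    rw [if_neg h2, if_neg h3]
  · have h2 : ¬ Lp (mvw (i :: c) S) i := by
      rw [mvw_cons, Lp_mv]; exact h0
    rw [h]
    unfold actC
    rw [if_neg h2, if_pos (by simp)]
    simp

/-! ### Systems -/

/-- The unknowns. -/
@[ext] structure Pre (X : Type u) (M : Type v) where
  th : Wd X → Ltr X → M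
  om : Wd X → M

section Sys

variable {M : Type v} [MulOneClass M]

/-- The value at `(c, p)`. -/
noncomputable def fv (S : Set (Md X)) (s : Pre X M) : Wd X → Wd X → M
  | c, [] => s.om c
  | c, i :: p => fv S s (actC S i c) p * s.th c i

@[simp] theorem fv_nil (S : Set (Md X)) (s : Pre X M) (c : Wd X) : fv S s c [] = s.om c := rfl

theorem fv_cons (S : Set (Md X)) (s : Pre X M) (c : Wd X) (i : Ltr X) (p : Wd X) :
    fv S s c (i :: p) = fv S s (actC S i c) p * s.th c i := rfl

/-- Solutions of the system. -/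
structure IsSol (P : Ltr X → Prop) (S : Set (Md X)) (s : Pre X M) : Prop where
  supth : ∀ c i, s.th c i ≠ 1 → Vd P S c ∧ Good i ∧ P i ∧ Lp (mvw c S) i
  supom : ∀ c, s.om c ≠ 1 → Vd P S c ∧ ep ∈ mvw c S
  eqn : ∀ c y, Vd P S c → Good (Sum.inr y) → P (Sum.inr y) → ep ∈ mvw c S →
    fv S s (actC S (Sum.inr y) c) y.dec = s.om c * s.th c (Sum.inr y)

/-- The type of solutions. -/
def Sol (P : Ltr X → Prop) (S : Set (Md X)) (M : Type v) [MulOneClass M] : Type (max u v) :=
  {s : Pre X M // IsSol P S s}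

/-- Letters of boundaries of letters in `P` are in `P`. -/
def DC (P : Ltr X → Prop) : Prop := ∀ y : W X, P (Sum.inr y) → ∀ j ∈ y.dec, P j

theorem IsSol.th_nonloop {P : Ltr X → Prop} {S : Set (Md X)} {s : Pre X M} (hs : IsSol P S s)
    {c : Wd X} {i : Ltr X} (h : ¬ Lp (mvw c S) i) : s.th c i = 1 := by
  by_contra h1
  exact h (hs.supth c i h1).2.2.2

theorem IsSol.th_actC {P : Ltr X → Prop} {S : Set (Md X)} (hS : Nice S) {s : Pre X M}
    (hs : IsSol P S s) {c : Wd X} {i : Ltr X} (hi : Good i) (hPi : P i) (hc : Vd P S c) :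
    s.th (actC S i c) i = s.th c i := by
  by_cases h : Lp (mvw c S) i
  · have : actC S i c = c := by unfold actC; rw [if_pos h]
    rw [this]
  · rw [hs.th_nonloop h, hs.th_nonloop]
    rw [Lp_actC hS hi hPi hc]; exact h

variable [IsBolTwo M]

theorem IsSol.equi {P : Ltr X → Prop} {S : Set (Md X)} (hS : Nice S) {s : Pre X M}
    (hs : IsSol P S s) {c : Wd X} {i : Ltr X} (hi : Good i) (hPi : P i) (hc : Vd P S c)
    {p : Md X} (hp : p ∈ mvw c S) :
    fv S s (actC S i c) (tt i p).1 = fv S s c p.1 * s.th c i := by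
  rw [tt_val hi]
  rcases act_cases i hi p.1 p.2 with ⟨q, h1, h2⟩ | ⟨h1, h2⟩ | ⟨h1, h2⟩ | ⟨h1, h2⟩
  · rw [h2, h1, fv_cons, mul_mul_self]
  · rw [h2, h1]
    cases i with
    | inl x =>
      simp only [bd, fv_cons, fv_nil]
      rw [actC_actC hS hi hPi hc, hs.th_actC hS hi hPi hc]
    | inr y =>
      simp only [bd, fv_nil]
      apply hs.eqn c y hc hi hPi
      have : p = ep := Subtype.ext h1
      rw [← this]; exact hp
  · rw [h2, h1]
    cases i with
    | inl x =>
      simp only [bd, fv_cons, fv_nil]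
      rw [mul_mul_self]
    | inr y =>
      simp only [bd, fv_nil]
      have h3 := hs.eqn (actC S (Sum.inr y) c) y (vd_actC hi hPi hc) hi hPi (by
        rw [mvw_actC hS hi hPi hc, mem_mv]
        have : tt (Sum.inr y) (ep : Md X) = p := by
          apply Subtype.ext
          rw [tt_val hi, h1]
          exact act_nil _
        rw [this]; exact hp)
      rw [actC_actC hS hi hPi hc, hs.th_actC hS hi hPi hc] at h3
      rw [h3, mul_mul_self]
  · rw [h1, fv_cons, actC_actC hS hi hPi hc, hs.th_actC hS hi hPi hc]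

/-! ### Functoriality -/

variable {N : Type v} [MulOneClass N] [IsBolTwo N]

/-- Image of a presolution. -/
def Pre.map (g : M →* N) (s : Pre X M) : Pre X N := ⟨fun c i => g (s.th c i), fun c => g (s.om c)⟩

theorem fv_map (S : Set (Md X)) (g : M →* N) (s : Pre X M) (c p : Wd X) :
    fv S (s.map g) c p = g (fv S s c p) := by
  induction p generalizing c with
  | nil => rfl
  | cons i p ih => rw [fv_cons, fv_cons, ih, map_mul]; rfl

theorem IsSol.map {P : Ltr X → Prop} {S : Set (Md X)} {s : Pre X M} (hs : IsSol P S s)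
    (g : M →* N) : IsSol P S (s.map g) where
  supth c i h := by
    apply hs.supth c i
    intro h1
    apply h
    change g (s.th c i) = 1
    rw [h1, map_one]
  supom c h := by
    apply hs.supom c
    intro h1
    apply h
    change g (s.om c) = 1
    rw [h1, map_one]
  eqn c y h1 h2 h3 h4 := by
    rw [fv_map, hs.eqn c y h1 h2 h3 h4, map_mul]
    rfl

/-- Image of a solution. -/
def Sol.map {P : Ltr X → Prop} {S : Set (Md X)} (g : M →* N) (s : Sol P S M) : Sol P S N :=
  ⟨s.1.map g, s.2.map g⟩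

/-! ### Shift -/

open Classical in
/-- Shift of a presolution. -/
noncomputable def Pre.sh (P : Ltr X → Prop) (S : Set (Md X)) (z : M) (s : Pre X M) : Pre X M :=
  ⟨fun c i => (z * s.th c i) * z, fun c => if Vd P S c ∧ ep ∈ mvw c S then s.om c * z else 1⟩

theorem fv_sh {P : Ltr X → Prop} {S : Set (Md X)} (hS : Nice S) (z : M) (s : Pre X M) :
    ∀ (p : Wd X) (hp : Irr p) (c : Wd X), Vd P S c → (∀ j ∈ p, P j) →
    pt p hp ∈ mvw c S → fv S (s.sh P S z) c p = fv S s c p * z := by
  intro p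
  induction p with
  | nil =>
    intro hp c hc _ hm
    rw [fv_nil, fv_nil]
    exact if_pos ⟨hc, hm⟩
  | cons i p ih =>
    intro hp c hc hP hm
    have hi : Good i := (irr_cons.1 hp).2.1
    have hPi : P i := hP i (by simp)
    rw [fv_cons, fv_cons, ih hp.tail _ (vd_actC hi hPi hc) (fun j hj => hP j (by simp [hj]))]
    · exact bol_conj _ _ _
    · rw [mvw_actC hS hi hPi hc, mem_mv, tt_pt_tail hp]
      exact hm

theorem IsSol.sh {P : Ltr X → Prop} (hP : DC P) {S : Set (Md X)} (hS : Nice S) {s : Pre X M}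
    (hs : IsSol P S s) (z : M) : IsSol P S (s.sh P S z) where
  supth c i h := by
    apply hs.supth c i
    intro h1
    apply h
    change (z * s.th c i) * z = 1
    rw [h1, mul_one, IsBolTwo.sq]
  supom c h := by
    by_contra h1
    exact h (if_neg h1)
  eqn c y h1 h2 h3 h4 := by
    have e1 : (s.sh P S z).om c = s.om c * z := if_pos ⟨h1, h4⟩
    rw [fv_sh hS z s y.dec h2.1 _ (vd_actC h2 h3 h1) (hP y h3), hs.eqn c y h1 h2 h3 h4, e1]
    · exact (bol_conj _ _ _).symm
    · rw [mvw_actC hS h2 h3 h1, mem_mv]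
      have : tt (Sum.inr y) (pt y.dec h2.1) = ep := tt_pt_bd h2
      rw [this]; exact h4

open Classical in
theorem sh_sh {P : Ltr X → Prop} {S : Set (Md X)} {s : Pre X M} (hs : IsSol P S s) (z : M) :
    (s.sh P S z).sh P S z = s := by
  ext c i
  · exact conj_conj z (s.th c i)
  · by_cases h : Vd P S c ∧ ep ∈ mvw c S
    · change (if Vd P S c ∧ ep ∈ mvw c S then (if Vd P S c ∧ ep ∈ mvw c S then s.om c * z else 1) * z
        else 1) = s.om c
      rw [if_pos h, if_pos h, mul_mul_self]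
    · change (if Vd P S c ∧ ep ∈ mvw c S then (if Vd P S c ∧ ep ∈ mvw c S then s.om c * z else 1) * z
        else 1) = s.om c
      rw [if_neg h]
      by_contra h1
      exact h (hs.supom c (fun h2 => h1 h2.symm))

open Classical in
theorem map_sh (P : Ltr X → Prop) (S : Set (Md X)) (g : M →* N) (z : M) (s : Pre X M) :
    (s.sh P S z).map g = (s.map g).sh P S (g z) := by
  ext c i
  · change g ((z * s.th c i) * z) = (g z * g (s.th c i)) * g z
    rw [map_mul, map_mul]
  · change g (if Vd P S c ∧ ep ∈ mvw c S then s.om c * z else 1)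
      = if Vd P S c ∧ ep ∈ mvw c S then g (s.om c) * g z else 1
    split_ifs
    · rw [map_mul]
    · rw [map_one]

end Sys

end Pool.Agent.Lib.MP_a1bc66_al
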