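import Mathlib

/-!
Right Bol loops of exponent two, the free one on a set, and subloops.
-/

set_option autoImplicit false

namespace Pool.Agent.Lib.MP_a1bc66_al

universe u v

/-- A loop: a set with a multiplication with identity `1` such that all the equations
`a * x = b` and `y * a = b` are uniquely solvable. -/
class IsLoop (L : Type u) [MulOneClass L] : Prop where
  left_div : ∀ a b : L, ∃! x, a * x = b
  right_div : ∀ a b : L, ∃! y, y * a = b

/-- A (right) Bol loop of exponent two. -/
class IsBolTwo (L : Type u) [MulOneClass L] : Prop extends IsLoop L where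
  bol : ∀ x y z : L, ((x * y) * z) * y = x * ((y * z) * y)
  sq : ∀ x : L, x * x = 1

/-- Terms in the signature (multiplication, left division, right division, identity). -/
inductive Term (X : Type u) : Type u
  | var : X → Term X
  | one : Term X
  | mul : Term X → Term X → Term X
  | ldiv : Term X → Term X → Term X
  | rdiv : Term X → Term X → Term X

/-- The congruence on terms generated by the identities of loops, the right Bol identity and
`x * x = 1`. -/
inductive Rel (X : Type u) : Term X → Term X → Prop
  | refl (a : Term X) : Rel X a a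
  | symm {a b : Term X} : Rel X a b → Rel X b a
  | trans {a b c : Term X} : Rel X a b → Rel X b c → Rel X a c
  | mul_congr {a b c d : Term X} : Rel X a b → Rel X c d → Rel X (a.mul c) (b.mul d)
  | ldiv_congr {a b c d : Term X} : Rel X a b → Rel X c d → Rel X (a.ldiv c) (b.ldiv d)
  | rdiv_congr {a b c d : Term X} : Rel X a b → Rel X c d → Rel X (a.rdiv c) (b.rdiv d)
  | one_mul (a : Term X) : Rel X (Term.one.mul a) a
  | mul_one (a : Term X) : Rel X (a.mul Term.one) a
  | mul_ldiv (a b : Term X) : Rel X (a.mul (a.ldiv b)) b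
  | ldiv_mul (a b : Term X) : Rel X (a.ldiv (a.mul b)) b
  | rdiv_mul (a b : Term X) : Rel X ((b.rdiv a).mul a) b
  | mul_rdiv (a b : Term X) : Rel X ((b.mul a).rdiv a) b
  | bol (x y z : Term X) : Rel X (((x.mul y).mul z).mul y) (x.mul ((y.mul z).mul y))
  | sq (x : Term X) : Rel X (x.mul x) Term.one

/-- The setoid of the congruence `Rel`. -/
def relSetoid (X : Type u) : Setoid (Term X) where
  r := Rel X
  iseqv := ⟨Rel.refl, Rel.symm, Rel.trans⟩

/-- The free (right) Bol loop of exponent two on the set `X`. -/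
def FreeBolTwo (X : Type u) : Type u := Quotient (relSetoid X)

namespace FreeBolTwo

variable {X : Type u}

instance : MulOneClass (FreeBolTwo X) where
  mul := Quotient.map₂ Term.mul (fun _ _ h _ _ h' => Rel.mul_congr h h')
  one := Quotient.mk _ Term.one
  one_mul := by
    rintro ⟨a⟩
    exact Quotient.sound (Rel.one_mul a)
  mul_one := by
    rintro ⟨a⟩
    exact Quotient.sound (Rel.mul_one a)

/-- The free generators. -/
def of (x : X) : FreeBolTwo X := Quotient.mk _ (Term.var x)

/-- Left division. -/
def ldiv : FreeBolTwo X → FreeBolTwo X → FreeBolTwo X :=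
  Quotient.map₂ Term.ldiv (fun _ _ h _ _ h' => Rel.ldiv_congr h h')

/-- Right division. -/
def rdiv : FreeBolTwo X → FreeBolTwo X → FreeBolTwo X :=
  Quotient.map₂ Term.rdiv (fun _ _ h _ _ h' => Rel.rdiv_congr h h')

theorem mul_ldiv (a b : FreeBolTwo X) : a * ldiv a b = b := by
  revert a b
  rintro ⟨a⟩ ⟨b⟩
  exact Quotient.sound (Rel.mul_ldiv a b)

theorem ldiv_mul (a b : FreeBolTwo X) : ldiv a (a * b) = b := by
  revert a b
  rintro ⟨a⟩ ⟨b⟩
  exact Quotient.sound (Rel.ldiv_mul a b)

theorem rdiv_mul (a b : FreeBolTwo X) : rdiv b a * a = b := by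
  revert a b
  rintro ⟨a⟩ ⟨b⟩
  exact Quotient.sound (Rel.rdiv_mul a b)

theorem mul_rdiv (a b : FreeBolTwo X) : rdiv (b * a) a = b := by
  revert a b
  rintro ⟨a⟩ ⟨b⟩
  exact Quotient.sound (Rel.mul_rdiv a b)

instance : IsBolTwo (FreeBolTwo X) where
  left_div a b := ⟨ldiv a b, mul_ldiv a b, fun x hx => by
    have := ldiv_mul a x
    rw [← this]; congr 1⟩
  right_div a b := ⟨rdiv b a, rdiv_mul a b, fun y hy => by
    have := mul_rdiv a y
    rw [← this]; congr 1⟩
  bol := by
    rintro ⟨x⟩ ⟨y⟩ ⟨z⟩
    exact Quotient.sound (Rel.bol x y z)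
  sq := by
    rintro ⟨x⟩
    exact Quotient.sound (Rel.sq x)

end FreeBolTwo

/-- A subloop: a subset containing `1` and closed under multiplication and both divisions. -/
structure Subloop (L : Type u) [MulOneClass L] where
  carrier : Set L
  one_mem : 1 ∈ carrier
  mul_mem : ∀ a b : L, a ∈ carrier → b ∈ carrier → a * b ∈ carrier
  ldiv_mem : ∀ a b x : L, a ∈ carrier → b ∈ carrier → a * x = b → x ∈ carrier
  rdiv_mem : ∀ a b y : L, a ∈ carrier → b ∈ carrier → y * a = b → y ∈ carrier

/-- The multiplication with identity on a subloop. -/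
instance Subloop.mulOne {L : Type u} [MulOneClass L] (H : Subloop L) :
    MulOneClass H.carrier where
  mul a b := ⟨a.1 * b.1, H.mul_mem _ _ a.2 b.2⟩
  one := ⟨1, H.one_mem⟩
  one_mul a := Subtype.ext (one_mul a.1)
  mul_one a := Subtype.ext (mul_one a.1)

end Pool.Agent.Lib.MP_a1bc66_al
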