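import Pool.Agent.Lib.MP_a1bc66_al.Limit

set_option autoImplicit false
set_option linter.unusedSectionVars false

namespace Pool.Agent.Lib.MP_a1bc66_al

universe u v

/-- A subloop of a Bol loop of exponent two is a Bol loop of exponent two. -/
instance subloopBol {L : Type u} [MulOneClass L] [IsBolTwo L] (H : Subloop L) :
    IsBolTwo H.carrier where
  left_div a b := by
    obtain ⟨x, hx, hu⟩ := IsLoop.left_div a.1 b.1
    refine ⟨⟨x, H.ldiv_mem _ _ _ a.2 b.2 hx⟩, Subtype.ext hx, ?_⟩
    intro y hy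
    exact Subtype.ext (hu y.1 (congrArg Subtype.val hy))
  right_div a b := by
    obtain ⟨x, hx, hu⟩ := IsLoop.right_div a.1 b.1
    refine ⟨⟨x, H.rdiv_mem _ _ _ a.2 b.2 hx⟩, Subtype.ext hx, ?_⟩
    intro y hy
    exact Subtype.ext (hu y.1 (congrArg Subtype.val hy))
  bol x y z := Subtype.ext (IsBolTwo.bol x.1 y.1 z.1)
  sq x := Subtype.ext (IsBolTwo.sq x.1)

variable {X : Type u}

theorem nice_subloop (K : Subloop (Md X)) : Nice K.carrier := by
  rintro τ hτ ⟨p, hp, hp'⟩ q hq
  have h1 := IsT1.eq_RR (Or.inr hτ)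
  have e : ∀ r, r * τ ep = τ r := by
    intro r
    rw [md_mul, h1]
  have hz : τ ep ∈ K.carrier := K.ldiv_mem p (τ p) _ hp hp' (e p)
  rw [← e q]
  exact K.mul_mem _ _ hq hz

section Hom

variable {M : Type v} [MulOneClass M] [IsBolTwo M]

theorem refl_conj {S : Set (Md X)} (hS : Nice S) (s : Sol PT S M) {i : Ltr X} (hi : Good i)
    (g : Wd X) : (∀ j ∈ g, Good j) → ∀ c, Vd PT S c →
    (∃ p ∈ mvw c S, rf g i p ∈ mvw c S) →
    ∃ z : M, ∀ p ∈ mvw c S, fv S s.1 c (rf g i p).1 = fv S s.1 c p.1 * z := by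
  induction g with
  | nil =>
    intro _ c hc hL
    have hrf : rf [] i = (tt i : Equiv.Perm (Md X)) := by simp [rf]
    rw [hrf] at hL ⊢
    have hL' : Lp (mvw c S) i := hL
    refine ⟨s.1.th c i, fun p hp => ?_⟩
    have := s.2.equi hS hi trivial hc hp
    have hact : actC S i c = c := by unfold actC; rw [if_pos hL']
    rw [hact] at this
    exact this
  | cons j g ih =>
    intro hg c hc hL
    have hj : Good j := hg j (by simp)
    have hrf : ∀ p : Md X, rf (j :: g) i p = tt j (rf g i (tt j p)) := by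
      intro p
      have : rf (j :: g) i = tt j * rf g i * (tt j : Equiv.Perm (Md X)) := by
        rw [rf, rf, tw_cons, mul_inv_rev, tt_inv]
        group
      rw [this]
      rfl
    have hc' : Vd PT S (actC S j c) := vd_actC hj trivial hc
    have hmv : mvw (actC S j c) S = mv j (mvw c S) := mvw_actC hS hj trivial hc
    have hmem : ∀ p, p ∈ mvw c S → tt j p ∈ mvw (actC S j c) S := by
      intro p hp
      rw [hmv, mem_mv, tt_tt]; exact hp
    obtain ⟨p0, hp0, hp0'⟩ := hL
    rw [hrf] at hp0'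
    have hp1 : rf g i (tt j p0) ∈ mvw (actC S j c) S := by
      rw [hmv, mem_mv]; exact hp0'
    obtain ⟨z, hz⟩ := ih (fun k hk => hg k (by simp [hk])) (actC S j c) hc'
      ⟨tt j p0, hmem _ hp0, hp1⟩
    have hpres := nice_mvw hS (actC S j c) (rf g i)
      ⟨g, i, fun k hk => hg k (by simp [hk]), hi, rfl⟩ ⟨tt j p0, hmem _ hp0, hp1⟩
    refine ⟨(s.1.th c j * z) * s.1.th c j, fun p hp => ?_⟩
    rw [hrf]
    have e1 := s.2.equi hS hj trivial hc' (hpres _ (hmem p hp))
    rw [actC_actC hS hj trivial hc, s.2.th_actC hS hj trivial hc, hz _ (hmem p hp),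
      s.2.equi hS hj trivial hc hp] at e1
    rw [e1]
    exact IsBolTwo.bol _ _ _

/-- The homomorphism attached to a solution. -/
noncomputable def homOf (K : Subloop (Md X)) (s : Sol PT K.carrier M) (h1 : s.1.om [] = 1) :
    K.carrier →* M where
  toFun p := fv K.carrier s.1 [] p.1.1
  map_one' := h1
  map_mul' p q := by
    change fv K.carrier s.1 [] (RR q.1 p.1).1 = _
    rcases isT1_RR q.1 with h | ⟨g, i, hg, hi, h⟩
    · have hq : q.1 = ep := by
        have := RR_ep q.1
        rw [h] at this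
        exact this.symm
      rw [h, hq]
      change fv K.carrier s.1 [] p.1.1 = fv K.carrier s.1 [] p.1.1 * s.1.om []
      rw [h1, mul_one]
    · have hex : ∃ p ∈ mvw [] K.carrier, rf g i p ∈ mvw [] K.carrier :=
        ⟨ep, K.one_mem, by rw [← h, RR_ep]; exact q.2⟩
      obtain ⟨z, hz⟩ := refl_conj (nice_subloop K) s hi g hg [] trivial hex
      rw [← h] at hz
      rw [hz p.1 p.2]
      have e := hz ep K.one_mem
      rw [RR_ep] at e
      have e2 : fv K.carrier s.1 [] (ep : Md X).1 = 1 := h1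
      rw [e2, one_mul] at e
      rw [e]

theorem homOf_apply (K : Subloop (Md X)) (s : Sol PT K.carrier M) (h1 : s.1.om [] = 1)
    (p : K.carrier) : homOf K s h1 p = fv K.carrier s.1 [] p.1.1 := rfl

theorem fv_transport {S : Set (Md X)} (hS : Nice S) (s : Sol PT S M) (c : Wd X) :
    Vd PT S c → ∀ p ∈ mvw c S, fv S s.1 c p.1 = fv S s.1 [] ((tw c)⁻¹ p).1 := by
  induction c with
  | nil => intro _ p _; simp
  | cons i c ih =>
    intro hc p hp
    obtain ⟨h1, h2, h3, h4, h5⟩ := hc
    rw [mvw_cons, mem_mv] at hp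
    have hact : actC S i c = i :: c := by
      unfold actC
      rw [if_neg h5, if_neg h4]
    have e := s.2.equi hS h2 h3 h1 hp
    rw [tt_tt, hact, s.2.th_nonloop h5, mul_one] at e
    rw [e, ih h1 _ hp, tw_cons, mul_inv_rev, tt_inv]
    rfl

theorem sol_ext_hom {S : Set (Md X)} (hS : Nice S) (hne : S.Nonempty) {s t : Sol PT S M}
    (h : ∀ p ∈ S, fv S s.1 [] p.1 = fv S t.1 [] p.1) : s = t := by
  have h' : ∀ c, Vd PT S c → ∀ p ∈ mvw c S, fv S s.1 c p.1 = fv S t.1 c p.1 := by
    intro c hc p hp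
    rw [fv_transport hS s c hc p hp, fv_transport hS t c hc p hp]
    exact h _ (mem_mvw.1 hp)
  apply Sol.ext'
  · intro c hc he
    exact h' c hc ep he
  · intro c i hc hi hPi hL
    obtain ⟨p, hp⟩ := nonempty_mvw hne c
    have e1 := s.2.equi hS hi hPi hc hp
    have e2 := t.2.equi hS hi hPi hc hp
    have hc' := vd_actC hi hPi hc
    have hp' : tt i p ∈ mvw (actC S i c) S := by
      rw [mvw_actC hS hi hPi hc, mem_mv, tt_tt]; exact hp
    rw [h' _ hc' _ hp', e2, h' c hc p hp] at e1
    exact (mul_lcancel e1).symm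

end Hom

/-! ### The identity solution -/

section Id

open Classical in
/-- Retraction to the subloop (as sets). -/
noncomputable def hx (K : Subloop (Md X)) (p : Md X) : K.carrier :=
  if hp : p ∈ K.carrier then ⟨p, hp⟩ else 1

theorem hx_mem {K : Subloop (Md X)} {p : Md X} (hp : p ∈ K.carrier) : hx K p = ⟨p, hp⟩ :=
  dif_pos hp

open Classical in
/-- The presolution of the identity. -/
noncomputable def prId (K : Subloop (Md X)) : Pre X K.carrier :=
  ⟨fun c i => if Vd PT K.carrier c ∧ Good i ∧ Lp (mvw c K.carrier) i then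
      hx K (((tw c)⁻¹ * tt i * tw c) ep) else 1,
    fun c => if Vd PT K.carrier c ∧ ep ∈ mvw c K.carrier then hx K ((tw c)⁻¹ ep) else 1⟩

theorem tau_spec {K : Subloop (Md X)} {c : Wd X} {i : Ltr X} (hc : Vd PT K.carrier c)
    (hi : Good i) (hL : Lp (mvw c K.carrier) i) :
    ((tw c)⁻¹ * tt i * tw c) ep ∈ K.carrier ∧ ∀ r ∈ K.carrier,
      hx K (((tw c)⁻¹ * tt i * tw c) r) = hx K r * hx K (((tw c)⁻¹ * tt i * tw c) ep) := by
  have hcg : ∀ j ∈ c.reverse, Good j := by
    have : ∀ c : Wd X, Vd PT K.carrier c → ∀ j ∈ c, Good j := by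
      intro c
      induction c with
      | nil => simp
      | cons k c ih =>
        intro h j hj
        rw [List.mem_cons] at hj
        rcases hj with hj | hj
        · rw [hj]; exact h.2.1
        · exact ih h.1 j hj
    intro j hj
    exact this c hc j (List.mem_reverse.1 hj)
  have hT : IsT ((tw c)⁻¹ * tt i * tw c) := by
    have := (isT_tt hi).conj hcg
    rw [tw_reverse, inv_inv] at this
    exact this
  obtain ⟨p, hp, hp'⟩ := hL
  rw [mem_mvw] at hp hp'
  have hpres := nice_subloop K _ hT ⟨(tw c)⁻¹ p, hp, by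
    rw [Equiv.Perm.mul_apply, Equiv.Perm.mul_apply, perm_apply_inv]; exact hp'⟩
  have h0 := hpres ep K.one_mem
  refine ⟨h0, fun r hr => ?_⟩
  rw [hx_mem (hpres r hr), hx_mem hr, hx_mem h0]
  apply Subtype.ext
  change _ = r * _
  rw [md_mul, IsT1.eq_RR (Or.inr hT)]

open Classical in
theorem fv_prId (K : Subloop (Md X)) (q : Wd X) : ∀ (hq : Irr q) (c : Wd X),
    Vd PT K.carrier c → pt q hq ∈ mvw c K.carrier →
    fv K.carrier (prId K) c q = hx K ((tw c)⁻¹ (pt q hq)) := by
  induction q with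
  | nil =>
    intro hq c hc hm
    exact if_pos ⟨hc, hm⟩
  | cons i q ih =>
    intro hq c hc hm
    have hi : Good i := (irr_cons.1 hq).2.1
    have hm' : pt q hq.tail ∈ mvw (actC K.carrier i c) K.carrier := by
      rw [mvw_actC (nice_subloop K) hi trivial hc, mem_mv, tt_pt_tail hq]
      exact hm
    rw [fv_cons, ih hq.tail _ (vd_actC hi trivial hc) hm']
    have e0 : pt (i :: q) hq = tt i (pt q hq.tail) := (tt_pt_tail hq).symm
    rcases actC_cases (P := PT) i hi trivial hc with ⟨h0, h⟩ | ⟨h0, q', h1, h⟩ | ⟨h0, h, h'⟩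
    · rw [h]
      rw [h] at hm'
      have eth : (prId K).th c i = hx K (((tw c)⁻¹ * tt i * tw c) ep) := if_pos ⟨hc, hi, h0⟩
      rw [eth, ← (tau_spec hc hi h0).2 _ (mem_mvw.1 hm'), e0]
      rw [Equiv.Perm.mul_apply, Equiv.Perm.mul_apply, perm_apply_inv]
    · have eth : (prId K).th c i = 1 := if_neg (fun h2 => h0 h2.2.2)
      rw [eth, mul_one, h, e0, h1, tw_cons, mul_inv_rev, Equiv.Perm.mul_apply, tt_inv, tt_tt]
    · have eth : (prId K).th c i = 1 := if_neg (fun h2 => h0 h2.2.2)
      rw [eth, mul_one, h, e0, tw_cons, mul_inv_rev, Equiv.Perm.mul_apply, tt_inv]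

open Classical in
theorem isSol_prId (K : Subloop (Md X)) : IsSol PT K.carrier (prId K) where
  supth c i h := by
    have h1 : Vd PT K.carrier c ∧ Good i ∧ Lp (mvw c K.carrier) i := by
      by_contra h2
      exact h (if_neg h2)
    exact ⟨h1.1, h1.2.1, trivial, h1.2.2⟩
  supom c h := by
    by_contra h2
    exact h (if_neg h2)
  eqn c y hc hi _ hep := by
    have hm' : pt y.dec hi.1 ∈ mvw (actC K.carrier (Sum.inr y) c) K.carrier := by
      rw [mvw_actC (nice_subloop K) hi trivial hc, mem_mv]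
      have : tt (Sum.inr y) (pt y.dec hi.1) = ep := tt_pt_bd hi
      rw [this]; exact hep
    rw [fv_prId K y.dec hi.1 _ (vd_actC hi trivial hc) hm']
    have e0 : pt y.dec hi.1 = tt (Sum.inr y) ep := (tt_ep hi).symm
    have eom : (prId K).om c = hx K ((tw c)⁻¹ ep) := if_pos ⟨hc, hep⟩
    rw [eom]
    rcases actC_cases (P := PT) (Sum.inr y) hi trivial hc with
      ⟨h0, h⟩ | ⟨h0, q', h1, h⟩ | ⟨h0, h, h'⟩
    · have eth : (prId K).th c (Sum.inr y) = hx K (((tw c)⁻¹ * tt (Sum.inr y) * tw c) ep) :=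
        if_pos ⟨hc, hi, h0⟩
      rw [eth, h, ← (tau_spec hc hi h0).2 _ (mem_mvw.1 hep), e0]
      rw [Equiv.Perm.mul_apply, Equiv.Perm.mul_apply, perm_apply_inv]
    · have eth : (prId K).th c (Sum.inr y) = 1 := if_neg (fun h2 => h0 h2.2.2)
      rw [eth, mul_one, h, e0, h1, tw_cons, mul_inv_rev, Equiv.Perm.mul_apply, tt_inv]
    · have eth : (prId K).th c (Sum.inr y) = 1 := if_neg (fun h2 => h0 h2.2.2)
      rw [eth, mul_one, h, e0, tw_cons, mul_inv_rev, Equiv.Perm.mul_apply, tt_inv, tt_tt]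

/-- The identity solution. -/
noncomputable def sId (K : Subloop (Md X)) : Sol PT K.carrier K.carrier :=
  ⟨prId K, isSol_prId K⟩

theorem fv_sId (K : Subloop (Md X)) (p : K.carrier) :
    fv K.carrier (sId K).1 [] p.1.1 = p := by
  have := fv_prId K p.1.1 p.1.2 [] trivial p.2
  refine this.trans ?_
  simp only [tw_nil, inv_one, Equiv.Perm.one_apply]
  exact hx_mem p.2

theorem sId_om (K : Subloop (Md X)) : (sId K).1.om [] = 1 := fv_sId K ⟨ep, K.one_mem⟩

end Id

/-- Every subloop of the model is free. -/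
theorem subloop_model (K : Subloop (Md X)) :
    ∃ Q : Type u, Nonempty (K.carrier ≃* FreeBolTwo Q) := by
  have hep : ep ∈ K.carrier := K.one_mem
  obtain ⟨Q, k, hk, hb⟩ := freeAt_top (nice_subloop K) hep
  obtain ⟨s, hs⟩ := (hb (FreeBolTwo Q)).2 (1, FreeBolTwo.of)
  simp only [Prod.mk.injEq] at hs
  obtain ⟨hs1, hs2⟩ := hs
  have hs1' : s.1.om [] = 1 := hs1
  let h : K.carrier →* FreeBolTwo Q := homOf K s hs1'
  let ι : Q → K.carrier := k K.carrier (sId K)
  let g : FreeBolTwo Q →* K.carrier := FreeBolTwo.lift ι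
  have hgh : ∀ p, g (h p) = p := by
    have e1 : Sol.map g s = sId K := by
      apply (hb K.carrier).1
      simp only [Prod.mk.injEq]
      constructor
      · rw [fv_nil, fv_nil, sId_om]
        change g (s.1.om []) = 1
        rw [hs1', map_one]
      · funext q
        rw [hk, hs2]
        exact FreeBolTwo.lift_of ι q
    intro p
    have e2 : fv K.carrier (Sol.map g s).1 [] p.1.1 = g (fv K.carrier s.1 [] p.1.1) :=
      fv_map _ _ _ _ _
    change g (fv K.carrier s.1 [] p.1.1) = p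
    rw [← e2, e1, fv_sId]
  have hhg : h.comp g = MonoidHom.id _ := by
    apply FreeBolTwo.hom_ext
    intro q
    have e1 : Sol.map h (sId K) = s := by
      apply sol_ext_hom (nice_subloop K) ⟨ep, hep⟩
      intro p hp
      have e2 : fv K.carrier (Sol.map h (sId K)).1 [] p.1 = h (fv K.carrier (sId K).1 [] p.1) :=
        fv_map _ _ _ _ _
      rw [e2, fv_sId K ⟨p, hp⟩]
      rfl
    change h (g (FreeBolTwo.of q)) = FreeBolTwo.of q
    have e3 : g (FreeBolTwo.of q) = ι q := FreeBolTwo.lift_of ι q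
    rw [e3]
    change h (k K.carrier (sId K) q) = _
    rw [← hk, e1, hs2]
  refine ⟨Q, ⟨MulEquiv.ofBijective h ⟨?_, ?_⟩⟩⟩
  · intro a b hab
    rw [← hgh a, ← hgh b, hab]
  · intro b
    exact ⟨g b, DFunLike.congr_fun hhg b⟩

/-- Transport of a subloop along an isomorphism. -/
def Subloop.transport {L L' : Type u} [MulOneClass L] [MulOneClass L'] (e : L ≃* L')
    (H : Subloop L) : Subloop L' where
  carrier := {p | e.symm p ∈ H.carrier}
  one_mem := by
    change e.symm 1 ∈ H.carrier
    rw [map_one]; exact H.one_mem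
  mul_mem a b ha hb := by
    change e.symm (a * b) ∈ H.carrier
    rw [map_mul]; exact H.mul_mem _ _ ha hb
  ldiv_mem a b x ha hb hx := by
    apply H.ldiv_mem _ _ _ ha hb
    rw [← map_mul, hx]
  rdiv_mem a b y ha hb hy := by
    apply H.rdiv_mem _ _ _ ha hb
    rw [← map_mul, hy]

/-- A transported subloop is isomorphic to the original one. -/
def Subloop.transportEquiv {L L' : Type u} [MulOneClass L] [MulOneClass L'] (e : L ≃* L')
    (H : Subloop L) : H.carrier ≃* (H.transport e).carrier where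
  toFun a := ⟨e a.1, by
    change e.symm (e a.1) ∈ H.carrier
    rw [MulEquiv.symm_apply_apply]; exact a.2⟩
  invFun b := ⟨e.symm b.1, b.2⟩
  left_inv a := Subtype.ext (e.symm_apply_apply a.1)
  right_inv b := Subtype.ext (e.apply_symm_apply b.1)
  map_mul' a b := Subtype.ext (map_mul e a.1 b.1)

/-- Every subloop of a free Bol loop of exponent two is free. -/
theorem subloop_free (X : Type u) (H : Subloop (FreeBolTwo X)) :
    ∃ Y : Type u, Nonempty (H.carrier ≃* FreeBolTwo Y) := by
  obtain ⟨Q, ⟨e⟩⟩ := subloop_model (H.transport (freeEquiv X))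
  exact ⟨Q, ⟨(H.transportEquiv (freeEquiv X)).trans e⟩⟩

end Pool.Agent.Lib.MP_a1bc66_al
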