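import Pool.Agent.Lib.MP_a1bc66_al.Step

set_option autoImplicit false
set_option linter.unusedSectionVars false

namespace Pool.Agent.Lib.MP_a1bc66_al

universe u v

variable {X : Type u}

theorem vd_zero {S : Set (Md X)} {c : Wd X} (h : Vd (Pn 0) S c) : c = [] := by
  cases c with
  | nil => rfl
  | cons i c =>
    have : lsz i < 0 := h.2.2.1
    omega

theorem sol_zero_ext {M : Type v} [MulOneClass M] {S : Set (Md X)} {s t : Sol (Pn 0) S M}
    (h : s.1.om [] = t.1.om []) : s = t := by
  apply Sol.ext'
  · intro c hc _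
    rw [vd_zero hc]; exact h
  · intro c i _ _ hPi _
    have : lsz i < 0 := hPi
    omega

theorem freeAt_zero {S : Set (Md X)} (h : ep ∈ S) : FreeAt (Pn 0) S [] [] := by
  classical
  refine ⟨PEmpty, fun _ _ _ _ q => q.elim, ?_, ?_⟩
  · intro _ _ _ _ _ _ _ _ q; exact q.elim
  · intro M _ _
    constructor
    · intro s t hst
      simp only [Prod.mk.injEq] at hst
      exact sol_zero_ext hst.1
    · rintro ⟨a, v⟩
      refine ⟨⟨⟨fun _ _ => 1, fun c => if c = [] then a else 1⟩, ?_, ?_, ?_⟩, ?_⟩
      · intro c i h; exact absurd rfl h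
      · intro c h1
        have : c = [] := by
          by_contra h2
          exact h1 (if_neg h2)
        subst this
        exact ⟨trivial, h⟩
      · intro c y _ _ hP _
        have : lsz (Sum.inr y : Ltr X) < 0 := hP
        omega
      · simp only [Prod.mk.injEq]
        refine ⟨by simp, ?_⟩
        funext q
        exact q.elim

theorem mn_zero {S : Set (Md X)} : Mn 0 S := by
  constructor
  · intro c p hF
    have hc := vd_zero hF.1
    have hp : p = ep := by
      apply Subtype.ext
      change p.1 = []
      cases hpp : p.1 with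
      | nil => rfl
      | cons i q =>
        have : lsz i < 0 := hF.2.2 i (by rw [hpp]; simp)
        omega
    subst hc
    subst hp
    exact freeAt_zero hF.2.1
  · by_cases h : ep ∈ S
    · obtain ⟨Q, k, _, hk, hb, _⟩ := freeSys_of_freeAt (freeAt_zero h)
      exact ⟨Q, k, hk, hb⟩
    · refine ⟨PEmpty, fun _ _ _ _ q => q.elim, ?_, ?_⟩
      · intro _ _ _ _ _ _ _ _ q; exact q.elim
      · intro M _ _
        constructor
        · intro s t _
          apply sol_zero_ext
          have e1 : ∀ s : Sol (Pn 0) S M, s.1.om [] = 1 := by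
            intro s
            by_contra h1
            exact h (s.2.supom _ h1).2
          rw [e1, e1]
        · intro v
          refine ⟨⟨_, isSol_triv _ _⟩, ?_⟩
          funext q
          exact q.elim

theorem mn_succ {n : ℕ} (IH : ∀ S' : Set (Md X), Nice S' → S'.Nonempty → Mn n S')
    {S : Set (Md X)} (hS : Nice S) (hne : S.Nonempty) : Mn (n + 1) S := by
  classical
  obtain ⟨Q, k, hk, hb, hE⟩ := step hS hne IH
  obtain ⟨IH1, Q1, k1, hk1, hb1⟩ := IH S hS hne
  have htotN : NatK (Pn (n + 1)) S (Q1 ⊕ Q) (fun M _ _ s x => Sum.elim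
      (k1 M (s.restr (dc_Pn n) (Pn_mono n) (rc_nil _ _ S))) (k M s) x) := by
    intro M N _ _ _ _ g s x
    rcases x with q | q
    · simp only [Sum.elim_inl]
      rw [Sol.map_restr]
      exact hk1 _ _ _ _ _
    · simp only [Sum.elim_inr]
      exact hk _ _ _ _ _
  have htotB : ∀ (M : Type u) [MulOneClass M] [IsBolTwo M],
      Function.Bijective (fun s : Sol (Pn (n + 1)) S M => fun x : Q1 ⊕ Q => Sum.elim
      (k1 M (s.restr (dc_Pn n) (Pn_mono n) (rc_nil _ _ S))) (k M s) x) := by
    intro M _ _
    constructor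
    · intro s t hst
      apply (hb M).1
      simp only [Prod.mk.injEq]
      constructor
      · apply (hb1 M).1
        funext q
        exact congrFun hst (Sum.inl q)
      · funext q
        exact congrFun hst (Sum.inr q)
    · intro v
      obtain ⟨s0, hs0⟩ := (hb1 M).2 (fun q => v (Sum.inl q))
      obtain ⟨s, hs⟩ := (hb M).2 (s0, fun q => v (Sum.inr q))
      simp only [Prod.mk.injEq] at hs
      refine ⟨s, ?_⟩
      funext x
      rcases x with q | q
      · simp only [Sum.elim_inl]
        rw [hs.1]
        exact congrFun hs0 q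
      · simp only [Sum.elim_inr]
        exact congrFun hs.2 q
  refine ⟨?_, Q1 ⊕ Q, _, htotN, htotB⟩
  intro c p hF
  have hex : ∃ m : ℕ, ∃ c0, Vd (Pn (n + 1)) S c0 ∧ ep ∈ mvw c0 S ∧
      c0.countP (fun i => decide (lsz i = n)) = m := by
    obtain ⟨c0, h1, h2, _⟩ := exists_om hS (fun _ => false) (fun _ _ => rfl) p.1 p.2 c hF
    exact ⟨_, c0, h1, h2, rfl⟩
  obtain ⟨c0, h1, h2, h3⟩ := Nat.find_spec hex
  have hmin : ∀ c', Vd (Pn (n + 1)) S c' → ep ∈ mvw c' S →
      ¬ c'.countP (fun i => decide (lsz i = n)) < c0.countP (fun i => decide (lsz i = n)) := by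
    intro c' h4 h5 h6
    rw [h3] at h6
    exact Nat.find_min hex h6 ⟨c', h4, h5, rfl⟩
  have hcount : ∀ c' : Wd X, (∀ j ∈ c', lsz j < n) →
      c'.countP (fun i => decide (lsz i = n)) = 0 := by
    intro c' hc'
    rw [List.countP_eq_zero]
    intro j hj
    have := hc' j hj
    simp only [decide_eq_true_eq]
    omega
  obtain ⟨h4, h5⟩ := decomp c0 h1
  have hmem : ep ∈ mvw (spc n c0) (mvw (spd n c0) S) := by
    rw [← mvw_append, spc_append_spd]; exact h2
  rcases h4 with h4 | h4
  · rw [h4] at h5 hmem
    obtain ⟨Q2, k2, hk2, hb2⟩ := IH1 (spc n c0) ep ⟨h5, hmem, letters_ep⟩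
    have h6 : FreeAt (Pn (n + 1)) S (spc n c0) (ep : Md X).1 := by
      refine ⟨Q2 ⊕ Q, fun M _ _ s x => Sum.elim
        (k2 M (s.restr (dc_Pn n) (Pn_mono n) (rc_nil _ _ S))) (k M s) x, ?_, ?_⟩
      · intro M N _ _ _ _ g s x
        rcases x with q | q
        · simp only [Sum.elim_inl]
          rw [Sol.map_restr]
          exact hk2 _ _ _ _ _
        · simp only [Sum.elim_inr]
          exact hk _ _ _ _ _
      · intro M _ _
        have hom : ∀ s : Sol (Pn (n + 1)) S M,
            fv S s.1 (spc n c0) (ep : Md X).1 = fv S (Sol.restr (dc_Pn n) (Pn_mono n)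
              (rc_nil (Pn n) (Pn (n + 1)) S) s).1 (spc n c0) (ep : Md X).1 := by
          intro s
          have := (Sol.agr_restr (dc_Pn n) (Pn_mono n) (rc_nil (Pn n) (Pn (n + 1)) S) s).1 _ h5
          rw [List.append_nil] at this
          exact this
        constructor
        · intro s t hst
          simp only [Prod.mk.injEq] at hst
          apply (hb M).1
          simp only [Prod.mk.injEq]
          constructor
          · apply (hb2 M).1
            simp only [Prod.mk.injEq]
            constructor
            · have := hst.1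
              rw [hom, hom] at this
              exact this
            · funext q
              exact congrFun hst.2 (Sum.inl q)
          · funext q
            exact congrFun hst.2 (Sum.inr q)
        · rintro ⟨a, v⟩
          obtain ⟨s0, hs0⟩ := (hb2 M).2 (a, fun q => v (Sum.inl q))
          obtain ⟨s, hs⟩ := (hb M).2 (s0, fun q => v (Sum.inr q))
          simp only [Prod.mk.injEq] at hs hs0
          refine ⟨s, ?_⟩
          simp only [Prod.mk.injEq]
          constructor
          · rw [hom, hs.1]
            exact hs0.1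
          · funext x
            rcases x with q | q
            · simp only [Sum.elim_inl]
              rw [hs.1]
              exact congrFun hs0.2 q
            · simp only [Sum.elim_inr]
              exact congrFun hs.2 q
    refine FreeAt.swap (dc_Pn _) hS ⟨?_, hmem, letters_ep⟩ hF h6
    have := vd_append (Pn_mono n) (rc_nil (Pn n) (Pn (n + 1)) S) h5
    rw [List.append_nil] at this
    exact this
  · have h4' := h4
    obtain ⟨hv0, v, c1, hdc, hv⟩ := h4
    have hc0 : c0 = spc n c0 ++ v :: c1 := by
      conv_lhs => rw [← spc_append_spd n c0]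
      rw [hdc]
    have hcnt0 : c0.countP (fun i => decide (lsz i = n))
        = c1.countP (fun i => decide (lsz i = n)) + 1 := by
      rw [hc0, List.countP_append, hcount _ h5.mem, List.countP_cons_of_pos (by simpa using hv)]
      omega
    rw [hdc] at hv0 h4' h5 hmem
    have hgv : Good v := hv0.2.1
    have hnA : ¬ Att S v c1 := by
      intro hA
      have hF2 := fn_parent hA hgv hv hv0.1
      obtain ⟨c3, h6, h7, _⟩ := exists_om (nice_mvw hS _) (fun _ => false) (fun _ _ => rfl)
        _ (tt v (qd S v c1)).2 _ hF2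
      apply hmin (c3 ++ spd n c1) (vd_append (Pn_mono n) (rc_spd hv0.1) h6)
        (by rw [mvw_append]; exact h7)
      rw [List.countP_append, hcount _ h6.mem, hcnt0]
      have h8 : c1.countP (fun i => decide (lsz i = n))
          = (spd n c1).countP (fun i => decide (lsz i = n)) := by
        conv_lhs => rw [← spc_append_spd n c1]
        rw [List.countP_append, hcount _ (decomp c1 hv0.1).2.mem]
        omega
      omega
    obtain ⟨q0, c2, h6, h7, h8⟩ := hE v c1 h4' hnA ⟨_, h5, hmem⟩
    have h9 : FreeAt (Pn (n + 1)) S (c2 ++ v :: c1) (ep : Md X).1 := by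
      apply freeAt_of_coord _ htotN htotB (Sum.inr q0)
      intro M _ _ s
      simp only [Sum.elim_inr]
      exact h8 M s
    refine FreeAt.swap (dc_Pn _) hS ⟨vd_append (Pn_mono n) h4'.rc h6, ?_, letters_ep⟩ hF h9
    rw [mvw_append]
    exact h7

theorem mn_all (n : ℕ) : ∀ S : Set (Md X), Nice S → S.Nonempty → Mn n S := by
  induction n with
  | zero => intro S _ _; exact mn_zero
  | succ n ih => intro S hS hne; exact mn_succ ih hS hne

/-! ### The limit -/

/-- All letters. -/
def PT : Ltr X → Prop := fun _ => True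

theorem Pn_PT (n : ℕ) : ∀ i : Ltr X, Pn n i → PT i := fun _ _ => trivial

theorem vd_large {S : Set (Md X)} {c : Wd X} (hc : Vd PT S c) {n : ℕ} (hn : wsz c < n) :
    Vd (Pn n) S c := hc.mono (fun i hi => lt_of_le_of_lt (lsz_le_of_mem hi) hn)

/-- Restriction of a global solution to level `n`. -/
noncomputable def rs {M : Type v} [MulOneClass M] {S : Set (Md X)} (n : ℕ) (s : Sol PT S M) :
    Sol (Pn n) S M := s.restr (dc_Pn n) (Pn_PT n) (rc_nil _ _ S)

theorem rs_om {M : Type v} [MulOneClass M] {S : Set (Md X)} (n : ℕ) (s : Sol PT S M)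
    {c : Wd X} (hc : Vd (Pn n) S c) : (rs n s).1.om c = s.1.om c := by
  have := (Sol.agr_restr (dc_Pn n) (Pn_PT n) (rc_nil _ _ S) s).1 c hc
  rw [List.append_nil] at this
  exact this.symm

theorem rs_th {M : Type v} [MulOneClass M] {S : Set (Md X)} (n : ℕ) (s : Sol PT S M)
    {c : Wd X} (hc : Vd (Pn n) S c) {i : Ltr X} (hi : Pn n i) (hg : Good i) :
    (rs n s).1.th c i = s.1.th c i := by
  have := (Sol.agr_restr (dc_Pn n) (Pn_PT n) (rc_nil _ _ S) s).2 c i hc hi hg
  rw [List.append_nil] at this
  exact this.symm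

/-- Restriction from level `n + 1` to level `n`. -/
noncomputable def rs1 {M : Type v} [MulOneClass M] {S : Set (Md X)} (n : ℕ)
    (s : Sol (Pn (n + 1)) S M) : Sol (Pn n) S M :=
  s.restr (dc_Pn n) (Pn_mono n) (rc_nil _ _ S)

theorem rs1_om {M : Type v} [MulOneClass M] {S : Set (Md X)} (n : ℕ) (s : Sol (Pn (n + 1)) S M)
    {c : Wd X} (hc : Vd (Pn n) S c) : (rs1 n s).1.om c = s.1.om c := by
  have := (Sol.agr_restr (dc_Pn n) (Pn_mono n) (rc_nil _ _ S) s).1 c hc
  rw [List.append_nil] at this
  exact this.symm

theorem rs1_th {M : Type v} [MulOneClass M] {S : Set (Md X)} (n : ℕ) (s : Sol (Pn (n + 1)) S M)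
    {c : Wd X} (hc : Vd (Pn n) S c) {i : Ltr X} (hi : Pn n i) (hg : Good i) :
    (rs1 n s).1.th c i = s.1.th c i := by
  have := (Sol.agr_restr (dc_Pn n) (Pn_mono n) (rc_nil _ _ S) s).2 c i hc hi hg
  rw [List.append_nil] at this
  exact this.symm

theorem rs1_rs {M : Type v} [MulOneClass M] {S : Set (Md X)} (n : ℕ) (s : Sol PT S M) :
    rs1 n (rs (n + 1) s) = rs n s := by
  apply Sol.ext'
  · intro c hc _
    have hc' : Vd (Pn (n + 1)) S c := hc.mono (fun i hi => Pn_mono n i (hc.mem i hi))
    rw [rs1_om n _ hc, rs_om _ _ hc', rs_om _ _ hc]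
  · intro c i hc hi hPi _
    have hc' : Vd (Pn (n + 1)) S c := hc.mono (fun i hi => Pn_mono n i (hc.mem i hi))
    rw [rs1_th n _ hc hPi hi, rs_th _ _ hc' (Pn_mono n i hPi) hi, rs_th _ _ hc hPi hi]

theorem freeAt_top {S : Set (Md X)} (hS : Nice S) (hep : ep ∈ S) : FreeAt PT S [] [] := by
  classical
  have hst := fun n : ℕ => step (n := n) hS ⟨ep, hep⟩ (mn_all n)
  choose Q k hN hB _ using hst
  refine ⟨Σ n, Q n, fun M _ _ s x => k x.1 M (rs (x.1 + 1) s) x.2, ?_, ?_⟩
  · intro M N _ _ _ _ g s x
    simp only
    rw [← hN]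
    congr 1
    exact Sol.map_restr _ _ _ _ _
  · intro M _ _
    constructor
    · intro s t hst
      simp only [Prod.mk.injEq] at hst
      obtain ⟨h1, h2⟩ := hst
      have hrs : ∀ n, rs n s = rs n t := by
        intro n
        induction n with
        | zero =>
          apply sol_zero_ext
          rw [rs_om 0 s (show Vd (Pn 0) S [] from trivial),
            rs_om 0 t (show Vd (Pn 0) S [] from trivial)]
          exact h1
        | succ n ih =>
          apply (hB n M).1
          simp only [Prod.mk.injEq]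
          constructor
          · change rs1 n (rs (n + 1) s) = rs1 n (rs (n + 1) t)
            rw [rs1_rs, rs1_rs, ih]
          · funext q
            exact congrFun h2 ⟨n, q⟩
      apply Sol.ext'
      · intro c hc _
        have hc' := vd_large hc (Nat.lt_succ_self (wsz c))
        rw [← rs_om _ _ hc', ← rs_om _ _ hc', hrs]
      · intro c i hc hi _ _
        have hc' : Vd (Pn (wsz c + lsz i + 1)) S c := vd_large hc (by omega)
        have hi' : Pn (wsz c + lsz i + 1) i := by unfold Pn; omega
        rw [← rs_th _ _ hc' hi' hi, ← rs_th _ _ hc' hi' hi, hrs]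
    · rintro ⟨a, κ⟩
      obtain ⟨Q0, k0, hk0, hb0⟩ := freeAt_zero hep
      obtain ⟨t0, ht0⟩ := (hb0 M).2 (a, fun _ => 1)
      simp only [Prod.mk.injEq] at ht0
      have hchoice : ∀ n, ∀ s : Sol (Pn n) S M, ∃ s' : Sol (Pn (n + 1)) S M,
          rs1 n s' = s ∧ k n M s' = fun q => κ ⟨n, q⟩ := by
        intro n s
        obtain ⟨s', hs'⟩ := (hB n M).2 (s, fun q => κ ⟨n, q⟩)
        simp only [Prod.mk.injEq] at hs'
        exact ⟨s', hs'.1, hs'.2⟩
      choose nx hnx1 hnx2 using hchoice
      let t : ∀ n, Sol (Pn n) S M := fun n => Nat.rec t0 (fun n s => nx n s) n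
      have ht1 : ∀ n, rs1 n (t (n + 1)) = t n := fun n => hnx1 n (t n)
      have ht2 : ∀ n, k n M (t (n + 1)) = fun q => κ ⟨n, q⟩ := fun n => hnx2 n (t n)
      have hup : ∀ (n m : ℕ), n ≤ m → ∀ c : Wd X, Vd (Pn n) S c → Vd (Pn m) S c := by
        intro n m hnm c hc
        exact hc.mono (fun i hi => lt_of_lt_of_le (hc.mem i hi) hnm)
      have hom : ∀ (n m : ℕ), n ≤ m → ∀ c : Wd X, Vd (Pn n) S c →
          (t m).1.om c = (t n).1.om c := by
        intro n m hnm
        induction m, hnm using Nat.le_induction with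
        | base => intro c _; rfl
        | succ m hm ih =>
          intro c hc
          rw [← ih c hc, ← ht1 m, rs1_om _ _ (hup n m hm c hc)]
      have hth : ∀ (n m : ℕ), n ≤ m → ∀ (c : Wd X) (i : Ltr X), Vd (Pn n) S c → Pn n i →
          Good i → (t m).1.th c i = (t n).1.th c i := by
        intro n m hnm
        induction m, hnm using Nat.le_induction with
        | base => intro c i _ _ _; rfl
        | succ m hm ih =>
          intro c i hc hi hg
          rw [← ih c i hc hi hg, ← ht1 m, rs1_th _ _ (hup n m hm c hc) (lt_of_lt_of_le hi hm) hg]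
      let s : Pre X M := ⟨fun c i => (t (wsz c + lsz i + 1)).1.th c i,
        fun c => (t (wsz c + 1)).1.om c⟩
      have hagr : ∀ n, Agr (Pn n) S [] s (t n).1 := by
        intro n
        constructor
        · intro c hc
          have hc : Vd (Pn n) S c := hc
          rw [List.append_nil]
          change (t (wsz c + 1)).1.om c = (t n).1.om c
          have hc2 : Vd (Pn (wsz c + 1)) S c :=
            vd_large (hc.mono (fun _ _ => trivial)) (Nat.lt_succ_self _)
          rw [← hom n (max n (wsz c + 1)) (le_max_left _ _) c hc,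
            ← hom (wsz c + 1) (max n (wsz c + 1)) (le_max_right _ _) c hc2]
        · intro c i hc hi hg
          have hc : Vd (Pn n) S c := hc
          rw [List.append_nil]
          change (t (wsz c + lsz i + 1)).1.th c i = (t n).1.th c i
          have hc2 : Vd (Pn (wsz c + lsz i + 1)) S c :=
            vd_large (hc.mono (fun _ _ => trivial)) (by omega)
          have hi2 : Pn (wsz c + lsz i + 1) i := by unfold Pn; omega
          rw [← hth n (max n (wsz c + lsz i + 1)) (le_max_left _ _) c i hc hi hg,
            ← hth (wsz c + lsz i + 1) (max n (wsz c + lsz i + 1)) (le_max_right _ _) c i hc2 hi2 hg]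
      have hsol : IsSol PT S s := by
        refine ⟨?_, ?_, ?_⟩
        · intro c i h
          obtain ⟨h1, h2, h3, h4⟩ := (t (wsz c + lsz i + 1)).2.supth c i h
          exact ⟨h1.mono (fun _ _ => trivial), h2, trivial, h4⟩
        · intro c h
          obtain ⟨h1, h2⟩ := (t (wsz c + 1)).2.supom c h
          exact ⟨h1.mono (fun _ _ => trivial), h2⟩
        · intro c y hc hy _ he
          set N := wsz c + lsz (Sum.inr y : Ltr X) + 1 with hNdef
          have hcN : Vd (Pn N) S c := vd_large hc (by omega)
          have hyN : Pn N (Sum.inr y : Ltr X) := by unfold Pn; omega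
          have e1 := (t N).2.eqn c y hcN hy hyN he
          have e2 := fv_agr (rc_nil (Pn N) (PT) S) (hagr N) y.dec (dc_Pn N y hyN)
            (fun j hj => good_mem hy hj) (actC S (Sum.inr y) c) (vd_actC hy hyN hcN)
          have e3 := (hagr N).1 c hcN
          have e4 := (hagr N).2 c (Sum.inr y) hcN hyN hy
          rw [List.append_nil] at e2 e3 e4
          rw [e2, e3, e4]
          exact e1
      refine ⟨⟨s, hsol⟩, ?_⟩
      have hrs : ∀ n, rs n (⟨s, hsol⟩ : Sol PT S M) = t n := fun n =>
        Sol.restr_eq _ _ _ _ _ (hagr n)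
      simp only [Prod.mk.injEq]
      constructor
      · have := (hagr 0).1 [] trivial
        exact this.trans ht0.1
      · funext x
        obtain ⟨n, q⟩ := x
        simp only
        rw [hrs, ht2]

end Pool.Agent.Lib.MP_a1bc66_al
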