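import Pool.Agent.Lib.MP_a1bc66_al.Sharp

set_option autoImplicit false
set_option linter.unusedSectionVars false

namespace Pool.Agent.Lib.MP_a1bc66_al

universe u v

variable {X : Type u}

/-- Reflections. -/
def IsT (τ : Equiv.Perm (Md X)) : Prop :=
  ∃ (g : Wd X) (i : Ltr X), (∀ j ∈ g, Good j) ∧ Good i ∧ τ = rf g i

/-- Reflections and the identity. -/
def IsT1 (τ : Equiv.Perm (Md X)) : Prop := τ = 1 ∨ IsT τ

theorem isT_tt {i : Ltr X} (hi : Good i) : IsT (tt i) :=
  ⟨[], i, by simp, hi, by simp [rf]⟩

theorem IsT.conj {τ : Equiv.Perm (Md X)} (h : IsT τ) {c : Wd X} (hc : ∀ j ∈ c, Good j) :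
    IsT (tw c * τ * (tw c)⁻¹) := by
  obtain ⟨g, i, hg, hi, rfl⟩ := h
  refine ⟨c ++ g, i, ?_, hi, ?_⟩
  · intro j hj
    rw [List.mem_append] at hj
    rcases hj with hj | hj
    · exact hc j hj
    · exact hg j hj
  · rw [rf, rf, tw_append]
    group

theorem IsT1.conj {τ : Equiv.Perm (Md X)} (h : IsT1 τ) {c : Wd X} (hc : ∀ j ∈ c, Good j) :
    IsT1 (tw c * τ * (tw c)⁻¹) := by
  rcases h with h | h
  · left; rw [h]; group
  · right; exact h.conj hc

theorem IsT.sq {τ : Equiv.Perm (Md X)} (h : IsT τ) : τ * τ = 1 := by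
  obtain ⟨g, i, hg, hi, rfl⟩ := h
  have : rf g i * rf g i = tw g * (tt i * tt i) * (tw g)⁻¹ := by rw [rf]; group
  rw [this, tt_mul_self]; group

theorem IsT1.sq {τ : Equiv.Perm (Md X)} (h : IsT1 τ) : τ * τ = 1 := by
  rcases h with h | h
  · rw [h, one_mul]
  · exact h.sq

theorem IsT1.inv {τ : Equiv.Perm (Md X)} (h : IsT1 τ) : τ⁻¹ = τ :=
  inv_eq_of_mul_eq_one_left h.sq

theorem IsT1.conj' {σ τ : Equiv.Perm (Md X)} (hσ : IsT1 σ) (hτ : IsT1 τ) : IsT1 (σ * τ * σ) := by
  rcases hσ with rfl | hσ
  · simpa using hτ
  · have hinv := IsT1.inv (Or.inr hσ)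
    obtain ⟨g, i, hg, hi, rfl⟩ := hσ
    have h2 := hτ.conj (c := g ++ i :: g.reverse) (by
      intro j hj
      simp only [List.mem_append, List.mem_cons, List.mem_reverse] at hj
      rcases hj with h | h | h
      · exact hg j h
      · subst h; exact hi
      · exact hg j h)
    rw [← rf_eq_tw, hinv] at h2
    exact h2

theorem irr_rev_of {w : Wd X} (hw : Irr w)
    (h2 : ¬ ∃ y : W X, ∃ w' : Wd X, w = Sum.inr y :: w')
    (h1 : ¬ ∃ y : W X, ∃ w' : Wd X, w = y.dec.reverse ++ Sum.inr y :: w') : Irr w.reverse := by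
  by_contra hcon
  rcases not_irr (fun j hj => hw.good j (List.mem_reverse.1 hj)) hcon with
    ⟨a, j, b, hab⟩ | ⟨a, y, b, hab, hb⟩
  · have h3 := congrArg List.reverse hab
    simp only [List.reverse_reverse, List.reverse_append, List.reverse_cons, List.append_assoc,
      List.cons_append, List.nil_append] at h3
    exact hw.chain b.reverse j a.reverse h3
  · have h3 := congrArg List.reverse hab
    simp only [List.reverse_reverse, List.reverse_append, List.reverse_cons, List.append_assoc,
      List.cons_append, List.nil_append] at h3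
    rcases hb with hb | hb
    · rw [hb] at h3; exact h1 ⟨y, _, h3⟩
    · rw [hb] at h3; exact h2 ⟨y, _, h3⟩

theorem hh_eq_tw (y : W X) : hh y = tw (Sum.inr y :: y.dec) := by
  rw [tw_cons]; rfl

theorem hh_inv_eq_tw (y : W X) : (hh y)⁻¹ = tw (y.dec.reverse ++ [Sum.inr y]) := by
  rw [hh_inv, tw_append]; simp

theorem back_spec (n : ℕ) : ∀ w : Md X, w ≠ ep → wsz w.1 ≤ n → IsT (back w) ∧ back w ep = w := by
  induction n with
  | zero =>
    intro w hw hn
    exfalso
    apply hw
    apply Subtype.ext
    cases h : w.1 with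
    | nil => rfl
    | cons i p =>
      rw [h, wsz_cons] at hn
      have := lsz_pos i
      omega
  | succ n IH =>
    intro w hw hn
    by_cases h2 : ∃ y : W X, ∃ w' : Wd X, w.1 = Sum.inr y :: w'
    · obtain ⟨y, w', h⟩ := h2
      have hy : Good (Sum.inr y) := w.2.good _ (by rw [h]; simp)
      have hlt := hh_inv_size h
      have hne : (hh y)⁻¹ w ≠ ep := by
        intro h3
        apply hw
        rw [Equiv.Perm.inv_eq_iff_eq, hh_ep hy] at h3
        exact h3
      obtain ⟨h4, h5⟩ := IH _ hne (by omega)
      rw [back_R2 h]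
      refine ⟨?_, ?_⟩
      · rw [hh_eq_tw]
        apply h4.conj
        intro j hj
        rw [List.mem_cons] at hj
        rcases hj with hj | hj
        · rw [hj]; exact hy
        · exact good_mem hy hj
      · rw [Equiv.Perm.mul_apply, Equiv.Perm.mul_apply, hh_inv_ep hy, h5, perm_apply_inv]
    · by_cases h1 : ∃ y : W X, ∃ w' : Wd X, w.1 = y.dec.reverse ++ Sum.inr y :: w'
      · obtain ⟨y, w', h⟩ := h1
        have hy : Good (Sum.inr y) := w.2.good _ (by rw [h]; simp)
        have hlt := hh_size h
        have hne : hh y w ≠ ep := by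
          intro h3
          apply hw
          have : hh y w = hh y ep := by rw [h3, hh_ep hy]
          exact (hh y).injective this
        obtain ⟨h4, h5⟩ := IH _ hne (by omega)
        rw [back_R1 h]
        refine ⟨?_, ?_⟩
        · have e : (hh y)⁻¹ * back (hh y w) * hh y
              = tw (y.dec.reverse ++ [Sum.inr y]) * back (hh y w)
                * (tw (y.dec.reverse ++ [Sum.inr y]))⁻¹ := by
            rw [← hh_inv_eq_tw, inv_inv]
          rw [e]
          apply h4.conj
          intro j hj
          simp only [List.mem_append, List.mem_reverse, List.mem_singleton] at hj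
          rcases hj with hj | hj
          · exact good_mem hy hj
          · rw [hj]; exact hy
        · rw [Equiv.Perm.mul_apply, Equiv.Perm.mul_apply, hh_ep hy, h5, perm_inv_apply]
      · have hr := irr_rev_of w.2 h2 h1
        by_cases hpal : w.1 = w.1.reverse
        · rw [back_pal hpal]
          refine ⟨?_, tw_ep' w⟩
          rcases palindrome_form w.1 hpal.symm with h | ⟨g, i, h⟩ | ⟨a, j, b, h⟩
          · exact absurd (Subtype.ext h) hw
          · refine ⟨g, i, ?_, ?_, ?_⟩
            · intro j hj
              exact w.2.good j (by rw [h]; simp [hj])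
            · exact w.2.good i (by rw [h]; simp)
            · rw [rf_eq_tw, h]
          · exact absurd h (w.2.chain a j b)
        · rcases wlt_tri w.1 w.1.reverse with h3 | h3 | h3
          · have hy : Good (Sum.inr (enc w.1)) := by
              refine ⟨?_, ?_, ?_⟩
              · rw [dec_enc]; exact w.2
              · rw [dec_enc]; exact hr
              · rw [dec_enc]; exact h3
            have e : w = ⟨(enc w.1).dec, hy.1⟩ := Subtype.ext (by simp)
            have e2 : back w = tt (Sum.inr (enc w.1)) := by
              conv_lhs => rw [e]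
              exact back_lt hy
            rw [e2]
            refine ⟨isT_tt hy, ?_⟩
            apply Subtype.ext
            rw [tt_val hy]
            exact (act_nil _).trans (dec_enc _)
          · exact absurd h3 hpal
          · have hy : Good (Sum.inr (enc w.1.reverse)) := by
              refine ⟨?_, ?_, ?_⟩
              · rw [dec_enc]; exact hr
              · rw [dec_enc, List.reverse_reverse]; exact w.2
              · rw [dec_enc, List.reverse_reverse]; exact h3
            have e : w = ⟨(enc w.1.reverse).dec.reverse, hy.2.1⟩ := Subtype.ext (by simp)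
            have e2 : back w = tw (enc w.1.reverse).dec.reverse * tt (Sum.inr (enc w.1.reverse))
                * tw (enc w.1.reverse).dec := by
              conv_lhs => rw [e]
              exact back_gt hy
            refine ⟨⟨w.1, Sum.inr (enc w.1.reverse), w.2.good, hy, ?_⟩, ?_⟩
            · rw [e2, rf, ← tw_reverse]
              simp
            · rw [e2, Equiv.Perm.mul_apply, Equiv.Perm.mul_apply, tw_ep hy.1]
              have : tt (Sum.inr (enc w.1.reverse)) (⟨_, hy.1⟩ : Md X) = ep := by
                apply Subtype.ext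
                rw [tt_val hy]
                exact act_bd _ hy
              rw [this, tw_ep hy.2.1]
              exact e.symm

open Classical in
/-- Right multiplications of the model. -/
noncomputable def RR (q : Md X) : Equiv.Perm (Md X) := if q = ep then 1 else back q

theorem isT1_RR (q : Md X) : IsT1 (RR q) := by
  unfold RR
  by_cases h : q = ep
  · rw [if_pos h]; left; rfl
  · rw [if_neg h]; right; exact (back_spec _ q h le_rfl).1

theorem RR_ep (q : Md X) : RR q ep = q := by
  unfold RR
  by_cases h : q = ep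
  · rw [if_pos h, h]; rfl
  · rw [if_neg h]; exact (back_spec _ q h le_rfl).2

theorem IsT.ne {τ : Equiv.Perm (Md X)} (h : IsT τ) (p : Md X) : τ p ≠ p := by
  obtain ⟨g, i, hg, hi, rfl⟩ := h
  exact rf_ne hi g p

theorem IsT1.eq_RR {τ : Equiv.Perm (Md X)} (h : IsT1 τ) : RR (τ ep) = τ := by
  rcases h with rfl | h
  · simp [RR]
  · have hne := h.ne ep
    obtain ⟨g, i, hg, hi, rfl⟩ := h
    unfold RR
    rw [if_neg hne]
    exact back_rf _ g i hg hi le_rfl

/-- Sharpness. -/
theorem IsT1.eq_of {σ τ : Equiv.Perm (Md X)} (hσ : IsT1 σ) (hτ : IsT1 τ) {p : Md X}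
    (h : σ p = τ p) : σ = τ := by
  have hg : ∀ j ∈ p.1.reverse, Good j := fun j hj => p.2.good j (List.mem_reverse.1 hj)
  have h1 := (hσ.conj hg).eq_RR
  have h2 := (hτ.conj hg).eq_RR
  have e : ∀ ρ : Equiv.Perm (Md X), (tw p.1.reverse * ρ * (tw p.1.reverse)⁻¹) ep
      = tw p.1.reverse (ρ p) := by
    intro ρ
    rw [Equiv.Perm.mul_apply, Equiv.Perm.mul_apply]
    congr 2
    rw [tw_reverse, inv_inv, tw_ep']
  rw [e] at h1 h2
  rw [h] at h1
  have h3 := h1.symm.trans h2
  exact mul_left_cancel (mul_right_cancel h3)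

noncomputable instance : MulOneClass (Md X) where
  mul x y := RR y x
  one := ep
  one_mul y := RR_ep y
  mul_one x := by
    change RR ep x = x
    simp [RR]

theorem md_mul (x y : Md X) : x * y = RR y x := rfl

theorem md_one : (1 : Md X) = ep := rfl

theorem md_div (a b : Md X) : ∃ x, RR x a = b := by
  have hg : ∀ j ∈ a.1, Good j := a.2.good
  have h1 := (isT1_RR ((tw a.1)⁻¹ b)).conj hg
  refine ⟨(tw a.1 * RR ((tw a.1)⁻¹ b) * (tw a.1)⁻¹) ep, ?_⟩
  rw [h1.eq_RR]
  rw [Equiv.Perm.mul_apply, Equiv.Perm.mul_apply]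
  have : (tw a.1)⁻¹ a = ep := by
    rw [Equiv.Perm.inv_eq_iff_eq, tw_ep']
  rw [this, RR_ep, perm_apply_inv]

instance : IsBolTwo (Md X) where
  left_div a b := by
    obtain ⟨x, hx⟩ := md_div a b
    refine ⟨x, hx, ?_⟩
    intro y hy
    have : RR y = RR x := (isT1_RR y).eq_of (isT1_RR x) (p := a) (by
      change RR y a = b at hy
      rw [hx, hy])
    rw [← RR_ep y, ← RR_ep x, this]
  right_div a b := by
    refine ⟨(RR a)⁻¹ b, ?_, ?_⟩
    · change RR a ((RR a)⁻¹ b) = b
      exact perm_apply_inv _ _
    · intro y hy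
      change RR a y = b at hy
      rw [← hy, perm_inv_apply]
  bol x y z := by
    change RR y (RR z (RR y x)) = RR (RR y (RR z y)) x
    have h1 := (IsT1.conj' (isT1_RR y) (isT1_RR z)).eq_RR
    have e : (RR y * RR z * RR y) ep = RR y (RR z y) := by
      rw [Equiv.Perm.mul_apply, Equiv.Perm.mul_apply, RR_ep]
    rw [e] at h1
    rw [h1]
    rfl
  sq x := by
    change RR x x = ep
    have h := (isT1_RR x).sq
    have h2 := congrArg (fun f : Equiv.Perm (Md X) => f ep) h
    simp only [Equiv.Perm.mul_apply, RR_ep, Equiv.Perm.one_apply] at h2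
    exact h2

/-- A letter acts as the multiplication by its boundary. -/
theorem tt_eq {i : Ltr X} (hi : Good i) : tt i = RR ⟨bd i, good_irr_bd hi⟩ := by
  have h := IsT1.eq_RR (Or.inr (isT_tt hi))
  have e : tt i ep = (⟨bd i, good_irr_bd hi⟩ : Md X) := by
    apply Subtype.ext
    rw [tt_val hi]
    exact act_nil i
  rw [e] at h
  exact h.symm

/-! ### The universal property -/

section Univ

variable {M : Type v} [MulOneClass M] [IsBolTwo M] (m : X → M)

/-- Evaluation of codes. -/
def evW : W X → M
  | W.nil => 1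
  | W.cons0 x p => evW p * m x
  | W.cons1 y p => evW p * evW y

/-- Evaluation of letters. -/
def evl : Ltr X → M
  | Sum.inl x => m x
  | Sum.inr y => evW m y

/-- Evaluation of words. -/
def evw : Wd X → M
  | [] => 1
  | i :: p => evw p * evl m i

theorem evw_dec (y : W X) : evw m y.dec = evW m y := by
  induction y with
  | nil => rfl
  | cons0 x p ih => simp [W.dec, evw, evW, evl, ih]
  | cons1 y p _ ih => simp [W.dec, evw, evW, evl, ih]

theorem evw_bd (i : Ltr X) : evw m (bd i) = evl m i := by
  cases i with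
  | inl x => simp [bd, evw]
  | inr y => exact evw_dec m y

theorem evw_act {i : Ltr X} (hi : Good i) {p : Wd X} (hp : Irr p) :
    evw m (act i p) = evw m p * evl m i := by
  rcases act_cases i hi p hp with ⟨q, h1, h2⟩ | ⟨h1, h2⟩ | ⟨h1, h2⟩ | ⟨h1, h2⟩
  · rw [h2, h1]
    simp only [evw]
    rw [mul_mul_self]
  · rw [h2, h1, evw_bd]
    simp [evw]
  · rw [h2, h1, evw_bd, IsBolTwo.sq]
    rfl
  · rw [h1]; rfl

/-- The permutation of `M` attached to a word. -/
def Th (c : Wd X) : Equiv.Perm M := (c.map (fun i => Rt (evl m i))).prod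

theorem evw_tw {c : Wd X} (hc : ∀ j ∈ c, Good j) (p : Md X) :
    evw m (tw c p).1 = Th m c (evw m p.1) := by
  induction c with
  | nil => rfl
  | cons i c ih =>
    have hi : Good i := hc i (by simp)
    rw [tw_cons, Equiv.Perm.mul_apply, tt_val hi, evw_act m hi (tw c p).2,
      ih (fun j hj => hc j (by simp [hj]))]
    simp [Th]

theorem exists_Rt_conj (L : List M) (t : M) :
    ∃ z : M, (L.map Rt).prod * Rt t * ((L.map Rt).prod)⁻¹ = Rt z := by
  induction L with
  | nil => exact ⟨t, by simp⟩
  | cons a L ih =>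
    obtain ⟨z, hz⟩ := ih
    refine ⟨(a * z) * a, ?_⟩
    rw [List.map_cons, List.prod_cons, mul_inv_rev, Rt_inv, ← Rt_conj, ← hz]
    group

theorem Th_conj (c : Wd X) (t : M) : ∃ z : M, Th m c * Rt t * (Th m c)⁻¹ = Rt z := by
  have := exists_Rt_conj (c.map (evl m)) t
  rw [List.map_map] at this
  exact this

theorem evw_RR (q : Md X) : ∃ z : M, ∀ p : Md X, evw m (RR q p).1 = evw m p.1 * z := by
  rcases isT1_RR q with h | ⟨g, i, hg, hi, h⟩
  · exact ⟨1, fun p => by rw [h, mul_one]; rfl⟩
  · obtain ⟨z, hz⟩ := Th_conj m g (evl m i)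
    refine ⟨z, fun p => ?_⟩
    rw [h, rf_eq_tw, evw_tw]
    · have : Th m (g ++ i :: g.reverse) = Rt z := by
        rw [← hz]
        have h3 : Th m g.reverse = (Th m g)⁻¹ := by
          clear hg h hz
          induction g with
          | nil => simp [Th]
          | cons a g ih =>
            have e1 : Th m (a :: g) = Rt (evl m a) * Th m g := by simp [Th]
            have e2 : Th m (a :: g).reverse = Th m g.reverse * Rt (evl m a) := by simp [Th]
            rw [e1, e2, ih, mul_inv_rev, Rt_inv]
        have e3 : Th m (g ++ i :: g.reverse) = Th m g * (Rt (evl m i) * Th m g.reverse) := by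
          simp [Th]
        rw [e3, h3, mul_assoc]
      rw [this, Rt_apply]
    · intro j hj
      simp only [List.mem_append, List.mem_cons, List.mem_reverse] at hj
      rcases hj with h | h | h
      · exact hg j h
      · subst h; exact hi
      · exact hg j h

/-- The homomorphism from the model extending a map on the generators. -/
def evHom : Md X →* M where
  toFun p := evw m p.1
  map_one' := rfl
  map_mul' x y := by
    obtain ⟨z, hz⟩ := evw_RR m y
    have h1 := hz ep
    rw [RR_ep] at h1
    have h2 : evw m (ep : Md X).1 = 1 := rfl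
    rw [h2, one_mul] at h1
    rw [md_mul, hz x, ← h1]

/-- The generators of the model. -/
def gn (x : X) : Md X := ⟨[Sum.inl x], good_irr_bd (i := Sum.inl x) trivial⟩

theorem hom_eq_ev (k : Md X →* M) (n : ℕ) : ∀ p : Md X, wsz p.1 ≤ n →
    k p = evw (fun x => k (gn x)) p.1 := by
  induction n with
  | zero =>
    intro p hn
    have : p = 1 := by
      apply Subtype.ext
      cases h : p.1 with
      | nil => rfl
      | cons i q =>
        rw [h, wsz_cons] at hn
        have := lsz_pos i
        omega
    rw [this, map_one]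
    rfl
  | succ n IH =>
    rintro ⟨p, hp⟩ hn
    cases p with
    | nil => exact map_one k
    | cons i p =>
      obtain ⟨h1, h2, h3, h4⟩ := irr_cons.1 hp
      have e : (⟨i :: p, hp⟩ : Md X)
          = @HMul.hMul (Md X) (Md X) (Md X) _ ⟨p, h1⟩ ⟨bd i, good_irr_bd h2⟩ := by
        rw [md_mul, ← tt_eq h2]
        apply Subtype.ext
        rw [tt_val h2]
        exact (act_cons i p hp).symm
      simp only [wsz_cons] at hn
      have hpos := lsz_pos i
      rw [e, map_mul, IH ⟨p, h1⟩ (by simp only; omega)]
      have e2 : k ⟨bd i, good_irr_bd h2⟩ = evl (fun x => k (gn x)) i := by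
        cases i with
        | inl x => rfl
        | inr y =>
          rw [lsz_inr] at hn
          have := IH ⟨y.dec, h2.1⟩ (by simp only; omega)
          exact this.trans (evw_dec _ y)
      rw [e2, ← e, evw]

theorem md_hom_ext {k k' : Md X →* M} (h : ∀ x, k (gn x) = k' (gn x)) : k = k' := by
  ext p
  rw [hom_eq_ev k _ p le_rfl, hom_eq_ev k' _ p le_rfl]
  congr 1
  funext x
  exact h x

theorem evHom_gn (x : X) : evHom m (gn x) = m x := by
  change evw m [Sum.inl x] = m x
  simp [evw, evl]

end Univ

/-- The isomorphism of the free object with the model. -/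
noncomputable def freeEquiv (X : Type u) : FreeBolTwo X ≃* Md X :=
  MulEquiv.ofBijective (FreeBolTwo.lift (gn : X → Md X)) (by
    have h1 : (evHom (FreeBolTwo.of : X → FreeBolTwo X)).comp (FreeBolTwo.lift gn)
        = MonoidHom.id _ := by
      apply FreeBolTwo.hom_ext
      intro x
      simp [evHom_gn]
    have h2 : (FreeBolTwo.lift gn).comp (evHom (FreeBolTwo.of : X → FreeBolTwo X))
        = MonoidHom.id _ := by
      apply md_hom_ext
      intro x
      simp [evHom_gn]
    constructor
    · intro a b hab
      have e1 := DFunLike.congr_fun h1 a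
      have e2 := DFunLike.congr_fun h1 b
      simp only [MonoidHom.comp_apply, MonoidHom.id_apply] at e1 e2
      rw [← e1, ← e2, hab]
    · intro b
      exact ⟨_, DFunLike.congr_fun h2 b⟩)

end Pool.Agent.Lib.MP_a1bc66_al
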