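import Pool.Agent.Lib.MP_a1bc66_al.Coset

set_option autoImplicit false
set_option linter.unusedSectionVars false

namespace Pool.Agent.Lib.MP_a1bc66_al

universe u v

variable {X : Type u}

/-! ### Restriction to a block -/

/-- `d` is the entry point of a `P`-block. -/
def RC (P P' : Ltr X → Prop) (S : Set (Md X)) (d : Wd X) : Prop :=
  Vd P' S d ∧ ∀ i, P i → d.head? ≠ some i

theorem rc_nil (P P' : Ltr X → Prop) (S : Set (Md X)) : RC P P' S [] :=
  ⟨trivial, fun i _ => by simp⟩

theorem vd_append {P P' : Ltr X → Prop} (hPP : ∀ i, P i → P' i) {S : Set (Md X)} {d : Wd X}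
    (hd : RC P P' S d) {c : Wd X} (hc : Vd P (mvw d S) c) : Vd P' S (c ++ d) := by
  induction c with
  | nil => exact hd.1
  | cons i c ih =>
    obtain ⟨h1, h2, h3, h4, h5⟩ := hc
    refine ⟨ih h1, h2, hPP i h3, ?_, ?_⟩
    · cases c with
      | nil => exact hd.2 i h3
      | cons j c => simpa using h4
    · change ¬ Lp (mvw (c ++ d) S) i
      rw [mvw_append]; exact h5

theorem actC_append {P P' : Ltr X → Prop} {S : Set (Md X)} {d : Wd X}
    (hd : RC P P' S d) (c : Wd X) {i : Ltr X} (hi : P i) :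
    actC S i (c ++ d) = actC (mvw d S) i c ++ d := by
  unfold actC
  rw [mvw_append]
  by_cases h1 : Lp (mvw c (mvw d S)) i
  · rw [if_pos h1, if_pos h1]
  · rw [if_neg h1, if_neg h1]
    cases c with
    | nil =>
      rw [List.nil_append, if_neg (hd.2 i hi), if_neg (by simp)]
      rfl
    | cons j c =>
      simp only [List.cons_append, List.head?_cons, List.tail_cons]
      split_ifs
      · rfl
      · rfl

section Sys

variable {M : Type v} [MulOneClass M]

/-- Two presolutions agree on a block. -/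
def Agr (P : Ltr X → Prop) (S : Set (Md X)) (d : Wd X) (s t : Pre X M) : Prop :=
  (∀ c, Vd P (mvw d S) c → s.om (c ++ d) = t.om c) ∧
  (∀ c i, Vd P (mvw d S) c → P i → Good i → s.th (c ++ d) i = t.th c i)

theorem fv_agr {P P' : Ltr X → Prop} {S : Set (Md X)} {d : Wd X} (hd : RC P P' S d)
    {s t : Pre X M} (h : Agr P S d s t) (p : Wd X) : (∀ j ∈ p, P j) → (∀ j ∈ p, Good j) →
    ∀ c, Vd P (mvw d S) c → fv S s (c ++ d) p = fv (mvw d S) t c p := by
  induction p with
  | nil => intro _ _ c hc; exact h.1 c hc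
  | cons i p ih =>
    intro hP hG c hc
    have hi := hG i (by simp)
    have hPi := hP i (by simp)
    rw [fv_cons, fv_cons, actC_append hd c hPi,
      ih (fun j hj => hP j (by simp [hj])) (fun j hj => hG j (by simp [hj])) _
        (vd_actC hi hPi hc), h.2 c i hc hPi hi]

open Classical in
/-- Restriction of a presolution to a block. -/
noncomputable def Pre.restr (P : Ltr X → Prop) (S : Set (Md X)) (d : Wd X) (s : Pre X M) :
    Pre X M :=
  ⟨fun c i => if Vd P (mvw d S) c ∧ P i then s.th (c ++ d) i else 1,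
    fun c => if Vd P (mvw d S) c then s.om (c ++ d) else 1⟩

open Classical in
theorem Pre.restr_om (P : Ltr X → Prop) (S : Set (Md X)) (d : Wd X) (s : Pre X M) {c : Wd X}
    (hc : Vd P (mvw d S) c) : (s.restr P S d).om c = s.om (c ++ d) := if_pos hc

open Classical in
theorem Pre.restr_th (P : Ltr X → Prop) (S : Set (Md X)) (d : Wd X) (s : Pre X M) {c : Wd X}
    {i : Ltr X} (hc : Vd P (mvw d S) c) (hi : P i) :
    (s.restr P S d).th c i = s.th (c ++ d) i := if_pos ⟨hc, hi⟩

theorem agr_restr (P : Ltr X → Prop) (S : Set (Md X)) (d : Wd X) (s : Pre X M) :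
    Agr P S d s (s.restr P S d) :=
  ⟨fun _ hc => (s.restr_om P S d hc).symm, fun _ _ hc hi _ => (s.restr_th P S d hc hi).symm⟩

theorem IsSol.restr {P P' : Ltr X → Prop} (hP : DC P) (hPP : ∀ i, P i → P' i)
    {S : Set (Md X)} {d : Wd X} (hd : RC P P' S d) {s : Pre X M} (hs : IsSol P' S s) :
    IsSol P (mvw d S) (s.restr P S d) where
  supth c i h := by
    have h1 : Vd P (mvw d S) c ∧ P i := by
      by_contra h2
      exact h (if_neg h2)
    have h3 : s.th (c ++ d) i ≠ 1 := by
      rw [← s.restr_th P S d h1.1 h1.2]; exact h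
    obtain ⟨_, h5, _, h7⟩ := hs.supth _ _ h3
    refine ⟨h1.1, h5, h1.2, ?_⟩
    rw [mvw_append] at h7
    exact h7
  supom c h := by
    have h1 : Vd P (mvw d S) c := by
      by_contra h2
      exact h (if_neg h2)
    have h3 : s.om (c ++ d) ≠ 1 := by
      rw [← s.restr_om P S d h1]; exact h
    refine ⟨h1, ?_⟩
    have := (hs.supom _ h3).2
    rw [mvw_append] at this
    exact this
  eqn c y h1 h2 h3 h4 := by
    rw [← fv_agr hd (agr_restr P S d s) y.dec (hP y h3) (fun j hj => good_mem h2 hj) _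
      (vd_actC h2 h3 h1), ← actC_append hd c h3, hs.eqn (c ++ d) y (vd_append hPP hd h1) h2
      (hPP _ h3) (by rw [mvw_append]; exact h4), s.restr_om P S d h1, s.restr_th P S d h1 h3]

/-- Restriction of a solution to a block. -/
noncomputable def Sol.restr {P P' : Ltr X → Prop} (hP : DC P) (hPP : ∀ i, P i → P' i)
    {S : Set (Md X)} {d : Wd X} (hd : RC P P' S d) (s : Sol P' S M) : Sol P (mvw d S) M :=
  ⟨s.1.restr P S d, s.2.restr hP hPP hd⟩

theorem Sol.ext' {P : Ltr X → Prop} {S : Set (Md X)} {s t : Sol P S M}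
    (h1 : ∀ c, Vd P S c → ep ∈ mvw c S → s.1.om c = t.1.om c)
    (h2 : ∀ c i, Vd P S c → Good i → P i → Lp (mvw c S) i → s.1.th c i = t.1.th c i) :
    s = t := by
  apply Subtype.ext
  ext c i
  · by_cases h : Vd P S c ∧ Good i ∧ P i ∧ Lp (mvw c S) i
    · exact h2 c i h.1 h.2.1 h.2.2.1 h.2.2.2
    · have e1 : s.1.th c i = 1 := by
        by_contra h3; exact h (s.2.supth c i h3)
      have e2 : t.1.th c i = 1 := by
        by_contra h3; exact h (t.2.supth c i h3)
      rw [e1, e2]
  · by_cases h : Vd P S c ∧ ep ∈ mvw c S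
    · exact h1 c h.1 h.2
    · have e1 : s.1.om c = 1 := by
        by_contra h3; exact h (s.2.supom c h3)
      have e2 : t.1.om c = 1 := by
        by_contra h3; exact h (t.2.supom c h3)
      rw [e1, e2]

theorem Sol.restr_eq {P P' : Ltr X → Prop} (hP : DC P) (hPP : ∀ i, P i → P' i)
    {S : Set (Md X)} {d : Wd X} (hd : RC P P' S d) (s : Sol P' S M) (t : Sol P (mvw d S) M)
    (h : Agr P S d s.1 t.1) : s.restr hP hPP hd = t := by
  apply Sol.ext'
  · intro c hc _
    exact (s.1.restr_om P S d hc).trans (h.1 c hc)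
  · intro c i hc hi hPi _
    exact (s.1.restr_th P S d hc hPi).trans (h.2 c i hc hPi hi)

theorem Sol.agr_restr {P P' : Ltr X → Prop} (hP : DC P) (hPP : ∀ i, P i → P' i)
    {S : Set (Md X)} {d : Wd X} (hd : RC P P' S d) (s : Sol P' S M) :
    Agr P S d s.1 (s.restr hP hPP hd).1 :=
  Pool.Agent.Lib.MP_a1bc66_al.agr_restr P S d s.1

variable [IsBolTwo M] {N : Type v} [MulOneClass N] [IsBolTwo N]

theorem Sol.map_restr {P P' : Ltr X → Prop} (hP : DC P) (hPP : ∀ i, P i → P' i)
    {S : Set (Md X)} {d : Wd X} (hd : RC P P' S d) (s : Sol P' S M) (g : M →* N) :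
    (s.map g).restr hP hPP hd = (s.restr hP hPP hd).map g := by
  apply Sol.restr_eq
  refine ⟨?_, ?_⟩
  · intro c hc
    change g (s.1.om (c ++ d)) = g ((s.1.restr P S d).om c)
    rw [s.1.restr_om P S d hc]
  · intro c i hc hPi _
    change g (s.1.th (c ++ d) i) = g ((s.1.restr P S d).th c i)
    rw [s.1.restr_th P S d hc hPi]

end Sys

/-! ### Functionals -/

/-- Valid functionals. -/
def Fn (P : Ltr X → Prop) (S : Set (Md X)) (c : Wd X) (p : Md X) : Prop :=
  Vd P S c ∧ p ∈ mvw c S ∧ ∀ j ∈ p.1, P j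

theorem Fn.step {P : Ltr X → Prop} {S : Set (Md X)} (hS : Nice S) {c : Wd X} {i : Ltr X}
    {q : Wd X} {hp : Irr (i :: q)} (h : Fn P S c (pt (i :: q) hp)) :
    Fn P S (actC S i c) (pt q hp.tail) := by
  obtain ⟨h1, h2, h3⟩ := h
  have hi : Good i := (irr_cons.1 hp).2.1
  have hPi : P i := h3 i (by simp)
  refine ⟨vd_actC hi hPi h1, ?_, fun j hj => h3 j (by simp at hj ⊢; right; exact hj)⟩
  rw [mvw_actC hS hi hPi h1, mem_mv, tt_pt_tail hp]
  exact h2

theorem exists_om {P : Ltr X → Prop} {S : Set (Md X)} (hS : Nice S) (f : Ltr X → Bool)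
    (hf : ∀ i, P i → f i = false) (q : Wd X) : ∀ (hq : Irr q) (c : Wd X), Fn P S c (pt q hq) →
    ∃ c0, Vd P S c0 ∧ ep ∈ mvw c0 S ∧ c0.countP f = c.countP f := by
  induction q with
  | nil => intro hq c h; exact ⟨c, h.1, h.2.1, rfl⟩
  | cons i q ih =>
    intro hq c h
    obtain ⟨c0, h1, h2, h3⟩ := ih hq.tail _ (h.step hS)
    refine ⟨c0, h1, h2, h3.trans ?_⟩
    have hi : Good i := (irr_cons.1 hq).2.1
    have hPi : P i := h.2.2 i (by simp)
    rcases actC_cases i hi hPi h.1 with ⟨_, h⟩ | ⟨_, q, h1, h⟩ | ⟨_, h, h'⟩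
    · rw [h]
    · rw [h, h1, List.countP_cons_of_neg (by rw [hf i hPi]; simp)]
    · rw [h, List.countP_cons_of_neg (by rw [hf i hPi]; simp)]

section Shift

variable {M : Type v} [MulOneClass M] [IsBolTwo M]

theorem fv_sh' {P : Ltr X → Prop} {S : Set (Md X)} (hS : Nice S) (z : M) (s : Pre X M)
    {c : Wd X} {p : Md X} (h : Fn P S c p) : fv S (s.sh P S z) c p.1 = fv S s c p.1 * z :=
  fv_sh hS z s p.1 p.2 c h.1 h.2.2 h.2.1

/-- The swap of two functionals. -/
noncomputable def Sol.swp {P : Ltr X → Prop} (hP : DC P) {S : Set (Md X)} (hS : Nice S)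
    (c : Wd X) (p : Md X) (c' : Wd X) (p' : Md X) (s : Sol P S M) : Sol P S M :=
  ⟨s.1.sh P S (ldv (fv S s.1 c p.1) (fv S s.1 c' p'.1)), s.2.sh hP hS _⟩

theorem Sol.swp_fst {P : Ltr X → Prop} (hP : DC P) {S : Set (Md X)} (hS : Nice S)
    {c : Wd X} {p : Md X} {c' : Wd X} {p' : Md X} (h : Fn P S c p)
    (s : Sol P S M) : fv S (s.swp hP hS c p c' p').1 c p.1 = fv S s.1 c' p'.1 := by
  change fv S (s.1.sh P S _) c p.1 = _
  rw [fv_sh' hS _ _ h, mul_ldv]

theorem Sol.swp_snd {P : Ltr X → Prop} (hP : DC P) {S : Set (Md X)} (hS : Nice S)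
    {c : Wd X} {p : Md X} {c' : Wd X} {p' : Md X} (h' : Fn P S c' p')
    (s : Sol P S M) : fv S (s.swp hP hS c p c' p').1 c' p'.1 = fv S s.1 c p.1 := by
  change fv S (s.1.sh P S _) c' p'.1 = _
  rw [fv_sh' hS _ _ h', mul_ldv']

theorem Sol.swp_swp {P : Ltr X → Prop} (hP : DC P) {S : Set (Md X)} (hS : Nice S)
    {c : Wd X} {p : Md X} {c' : Wd X} {p' : Md X} (h : Fn P S c p) (h' : Fn P S c' p')
    (s : Sol P S M) : (s.swp hP hS c p c' p').swp hP hS c p c' p' = s := by
  apply Subtype.ext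
  change (s.swp hP hS c p c' p').1.sh P S _ = s.1
  rw [Sol.swp_fst hP hS h, Sol.swp_snd hP hS h', ldv_comm]
  exact sh_sh s.2 _

theorem Sol.map_swp {P : Ltr X → Prop} (hP : DC P) {S : Set (Md X)} (hS : Nice S)
    (c : Wd X) (p : Md X) (c' : Wd X) (p' : Md X) {N : Type v} [MulOneClass N] [IsBolTwo N]
    (g : M →* N) (s : Sol P S M) :
    (s.map g).swp hP hS c p c' p' = (s.swp hP hS c p c' p').map g := by
  apply Subtype.ext
  change (s.1.map g).sh P S (ldv (fv S (s.1.map g) c p.1) (fv S (s.1.map g) c' p'.1))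
    = (s.1.sh P S _).map g
  rw [map_sh, fv_map, fv_map, map_ldv]

end Shift

/-! ### Freeness of the solution functors -/

/-- Naturality. -/
def NatK (P : Ltr X → Prop) (S : Set (Md X)) (Q : Type u)
    (k : ∀ (M : Type u) [MulOneClass M] [IsBolTwo M], Sol P S M → Q → M) : Prop :=
  ∀ (M N : Type u) [MulOneClass M] [IsBolTwo M] [MulOneClass N] [IsBolTwo N] (g : M →* N)
    (s : Sol P S M) (q : Q), k N (s.map g) q = g (k M s q)

/-- The solution functor is a power, one coordinate being the functional `(c, p)`. -/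
def FreeAt (P : Ltr X → Prop) (S : Set (Md X)) (c p : Wd X) : Prop :=
  ∃ (Q : Type u) (k : ∀ (M : Type u) [MulOneClass M] [IsBolTwo M], Sol P S M → Q → M),
    NatK P S Q k ∧ ∀ (M : Type u) [MulOneClass M] [IsBolTwo M],
      Function.Bijective (fun s : Sol P S M => (fv S s.1 c p, k M s))

/-- The solution functor is a power. -/
def FreeSys (P : Ltr X → Prop) (S : Set (Md X)) : Prop :=
  ∃ (Q : Type u) (k : ∀ (M : Type u) [MulOneClass M] [IsBolTwo M], Sol P S M → Q → M),
    NatK P S Q k ∧ ∀ (M : Type u) [MulOneClass M] [IsBolTwo M],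
      Function.Bijective (fun s : Sol P S M => k M s)

theorem FreeAt.swap {P : Ltr X → Prop} (hP : DC P) {S : Set (Md X)} (hS : Nice S)
    {c : Wd X} {p : Md X} {c' : Wd X} {p' : Md X} (h : Fn P S c p) (h' : Fn P S c' p')
    (hF : FreeAt P S c p.1) : FreeAt P S c' p'.1 := by
  obtain ⟨Q, k, hk, hb⟩ := hF
  refine ⟨Q, fun M _ _ s => k M (s.swp hP hS c p c' p'), ?_, ?_⟩
  · intro M N _ _ _ _ g s q
    change k N ((s.map g).swp hP hS c p c' p') q = _
    rw [Sol.map_swp, hk]
  · intro M _ _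
    have e : (fun s : Sol P S M => (fv S s.1 c' p'.1, k M (s.swp hP hS c p c' p')))
        = (fun s : Sol P S M => (fv S s.1 c p.1, k M s)) ∘ (fun s => s.swp hP hS c p c' p') := by
      funext s
      simp only [Function.comp_apply]
      rw [Sol.swp_fst hP hS h]
    rw [e]
    refine (hb M).comp ?_
    exact Function.Involutive.bijective (fun s => Sol.swp_swp hP hS h h' s)

theorem freeSys_of_freeAt {P : Ltr X → Prop} {S : Set (Md X)} {c p : Wd X}
    (hF : FreeAt P S c p) :
    ∃ (Q : Type u) (k : ∀ (M : Type u) [MulOneClass M] [IsBolTwo M], Sol P S M → Q → M)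
      (q0 : Q), NatK P S Q k ∧ (∀ (M : Type u) [MulOneClass M] [IsBolTwo M],
      Function.Bijective (fun s : Sol P S M => k M s)) ∧
      ∀ (M : Type u) [MulOneClass M] [IsBolTwo M] (s : Sol P S M), k M s q0 = fv S s.1 c p := by
  obtain ⟨Q, k, hk, hb⟩ := hF
  refine ⟨Option Q, fun M _ _ s q => match q with
    | none => fv S s.1 c p
    | some q => k M s q, none, ?_, ?_, ?_⟩
  · intro M N _ _ _ _ g s q
    cases q with
    | none => exact fv_map S g s.1 c p
    | some q => exact hk M N g s q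
  · intro M _ _
    constructor
    · intro s t hst
      apply (hb M).1
      have h1 := congrFun hst none
      simp only at h1
      have h2 : k M s = k M t := by
        funext q
        exact congrFun hst (some q)
      simp only [h1, h2]
    · intro v
      obtain ⟨s, hs⟩ := (hb M).2 (v none, fun q => v (some q))
      refine ⟨s, ?_⟩
      simp only [Prod.mk.injEq] at hs
      funext q
      cases q with
      | none => exact hs.1
      | some q => exact congrFun hs.2 q
  · intro M _ _ s; rfl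

theorem freeAt_of_coord {P : Ltr X → Prop} {S : Set (Md X)} {c p : Wd X} {Q : Type u}
    (k : ∀ (M : Type u) [MulOneClass M] [IsBolTwo M], Sol P S M → Q → M) (hk : NatK P S Q k)
    (hb : ∀ (M : Type u) [MulOneClass M] [IsBolTwo M],
      Function.Bijective (fun s : Sol P S M => k M s)) (q0 : Q)
    (h0 : ∀ (M : Type u) [MulOneClass M] [IsBolTwo M] (s : Sol P S M),
      k M s q0 = fv S s.1 c p) : FreeAt P S c p := by
  classical
  refine ⟨{q : Q // q ≠ q0}, fun M _ _ s q => k M s q.1, ?_, ?_⟩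
  · intro M N _ _ _ _ g s q
    exact hk M N g s q.1
  · intro M _ _
    constructor
    · intro s t hst
      simp only [Prod.mk.injEq] at hst
      apply (hb M).1
      funext q
      by_cases hq : q = q0
      · rw [hq]
        simp only
        rw [h0, h0]; exact hst.1
      · exact congrFun hst.2 ⟨q, hq⟩
    · rintro ⟨a, v⟩
      obtain ⟨s, hs⟩ := (hb M).2 (fun q => if hq : q = q0 then a else v ⟨q, hq⟩)
      refine ⟨s, ?_⟩
      simp only at hs
      simp only [Prod.mk.injEq]
      constructor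
      · rw [← h0, hs]; simp
      · funext q
        rw [hs]
        simp [q.2]

end Pool.Agent.Lib.MP_a1bc66_al
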