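import Pool.Agent.Lib.MP_a1bc66_al.Words

set_option autoImplicit false

namespace Pool.Agent.Lib.MP_a1bc66_al

universe u v

variable {X : Type u}

theorem perm_inv_apply {α : Type u} (f : Equiv.Perm α) (x : α) : f⁻¹ (f x) = x :=
  Equiv.symm_apply_apply f x

theorem perm_apply_inv {α : Type u} (f : Equiv.Perm α) (x : α) : f (f⁻¹ x) = x :=
  Equiv.apply_symm_apply f x

/-! ### Combinatorics of irreducible words -/

theorem Irr.chain {p : Wd X} (h : Irr p) : ∀ a j b, p ≠ a ++ j :: j :: b := by
  intro a j b hp
  subst hp
  have := Irr.of_append h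
  exact (irr_cons.1 this).2.2.1 (by simp)

theorem not_irr {p : Wd X} (hg : ∀ j ∈ p, Good j) (h : ¬ Irr p) :
    (∃ a j b, p = a ++ j :: j :: b) ∨ (∃ a y b, p = a ++ Sum.inr y :: b ∧ (b = y.dec ∨ b = [])) := by
  induction p with
  | nil => exact absurd Irr.nil h
  | cons i p ih =>
    by_cases hp : Irr p
    · by_cases h1 : p.head? = some i
      · left
        cases p with
        | nil => simp at h1
        | cons j q =>
          simp only [List.head?_cons, Option.some.injEq] at h1
          subst h1
          exact ⟨[], j, q, rfl⟩
      · right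
        by_contra hcon
        push Not at hcon
        apply h
        refine irr_cons.2 ⟨hp, hg i (by simp), h1, ?_⟩
        rintro y rfl
        have := hcon [] y p rfl
        exact this
    · rcases ih (fun j hj => hg j (by simp [hj])) hp with ⟨a, j, b, hab⟩ | ⟨a, y, b, hab, hb⟩
      · left; exact ⟨i :: a, j, b, by simp [hab]⟩
      · right; exact ⟨i :: a, y, b, by simp [hab], hb⟩

theorem Irr.last_gen {p : Wd X} (h : Irr p) (hp : p ≠ []) : ∃ q x, p = q ++ [Sum.inl x] := by
  induction p with
  | nil => exact absurd rfl hp
  | cons i p ih =>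
    by_cases hp' : p = []
    · subst hp'
      cases i with
      | inl x => exact ⟨[], x, rfl⟩
      | inr y => exact absurd rfl (((irr_cons.1 h).2.2.2 y rfl).2)
    · obtain ⟨q, x, hq⟩ := ih h.tail hp'
      exact ⟨i :: q, x, by simp [hq]⟩

theorem not_irr_new (y : W X) : ¬ Irr (Sum.inr y :: y.dec : Wd X) := fun h =>
  ((irr_cons.1 h).2.2.2 y rfl).1 rfl

theorem not_irr_single (y : W X) : ¬ Irr ([Sum.inr y] : Wd X) := fun h =>
  ((irr_cons.1 h).2.2.2 y rfl).2 rfl

theorem palindrome_form (w : Wd X) (h : w.reverse = w) :
    w = [] ∨ (∃ g i, w = g ++ i :: g.reverse) ∨ (∃ a j b, w = a ++ j :: j :: b) := by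
  have hp : List.Palindrome w := List.Palindrome.of_reverse_eq h
  clear h
  induction hp with
  | nil => left; rfl
  | singleton x => right; left; exact ⟨[], x, rfl⟩
  | cons_concat x _ ih =>
    rename_i l
    right
    rcases ih with h | ⟨g, i, h⟩ | ⟨a, j, b, h⟩
    · right; subst h; exact ⟨[], x, [], rfl⟩
    · left; subst h; exact ⟨x :: g, i, by simp⟩
    · right; subst h; exact ⟨x :: a, j, b ++ [x], by simp⟩

/-! ### Words acting -/

theorem tw_rev_append (z : Wd X) : ∀ (q : Wd X) (h : Irr (z.reverse ++ q)) (hq : Irr q),
    tw z ⟨z.reverse ++ q, h⟩ = (⟨q, hq⟩ : Md X) := by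
  induction z with
  | nil => intro q h hq; rfl
  | cons i z ih =>
    intro q h hq
    have h' : Irr (z.reverse ++ (i :: q)) := by simpa using h
    have hiq : Irr (i :: q) := Irr.of_append h'
    have e : (⟨(i :: z).reverse ++ q, h⟩ : Md X) = ⟨z.reverse ++ (i :: q), h'⟩ := by
      apply Subtype.ext; simp
    rw [tw_cons, Equiv.Perm.mul_apply, e, ih (i :: q) h' hiq]
    apply Subtype.ext
    rw [tt_val (irr_cons.1 hiq).2.1]
    exact act_head i q

/-- Appending small letters after a big one. -/
theorem tw_big (v : Ltr X) (z : Wd X) : Irr z → (∀ j ∈ z, lsz j < lsz v) →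
    ∀ (q : Wd X) (h : Irr (v :: q)), ∃ h' : Irr (z ++ v :: q),
      tw z ⟨v :: q, h⟩ = (⟨z ++ v :: q, h'⟩ : Md X) := by
  induction z with
  | nil => intro _ _ q h; exact ⟨h, rfl⟩
  | cons j z ih =>
    intro hz hj q h
    obtain ⟨h2, e⟩ := ih hz.tail (fun k hk => hj k (by simp [hk])) q h
    have hirr : Irr (j :: (z ++ v :: q)) := by
      refine irr_cons.2 ⟨h2, (irr_cons.1 hz).2.1, ?_, ?_⟩
      · cases z with
        | nil =>
          intro h3
          simp only [List.nil_append, List.head?_cons, Option.some.injEq] at h3
          have := hj j (by simp)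
          rw [h3] at this
          exact lt_irrefl _ this
        | cons k z =>
          intro h3
          exact (irr_cons.1 hz).2.2.1 (by simpa using h3)
      · rintro x rfl
        refine ⟨?_, by simp⟩
        intro h3
        have h4 : v ∈ x.dec := by rw [← h3]; simp
        have h5 := lsz_lt_of_mem h4
        have h6 := hj (Sum.inr x) (by simp)
        omega
    refine ⟨hirr, ?_⟩
    apply Subtype.ext
    rw [tw_cons, Equiv.Perm.mul_apply, e, tt_val (irr_cons.1 hirr).2.1]
    exact act_cons j _ hirr

/-- The stabiliser element attached to a new letter. -/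
noncomputable def hh (y : W X) : Equiv.Perm (Md X) := tt (Sum.inr y) * tw y.dec

theorem hh_ep {y : W X} (hy : Good (Sum.inr y)) : hh y ep = ep := by
  unfold hh
  rw [Equiv.Perm.mul_apply, tw_ep hy.1]
  apply Subtype.ext
  rw [tt_val hy]
  exact act_bd _ hy

theorem hh_inv_ep {y : W X} (hy : Good (Sum.inr y)) : (hh y)⁻¹ ep = ep := by
  rw [Equiv.Perm.inv_eq_iff_eq]; exact (hh_ep hy).symm

theorem hh_inv (y : W X) : (hh y)⁻¹ = tw y.dec.reverse * tt (Sum.inr y) := by
  unfold hh
  rw [mul_inv_rev, tt_inv, tw_reverse]

theorem hh_inv_size {y : W X} {w : Md X} {w' : Wd X} (h : w.1 = Sum.inr y :: w') :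
    wsz ((hh y)⁻¹ w).1 < wsz w.1 := by
  have hw : Irr (Sum.inr y :: w') := h ▸ w.2
  have e : tt (Sum.inr y) w = (⟨w', hw.tail⟩ : Md X) := by
    apply Subtype.ext
    rw [tt_val (irr_cons.1 hw).2.1, h]
    exact act_head _ _
  rw [hh_inv, Equiv.Perm.mul_apply, e, h, wsz_cons, lsz_inr]
  have := wsz_tw_le y.dec.reverse ⟨w', hw.tail⟩
  rw [wsz_reverse] at this
  simp only at this
  omega

theorem hh_val {y : W X} {w : Md X} {w' : Wd X} (h : w.1 = y.dec.reverse ++ Sum.inr y :: w') :
    (hh y w).1 = w' := by
  have hw : Irr (y.dec.reverse ++ Sum.inr y :: w') := h ▸ w.2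
  have hw2 := Irr.of_append hw
  have e : w = ⟨y.dec.reverse ++ Sum.inr y :: w', hw⟩ := Subtype.ext h
  unfold hh
  rw [Equiv.Perm.mul_apply, e, tw_rev_append _ _ hw hw2, tt_val (irr_cons.1 hw2).2.1]
  exact act_head _ _

theorem hh_size {y : W X} {w : Md X} {w' : Wd X} (h : w.1 = y.dec.reverse ++ Sum.inr y :: w') :
    wsz (hh y w).1 < wsz w.1 := by
  rw [hh_val h, h]
  simp only [wsz_append, wsz_cons]
  have := lsz_pos (Sum.inr y : Ltr X)
  omega

open Classical in
/-- The involution mapping the base point to a given point. -/
noncomputable def back (w : Md X) : Equiv.Perm (Md X) :=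
  if h2 : ∃ y : W X, ∃ w' : Wd X, w.1 = Sum.inr y :: w' then
    hh h2.choose * back ((hh h2.choose)⁻¹ w) * (hh h2.choose)⁻¹
  else if h1 : ∃ y : W X, ∃ w' : Wd X, w.1 = y.dec.reverse ++ Sum.inr y :: w' then
    (hh h1.choose)⁻¹ * back (hh h1.choose w) * hh h1.choose
  else if w.1 = w.1.reverse then tw w.1
  else if wlt w.1 w.1.reverse then tt (Sum.inr (enc w.1))
  else tw w.1 * tt (Sum.inr (enc w.1.reverse)) * tw w.1.reverse
termination_by wsz w.1
decreasing_by
  · exact hh_inv_size h2.choose_spec.choose_spec
  · exact hh_size h1.choose_spec.choose_spec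

theorem back_R2 {y : W X} {w : Md X} {w' : Wd X} (h : w.1 = Sum.inr y :: w') :
    back w = hh y * back ((hh y)⁻¹ w) * (hh y)⁻¹ := by
  have h2 : ∃ y : W X, ∃ w' : Wd X, w.1 = Sum.inr y :: w' := ⟨y, w', h⟩
  rw [back]
  rw [dif_pos h2]
  have e : h2.choose = y := by
    obtain ⟨w'', hw⟩ := h2.choose_spec
    have hw' := h.symm.trans hw
    simp only [List.cons.injEq, Sum.inr.injEq] at hw'
    exact hw'.1.symm
  rw [e]

theorem rev_unique {y y' : W X} {w w' : Wd X} (hy : Irr y.dec) (hy' : Irr y'.dec)
    (h : y.dec.reverse ++ Sum.inr y :: w = y'.dec.reverse ++ Sum.inr y' :: w') : y = y' := by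
  have key : ∀ (y y' : W X) (w w' a : Wd X), Irr y'.dec →
      y'.dec.reverse = y.dec.reverse ++ a → Sum.inr y :: w = a ++ Sum.inr y' :: w' → y = y' := by
    intro y y' w w' a hy' h1 h2
    cases a with
    | nil =>
      simp only [List.nil_append, List.cons.injEq, Sum.inr.injEq] at h2
      exact h2.1
    | cons b a =>
      simp only [List.cons_append, List.cons.injEq] at h2
      rw [← h2.1] at h1
      have h3 := congrArg List.reverse h1
      simp only [List.reverse_reverse, List.reverse_append, List.reverse_cons,
        List.append_assoc, List.singleton_append] at h3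
      rw [h3] at hy'
      exact absurd (Irr.of_append hy') (not_irr_new y)
  rcases List.append_eq_append_iff.1 h with ⟨a, h1, h2⟩ | ⟨a, h1, h2⟩
  · exact key y y' w w' a hy' h1 h2
  · exact (key y' y w' w a hy h1 h2).symm

theorem back_R1 {y : W X} {w : Md X} {w' : Wd X} (h : w.1 = y.dec.reverse ++ Sum.inr y :: w') :
    back w = (hh y)⁻¹ * back (hh y w) * hh y := by
  have hw : Irr (y.dec.reverse ++ Sum.inr y :: w') := h ▸ w.2
  have hy : Good (Sum.inr y) := hw.good _ (by simp)
  have h2 : ¬ ∃ y : W X, ∃ w' : Wd X, w.1 = Sum.inr y :: w' := by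
    rintro ⟨z, z', hz⟩
    obtain ⟨q, x, hq⟩ := Irr.last_gen hy.1 (good_ne_nil hy)
    rw [h, hq] at hz
    simp at hz
  have h1 : ∃ y : W X, ∃ w' : Wd X, w.1 = y.dec.reverse ++ Sum.inr y :: w' := ⟨y, w', h⟩
  rw [back]
  rw [dif_neg h2, dif_pos h1]
  have e : h1.choose = y := by
    obtain ⟨w'', hw2⟩ := h1.choose_spec
    have hy' : Good (Sum.inr h1.choose) := by
      have : Irr (h1.choose.dec.reverse ++ Sum.inr h1.choose :: w'') := hw2 ▸ w.2
      exact this.good _ (by simp)
    exact rev_unique hy'.1 hy.1 (hw2.symm.trans h)
  rw [e]

theorem not_h2 {w : Wd X} (h : Irr w.reverse) : ¬ ∃ y : W X, ∃ w' : Wd X, w = Sum.inr y :: w' := by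
  rintro ⟨y, w', rfl⟩
  rw [List.reverse_cons] at h
  exact not_irr_single y (Irr.of_append h)

theorem not_h1 {w : Wd X} (h : Irr w.reverse) :
    ¬ ∃ y : W X, ∃ w' : Wd X, w = y.dec.reverse ++ Sum.inr y :: w' := by
  rintro ⟨y, w', rfl⟩
  simp only [List.reverse_append, List.reverse_cons, List.reverse_reverse, List.append_assoc,
    List.singleton_append] at h
  exact not_irr_new y (Irr.of_append h)

theorem back_pal {w : Md X} (h : w.1 = w.1.reverse) : back w = tw w.1 := by
  have hr : Irr w.1.reverse := h ▸ w.2
  rw [back, dif_neg (not_h2 hr), dif_neg (not_h1 hr), if_pos h]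

theorem good_ne_rev {y : W X} (hy : Good (Sum.inr y)) : y.dec ≠ y.dec.reverse := by
  intro h
  have := hy.2.2
  rw [← h] at this
  exact wlt_irrefl _ this

theorem back_lt {y : W X} (hy : Good (Sum.inr y)) : back ⟨y.dec, hy.1⟩ = tt (Sum.inr y) := by
  rw [back, dif_neg (not_h2 hy.2.1), dif_neg (not_h1 hy.2.1), if_neg (good_ne_rev hy),
    if_pos hy.2.2]
  simp

theorem back_gt {y : W X} (hy : Good (Sum.inr y)) :
    back ⟨y.dec.reverse, hy.2.1⟩ = tw y.dec.reverse * tt (Sum.inr y) * tw y.dec := by
  have hr : Irr y.dec.reverse.reverse := by rw [List.reverse_reverse]; exact hy.1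
  rw [back, dif_neg (not_h2 hr), dif_neg (not_h1 hr), if_neg, if_neg]
  · simp
  · simp only [List.reverse_reverse]
    exact wlt_asymm hy.2.2
  · simp only [List.reverse_reverse]
    exact fun h => good_ne_rev hy h.symm

/-- Equivariance of `back`. -/
theorem back_hh {y : W X} (hy : Good (Sum.inr y)) (w : Md X) (hw : w ≠ ep) :
    back (hh y w) = hh y * back w * (hh y)⁻¹ := by
  set u := tw y.dec w with hu
  have e : hh y w = tt (Sum.inr y) u := rfl
  have hwu : w = tw y.dec.reverse u := by
    rw [tw_reverse, hu, perm_inv_apply]
  rcases act_cases (Sum.inr y) hy u.1 u.2 with ⟨q, h1, h2⟩ | ⟨h1, h2⟩ | ⟨h1, h2⟩ | ⟨h1, h2⟩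
  · have hirr : Irr (Sum.inr y :: q) := h1 ▸ u.2
    have hu' : u = ⟨Sum.inr y :: q, hirr⟩ := Subtype.ext h1
    obtain ⟨h3, h4⟩ := tw_big (Sum.inr y) y.dec.reverse hy.2.1
      (fun j hj => lsz_lt_of_mem (List.mem_reverse.1 hj)) q hirr
    have hw1 : w.1 = y.dec.reverse ++ Sum.inr y :: q := by
      rw [hwu, hu', h4]
    rw [back_R1 hw1]
    group
  · have hu' : u = ep := Subtype.ext h1
    have hw1 : w = ⟨y.dec.reverse, hy.2.1⟩ := by
      rw [hwu, hu', tw_ep hy.2.1]
    have hw2 : hh y w = ⟨y.dec, hy.1⟩ := by
      rw [e]
      apply Subtype.ext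
      rw [tt_val hy, h2]
      rfl
    rw [hw2, back_lt hy, hw1, back_gt hy]
    unfold hh
    rw [tw_reverse]
    group
  · exfalso
    apply hw
    have : tw y.dec w = tw y.dec ep := by
      rw [tw_ep hy.1]
      exact Subtype.ext h1
    exact (tw y.dec).injective this
  · have h3 : (hh y w).1 = Sum.inr y :: u.1 := by
      rw [e, tt_val hy, h1]
    rw [back_R2 h3]
    simp

/-! ### The reflections -/

/-- The reflection given by a word and a letter. -/
noncomputable def rf (g : Wd X) (i : Ltr X) : Equiv.Perm (Md X) := tw g * tt i * (tw g)⁻¹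

theorem rf_eq_tw (g : Wd X) (i : Ltr X) : rf g i = tw (g ++ i :: g.reverse) := by
  rw [rf, tw_append, tw_cons, tw_reverse]
  group

theorem rf_ne {i : Ltr X} (hi : Good i) (g : Wd X) (p : Md X) : rf g i p ≠ p := by
  intro h
  unfold rf at h
  rw [Equiv.Perm.mul_apply, Equiv.Perm.mul_apply] at h
  have h2 : tt i ((tw g)⁻¹ p) = (tw g)⁻¹ p := by
    rw [Equiv.Perm.eq_inv_iff_eq]; exact h
  have h3 := congrArg Subtype.val h2
  rw [tt_val hi] at h3
  exact act_ne hi ((tw g)⁻¹ p).2 h3

theorem back_rf (n : ℕ) : ∀ (g : Wd X) (i : Ltr X), (∀ j ∈ g, Good j) → Good i →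
    2 * wsz g + lsz i ≤ n → back (rf g i ep) = rf g i := by
  induction n with
  | zero =>
    intro g i _ _ h
    have := lsz_pos i
    omega
  | succ n IH =>
    intro g i hg hi hn
    have hgood : ∀ j ∈ g ++ i :: g.reverse, Good j := by
      intro j hj
      simp only [List.mem_append, List.mem_cons, List.mem_reverse] at hj
      rcases hj with h | h | h
      · exact hg j h
      · subst h; exact hi
      · exact hg j h
    have hrev : (g ++ i :: g.reverse).reverse = g ++ i :: g.reverse := by simp
    by_cases hπ : Irr (g ++ i :: g.reverse)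
    · rw [rf_eq_tw, tw_ep hπ, back_pal]
      exact hrev.symm
    · by_cases hred : ∃ a j b, g ++ [i] = a ++ j :: j :: b
      · obtain ⟨a, j, b, hab⟩ := hred
        rcases List.eq_nil_or_concat b with hb | ⟨b', k, hb⟩
        · subst hb
          have e1 : g = a ++ [j] ∧ i = j := by
            have : g ++ [i] = (a ++ [j]) ++ [j] := by rw [hab]; simp
            have h3 := List.append_inj' this rfl
            exact ⟨h3.1, by simpa using h3.2⟩
          obtain ⟨e1, e2⟩ := e1
          subst e2
          have e3 : rf g i = rf a i := by
            rw [rf, rf, e1, tw_append]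
            simp only [tw_cons, tw_nil, mul_one, mul_inv_rev, tt_inv]
            rw [mul_assoc (tw a), tt_mul_self, mul_one, mul_assoc]
          rw [e3]
          apply IH a i (fun j hj => hg j (by rw [e1]; simp [hj])) hi
          rw [e1, wsz_append, wsz_cons, wsz_nil] at hn
          have := lsz_pos i
          omega
        · subst hb
          have e1 : g = a ++ j :: j :: b' := by
            have : g ++ [i] = (a ++ j :: j :: b') ++ [k] := by rw [hab]; simp
            exact (List.append_inj' this rfl).1
          have e3 : rf g i = rf (a ++ b') i := by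
            rw [rf, rf, e1]
            have : tw (a ++ j :: j :: b') = tw (a ++ b') := by
              rw [tw_append, tw_cons, tw_cons, tw_append, ← mul_assoc (tt j), tt_mul_self, one_mul]
            rw [this]
          rw [e3]
          apply IH (a ++ b') i (fun j' hj => hg j' (by
            rw [e1]; simp only [List.mem_append, List.mem_cons] at hj ⊢; tauto)) hi
          rw [e1] at hn
          simp only [wsz_append, wsz_cons] at hn ⊢
          have := lsz_pos j
          omega
      · rcases not_irr hgood hπ with ⟨a, j, b, hab⟩ | ⟨a, y, b, hab, hb⟩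
        · exfalso
          apply hred
          rcases List.append_eq_append_iff.1 hab with ⟨a', h1, h2⟩ | ⟨a', h1, h2⟩
          · -- a = g ++ a', i :: g.reverse = a' ++ j :: j :: b
            have h3 := congrArg List.reverse h2
            simp only [List.reverse_cons, List.reverse_reverse, List.reverse_append,
              List.append_assoc] at h3
            exact ⟨b.reverse, j, a'.reverse, by rw [h3]; simp⟩
          · -- g = a ++ a', j :: j :: b = a' ++ i :: g.reverse
            cases a' with
            | nil =>
              simp only [List.nil_append, List.cons.injEq] at h2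
              -- j = i, j :: b = g.reverse
              have h3 := congrArg List.reverse h2.2
              simp only [List.reverse_cons, List.reverse_reverse] at h3
              exact ⟨b.reverse, j, [], by rw [← h3, ← h2.1]; simp⟩
            | cons c a' =>
              simp only [List.cons_append, List.cons.injEq] at h2
              obtain ⟨h2, h3⟩ := h2
              cases a' with
              | nil =>
                simp only [List.nil_append, List.cons.injEq] at h3
                exact ⟨a, j, [], by rw [h1, ← h2, ← h3.1]; simp⟩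
              | cons d a' =>
                simp only [List.cons_append, List.cons.injEq] at h3
                exact ⟨a, j, a' ++ [i], by rw [h1, ← h2, ← h3.1]; simp⟩
        · have hab' : g ++ i :: g.reverse = b.reverse ++ Sum.inr y :: a.reverse := by
            have h3 := congrArg List.reverse hab
            rw [hrev] at h3
            simpa using h3
          have hy : Good (Sum.inr y) := hgood _ (by rw [hab]; simp)
          have hcase : (g = b.reverse ∧ i = Sum.inr y) ∨ ∃ g', g = b.reverse ++ Sum.inr y :: g' := by
            rcases List.append_eq_append_iff.1 hab' with ⟨a', h1, h2⟩ | ⟨a', h1, h2⟩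
            · cases a' with
              | nil =>
                simp only [List.nil_append, List.cons.injEq, List.append_nil] at h1 h2
                left; exact ⟨h1.symm, h2.1⟩
              | cons c a' =>
                exfalso
                simp only [List.cons_append, List.cons.injEq] at h2
                have h4 : Sum.inr y ∈ g.reverse := by rw [h2.2]; simp
                have h5 : Sum.inr y ∈ b.reverse := by
                  rw [h1]; simp [List.mem_reverse.1 h4]
                rcases hb with hb | hb
                · rw [hb] at h5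
                  exact not_mem_self y (List.mem_reverse.1 h5)
                · rw [hb] at h5; simp at h5
            · cases a' with
              | nil =>
                simp only [List.nil_append, List.cons.injEq, List.append_nil] at h1 h2
                left; exact ⟨h1, h2.1.symm⟩
              | cons c a' =>
                simp only [List.cons_append, List.cons.injEq] at h2
                right; exact ⟨a', by rw [h1, h2.1]⟩
          rcases hcase with ⟨e1, e2⟩ | ⟨g', e1⟩
          · subst e2
            rcases hb with hb | hb
            · rw [hb] at e1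
              have e3 : rf g (Sum.inr y) = tw y.dec.reverse * tt (Sum.inr y) * tw y.dec := by
                rw [rf, e1]
                congr 1
                rw [tw_reverse, inv_inv]
              have e4 : rf g (Sum.inr y) ep = ⟨y.dec.reverse, hy.2.1⟩ := by
                rw [e3, Equiv.Perm.mul_apply, Equiv.Perm.mul_apply, tw_ep hy.1]
                have : tt (Sum.inr y) (⟨y.dec, hy.1⟩ : Md X) = ep := by
                  apply Subtype.ext
                  rw [tt_val hy]
                  exact act_bd _ hy
                rw [this, tw_ep hy.2.1]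
              rw [e4, back_gt hy, e3]
            · rw [hb] at e1
              have e3 : rf g (Sum.inr y) = tt (Sum.inr y) := by
                rw [rf, e1]; simp
              have e4 : rf g (Sum.inr y) ep = ⟨y.dec, hy.1⟩ := by
                rw [e3]
                apply Subtype.ext
                rw [tt_val hy]
                exact act_nil _
              rw [e4, back_lt hy, e3]
          · rcases hb with hb | hb
            · -- b = y.dec
              rw [hb] at e1
              have e3 : hh y * rf g i * (hh y)⁻¹ = rf g' i := by
                rw [rf, rf, e1, tw_append, tw_cons, tw_reverse, hh]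
                have ht : tt (Sum.inr y) * tt (Sum.inr y) = (1 : Equiv.Perm (Md X)) :=
                  tt_mul_self _
                have e5 : tt (Sum.inr y) * tw y.dec * ((tw y.dec)⁻¹ * (tt (Sum.inr y) * tw g'))
                    = tw g' := by
                  calc _ = (tt (Sum.inr y) * tt (Sum.inr y)) * tw g' := by group
                    _ = _ := by rw [ht, one_mul]
                calc _ = (tt (Sum.inr y) * tw y.dec * ((tw y.dec)⁻¹ * (tt (Sum.inr y) * tw g')))
                      * tt i *
                      (tt (Sum.inr y) * tw y.dec * ((tw y.dec)⁻¹ * (tt (Sum.inr y) * tw g')))⁻¹ := by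
                      group
                  _ = _ := by rw [e5]
              have IH' := IH g' i (fun j hj => hg j (by rw [e1]; simp [hj])) hi (by
                rw [e1] at hn
                simp only [wsz_append, wsz_cons] at hn
                have := lsz_pos (Sum.inr y : Ltr X)
                omega)
              have e4 : rf g' i ep = hh y (rf g i ep) := by
                rw [← e3, Equiv.Perm.mul_apply, Equiv.Perm.mul_apply, hh_inv_ep hy]
              rw [e4, back_hh hy _ (rf_ne hi g ep), ← e3] at IH'
              have := mul_right_cancel IH'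
              exact mul_left_cancel this
            · -- b = []
              rw [hb] at e1
              simp only [List.reverse_nil, List.nil_append] at e1
              have e3 : (hh y)⁻¹ * rf g i * hh y = rf (y.dec.reverse ++ g') i := by
                rw [rf, rf, e1, tw_append, tw_cons, tw_reverse, hh]
                have ht : (tt (Sum.inr y))⁻¹ * tt (Sum.inr y) = (1 : Equiv.Perm (Md X)) :=
                  inv_mul_cancel _
                group
              have IH' := IH (y.dec.reverse ++ g') i (fun j hj => by
                rw [List.mem_append, List.mem_reverse] at hj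
                rcases hj with hj | hj
                · exact good_mem hy hj
                · exact hg j (by rw [e1]; simp [hj])) hi (by
                rw [e1] at hn
                simp only [wsz_append, wsz_cons, wsz_reverse, lsz_inr] at hn ⊢
                omega)
              have e4 : rf g i ep = hh y (rf (y.dec.reverse ++ g') i ep) := by
                rw [← e3, Equiv.Perm.mul_apply, Equiv.Perm.mul_apply, hh_ep hy,
                  perm_apply_inv]
              rw [e4, back_hh hy _ (rf_ne hi _ ep), IH', ← e3]
              group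

end Pool.Agent.Lib.MP_a1bc66_al
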