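import Pool.Agent.Lib.MP_a1bc66_al.Restr

set_option autoImplicit false
set_option linter.unusedSectionVars false

namespace Pool.Agent.Lib.MP_a1bc66_al

universe u v

variable {X : Type u}

/-- Letters of size less than `n`. -/
def Pn (n : ℕ) : Ltr X → Prop := fun i => lsz i < n

theorem dc_Pn (n : ℕ) : DC (Pn n : Ltr X → Prop) := fun y h j hj =>
  lt_trans (lsz_lt_of_mem hj) h

theorem Pn_mono (n : ℕ) : ∀ i : Ltr X, Pn n i → Pn (n + 1) i := fun _ h => Nat.lt_succ_of_lt h

/-- The entry point of the block of `c`. -/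
def spd (n : ℕ) (c : Wd X) : Wd X := c.dropWhile (fun i => decide (lsz i < n))

/-- The position of `c` in its block. -/
def spc (n : ℕ) (c : Wd X) : Wd X := c.takeWhile (fun i => decide (lsz i < n))

theorem spc_append_spd (n : ℕ) (c : Wd X) : spc n c ++ spd n c = c :=
  List.takeWhile_append_dropWhile

theorem spd_length (n : ℕ) (c : Wd X) : (spd n c).length ≤ c.length := by
  have := congrArg List.length (spc_append_spd n c)
  rw [List.length_append] at this
  omega

theorem spl_cons_lt {n : ℕ} {i : Ltr X} (h : lsz i < n) (c : Wd X) :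
    spd n (i :: c) = spd n c ∧ spc n (i :: c) = i :: spc n c := by
  unfold spd spc
  rw [List.dropWhile_cons_of_pos (by simpa using h), List.takeWhile_cons_of_pos (by simpa using h)]
  exact ⟨rfl, rfl⟩

theorem spl_cons_ge {n : ℕ} {i : Ltr X} (h : ¬ lsz i < n) (c : Wd X) :
    spd n (i :: c) = i :: c ∧ spc n (i :: c) = [] := by
  unfold spd spc
  rw [List.dropWhile_cons_of_neg (by simpa using h), List.takeWhile_cons_of_neg (by simpa using h)]
  exact ⟨rfl, rfl⟩

theorem spl_append {n : ℕ} {c d : Wd X} (hc : ∀ j ∈ c, lsz j < n)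
    (hd : ∀ i, Pn n i → d.head? ≠ some i) : spd n (c ++ d) = d ∧ spc n (c ++ d) = c := by
  induction c with
  | nil =>
    cases d with
    | nil => exact ⟨rfl, rfl⟩
    | cons i d =>
      exact spl_cons_ge (fun h => hd i h (by simp)) d
  | cons j c ih =>
    obtain ⟨h1, h2⟩ := ih (fun k hk => hc k (by simp [hk]))
    obtain ⟨h3, h4⟩ := spl_cons_lt (hc j (by simp)) (c ++ d)
    rw [List.cons_append, h3, h4, h1, h2]
    exact ⟨rfl, rfl⟩

/-- Nontrivial entry points. -/
def Nd (n : ℕ) (S : Set (Md X)) (d : Wd X) : Prop :=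
  Vd (Pn (n + 1)) S d ∧ ∃ v c, d = v :: c ∧ lsz v = n

theorem Nd.rc {n : ℕ} {S : Set (Md X)} {d : Wd X} (h : Nd n S d) :
    RC (Pn n) (Pn (n + 1)) S d := by
  obtain ⟨h1, v, c, rfl, h2⟩ := h
  refine ⟨h1, fun i hi h3 => ?_⟩
  simp only [List.head?_cons, Option.some.injEq] at h3
  subst h3
  unfold Pn at hi
  omega

theorem decomp {n : ℕ} {S : Set (Md X)} (c : Wd X) (hc : Vd (Pn (n + 1)) S c) :
    (spd n c = [] ∨ Nd n S (spd n c)) ∧ Vd (Pn n) (mvw (spd n c) S) (spc n c) := by
  induction c with
  | nil => exact ⟨Or.inl rfl, trivial⟩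
  | cons i c ih =>
    obtain ⟨h1, h2⟩ := ih hc.1
    by_cases hi : lsz i < n
    · obtain ⟨h3, h4⟩ := spl_cons_lt hi c
      rw [h3, h4]
      refine ⟨h1, h2, hc.2.1, hi, ?_, ?_⟩
      · have h5 := hc.2.2.2.1
        cases hcc : spc n c with
        | nil => simp
        | cons j c' =>
          have := spc_append_spd n c
          rw [hcc] at this
          rw [← this] at h5
          simpa using h5
      · have h5 := hc.2.2.2.2
        rw [← mvw_append, spc_append_spd]
        exact h5
    · obtain ⟨h3, h4⟩ := spl_cons_ge hi c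
      rw [h3, h4]
      refine ⟨Or.inr ⟨hc, i, c, rfl, ?_⟩, trivial⟩
      have : lsz i < n + 1 := hc.2.2.1
      omega

theorem rc_spd {n : ℕ} {S : Set (Md X)} {c : Wd X} (hc : Vd (Pn (n + 1)) S c) :
    RC (Pn n) (Pn (n + 1)) S (spd n c) := by
  rcases (decomp c hc).1 with h | h
  · rw [h]; exact rc_nil _ _ _
  · exact h.rc

/-- Attached entry points. -/
def Att (S : Set (Md X)) (v : Ltr X) (c : Wd X) : Prop :=
  (∃ y, v = Sum.inr y) ∧ (ep ∈ mvw (v :: c) S ∨ ep ∈ mvw c S)

open Classical in
/-- The point shared by a block and its parent block. -/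
noncomputable def qd (S : Set (Md X)) (v : Ltr X) (c : Wd X) : Md X :=
  if ep ∈ mvw (v :: c) S then ep else tt v ep

theorem qd_mem {S : Set (Md X)} {v : Ltr X} {c : Wd X} (h : Att S v c) :
    qd S v c ∈ mvw (v :: c) S := by
  unfold qd
  split_ifs with h1
  · exact h1
  · rw [mvw_cons, mem_mv, tt_tt]
    exact h.2.resolve_left h1

theorem qd_mem' {S : Set (Md X)} {v : Ltr X} {c : Wd X} (h : Att S v c) :
    tt v (qd S v c) ∈ mvw c S := by
  have := qd_mem h
  rwa [mvw_cons, mem_mv] at this

theorem letters_ep {n : ℕ} : ∀ j ∈ (ep : Md X).1, Pn n j := by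
  intro j hj
  simp [ep] at hj

theorem letters_bd {n : ℕ} {v : Ltr X} (hv : Good v) (hy : ∃ y, v = Sum.inr y) (hn : lsz v = n) :
    ∀ j ∈ (tt v ep).1, Pn n j := by
  obtain ⟨y, rfl⟩ := hy
  rw [tt_ep hv]
  intro j hj
  have := lsz_lt_of_mem (y := y) (j := j) hj
  unfold Pn
  omega

theorem qd_letters {n : ℕ} {S : Set (Md X)} {v : Ltr X} {c : Wd X} (h : Att S v c)
    (hv : Good v) (hn : lsz v = n) : ∀ j ∈ (qd S v c).1, Pn n j := by
  unfold qd
  split_ifs with h1
  · exact letters_ep
  · exact letters_bd hv h.1 hn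

theorem qd_letters' {n : ℕ} {S : Set (Md X)} {v : Ltr X} {c : Wd X} (h : Att S v c)
    (hv : Good v) (hn : lsz v = n) : ∀ j ∈ (tt v (qd S v c)).1, Pn n j := by
  unfold qd
  split_ifs with h1
  · exact letters_bd hv h.1 hn
  · rw [tt_tt]; exact letters_ep

theorem fn_child {n : ℕ} {S : Set (Md X)} {v : Ltr X} {c : Wd X} (h : Att S v c)
    (hv : Good v) (hn : lsz v = n) : Fn (Pn n) (mvw (v :: c) S) [] (qd S v c) :=
  ⟨trivial, qd_mem h, qd_letters h hv hn⟩

theorem fn_parent {n : ℕ} {S : Set (Md X)} {v : Ltr X} {c : Wd X} (h : Att S v c)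
    (hv : Good v) (hn : lsz v = n) (hc : Vd (Pn (n + 1)) S c) :
    Fn (Pn n) (mvw (spd n c) S) (spc n c) (tt v (qd S v c)) := by
  refine ⟨(decomp c hc).2, ?_, qd_letters' h hv hn⟩
  rw [← mvw_append, spc_append_spd]
  exact qd_mem' h

/-- The induction hypothesis. -/
def Mn (n : ℕ) (S : Set (Md X)) : Prop :=
  (∀ c p, Fn (Pn n) S c p → FreeAt (Pn n) S c p.1) ∧ FreeSys (Pn n) S

theorem node_data {n : ℕ} {S : Set (Md X)} (hS : Nice S) (hne : S.Nonempty)
    (IH : ∀ S' : Set (Md X), Nice S' → S'.Nonempty → Mn n S') (d : Wd X) :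
    ∃ (Q : Type u) (k : ∀ (M : Type u) [MulOneClass M] [IsBolTwo M],
        Sol (Pn n) (mvw d S) M → Q → M),
      NatK (Pn n) (mvw d S) Q k ∧
      (∀ v c, d = v :: c → Nd n S d → Att S v c →
        ∀ (M : Type u) [MulOneClass M] [IsBolTwo M],
        Function.Bijective (fun s : Sol (Pn n) (mvw d S) M =>
          (fv (mvw d S) s.1 [] (qd S v c).1, k M s))) ∧
      (∀ v c, d = v :: c → ¬ Att S v c → ∀ (M : Type u) [MulOneClass M] [IsBolTwo M],
        Function.Bijective (fun s : Sol (Pn n) (mvw d S) M => k M s)) ∧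
      (∀ v c, d = v :: c → ¬ Att S v c →
        (∃ c2, Vd (Pn n) (mvw d S) c2 ∧ ep ∈ mvw c2 (mvw d S)) →
        ∃ q0 c2, Vd (Pn n) (mvw d S) c2 ∧ ep ∈ mvw c2 (mvw d S) ∧
          ∀ (M : Type u) [MulOneClass M] [IsBolTwo M] (s : Sol (Pn n) (mvw d S) M),
            k M s q0 = s.1.om c2) := by
  cases d with
  | nil =>
    refine ⟨PEmpty, fun _ _ _ _ q => q.elim, ?_, ?_, ?_, ?_⟩
    · intro _ _ _ _ _ _ _ _ q; exact q.elim
    · intro v c h; cases h
    · intro v c h; cases h
    · intro v c h; cases h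
  | cons v c =>
    have hS' := nice_mvw hS (v :: c)
    have hne' := nonempty_mvw hne (v :: c)
    obtain ⟨IH1, IH2⟩ := IH _ hS' hne'
    by_cases hA : Att S v c
    · by_cases hN : Nd n S (v :: c)
      · have hv : Good v := hN.1.2.1
        have hn : lsz v = n := by
          obtain ⟨_, v', c', h1, h2⟩ := hN
          simp only [List.cons.injEq] at h1
          rw [h1.1]; exact h2
        obtain ⟨Q, k, hk, hb⟩ := IH1 [] _ (fn_child hA hv hn)
        refine ⟨Q, k, hk, ?_, ?_, ?_⟩
        · intro v' c' h1 _ _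
          simp only [List.cons.injEq] at h1
          obtain ⟨rfl, rfl⟩ := h1
          exact hb
        · intro v' c' h1 h2
          simp only [List.cons.injEq] at h1
          obtain ⟨rfl, rfl⟩ := h1
          exact absurd hA h2
        · intro v' c' h1 h2
          simp only [List.cons.injEq] at h1
          obtain ⟨rfl, rfl⟩ := h1
          exact absurd hA h2
      · refine ⟨PEmpty, fun _ _ _ _ q => q.elim, ?_, ?_, ?_, ?_⟩
        · intro _ _ _ _ _ _ _ _ q; exact q.elim
        · intro _ _ _ h; exact absurd h hN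
        · intro v' c' h1 h2
          simp only [List.cons.injEq] at h1
          obtain ⟨rfl, rfl⟩ := h1
          exact absurd hA h2
        · intro v' c' h1 h2
          simp only [List.cons.injEq] at h1
          obtain ⟨rfl, rfl⟩ := h1
          exact absurd hA h2
    · by_cases hex : ∃ c2, Vd (Pn n) (mvw (v :: c) S) c2 ∧ ep ∈ mvw c2 (mvw (v :: c) S)
      · obtain ⟨c2, h1, h2⟩ := hex
        obtain ⟨Q, k, q0, hk, hb, h0⟩ := freeSys_of_freeAt (IH1 c2 ep ⟨h1, h2, letters_ep⟩)
        refine ⟨Q, k, hk, ?_, ?_, ?_⟩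
        · intro v' c' h1 _ h2
          simp only [List.cons.injEq] at h1
          obtain ⟨rfl, rfl⟩ := h1
          exact absurd h2 hA
        · intro _ _ _ _; exact hb
        · intro _ _ _ _ _
          exact ⟨q0, c2, h1, h2, fun M _ _ s => h0 M s⟩
      · obtain ⟨Q, k, hk, hb⟩ := IH2
        refine ⟨Q, k, hk, ?_, ?_, ?_⟩
        · intro v' c' h1 _ h2
          simp only [List.cons.injEq] at h1
          obtain ⟨rfl, rfl⟩ := h1
          exact absurd h2 hA
        · intro _ _ _ _; exact hb
        · intro _ _ _ _ h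
          exact absurd h hex

/-- Recursive construction of a family of solutions. -/
noncomputable def solF {n : ℕ} {S : Set (Md X)} {M : Type u} [MulOneClass M]
    (s0 : Sol (Pn n) S M)
    (stp : ∀ v c, Sol (Pn n) (mvw (spd n c) S) M → Sol (Pn n) (mvw (v :: c) S) M) :
    (d : Wd X) → Sol (Pn n) (mvw d S) M
  | [] => s0
  | v :: c => stp v c (solF s0 stp (spd n c))
termination_by d => d.length
decreasing_by
  have := spd_length n c
  simp only [List.length_cons]
  omega

section Asm

variable {M : Type v} [MulOneClass M] [IsBolTwo M]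

open Classical in
/-- The assembled presolution. -/
noncomputable def asm (n : ℕ) (S : Set (Md X)) (G : Wd X → Pre X M) (lam : Wd X → Ltr X → M) :
    Pre X M :=
  ⟨fun c i => if Vd (Pn (n + 1)) S c ∧ Good i ∧ Lp (mvw c S) i then
      (if lsz i < n then (G (spd n c)).th (spc n c) i
        else if lsz i = n then
          (if (∃ y, i = Sum.inr y) ∧ ep ∈ mvw c S then
            ldv ((G (spd n c)).om (spc n c)) (fv (mvw (spd n c) S) (G (spd n c)) (spc n c) (bd i))
          else lam c i)
        else 1)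
      else 1,
    fun c => if Vd (Pn (n + 1)) S c then (G (spd n c)).om (spc n c) else 1⟩

open Classical in
theorem asm_agr {n : ℕ} {S : Set (Md X)} {G : Wd X → Pre X M} (lam : Wd X → Ltr X → M)
    (hG : ∀ d, IsSol (Pn n) (mvw d S) (G d)) {d : Wd X} (hd : RC (Pn n) (Pn (n + 1)) S d) :
    Agr (Pn n) S d (asm n S G lam) (G d) := by
  constructor
  · intro c hc
    have h1 : Vd (Pn (n + 1)) S (c ++ d) := vd_append (Pn_mono n) hd hc
    obtain ⟨h2, h3⟩ := spl_append (n := n) (c := c) (d := d) hc.mem hd.2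
    change (if Vd (Pn (n + 1)) S (c ++ d) then (G (spd n (c ++ d))).om (spc n (c ++ d)) else 1) = _
    rw [if_pos h1, h2, h3]
  · intro c i hc hi hgi
    have h1 : Vd (Pn (n + 1)) S (c ++ d) := vd_append (Pn_mono n) hd hc
    obtain ⟨h2, h3⟩ := spl_append (n := n) (c := c) (d := d) hc.mem hd.2
    have hi' : lsz i < n := hi
    by_cases hL : Lp (mvw (c ++ d) S) i
    · change (if Vd (Pn (n + 1)) S (c ++ d) ∧ Good i ∧ Lp (mvw (c ++ d) S) i then _ else 1) = _
      rw [if_pos ⟨h1, hgi, hL⟩, if_pos hi', h2, h3]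
    · change (if Vd (Pn (n + 1)) S (c ++ d) ∧ Good i ∧ Lp (mvw (c ++ d) S) i then _ else 1) = _
      rw [if_neg (fun h => hL h.2.2)]
      rw [mvw_append] at hL
      exact ((hG d).th_nonloop hL).symm

theorem asm_fv {n : ℕ} {S : Set (Md X)} {G : Wd X → Pre X M} (lam : Wd X → Ltr X → M)
    (hG : ∀ d, IsSol (Pn n) (mvw d S) (G d)) {c : Wd X} (hc : Vd (Pn (n + 1)) S c)
    {p : Wd X} (hp : ∀ j ∈ p, Pn n j) (hp' : ∀ j ∈ p, Good j) :
    fv S (asm n S G lam) c p = fv (mvw (spd n c) S) (G (spd n c)) (spc n c) p := by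
  have h := fv_agr (rc_spd hc) (asm_agr lam hG (rc_spd hc)) p hp hp' (spc n c) (decomp c hc).2
  rw [spc_append_spd] at h
  exact h

open Classical in
theorem asm_om {n : ℕ} {S : Set (Md X)} (G : Wd X → Pre X M) (lam : Wd X → Ltr X → M)
    {c : Wd X} (hc : Vd (Pn (n + 1)) S c) :
    (asm n S G lam).om c = (G (spd n c)).om (spc n c) := if_pos hc

theorem isSol_asm {n : ℕ} {S : Set (Md X)} (hS : Nice S) {G : Wd X → Pre X M}
    (lam : Wd X → Ltr X → M) (hG : ∀ d, IsSol (Pn n) (mvw d S) (G d))
    (hstep : ∀ v c, Nd n S (v :: c) → Att S v c →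
      fv (mvw (v :: c) S) (G (v :: c)) [] (qd S v c).1
        = fv (mvw (spd n c) S) (G (spd n c)) (spc n c) (tt v (qd S v c)).1) :
    IsSol (Pn (n + 1)) S (asm n S G lam) where
  supth c i h := by
    classical
    have h1 : Vd (Pn (n + 1)) S c ∧ Good i ∧ Lp (mvw c S) i := by
      by_contra h2
      exact h (if_neg h2)
    refine ⟨h1.1, h1.2.1, ?_, h1.2.2⟩
    by_contra h2
    have h2' : ¬ lsz i < n + 1 := h2
    apply h
    change (if Vd (Pn (n + 1)) S c ∧ Good i ∧ Lp (mvw c S) i then _ else 1) = _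
    rw [if_pos h1, if_neg (by omega), if_neg (by omega)]
  supom c h := by
    classical
    have h1 : Vd (Pn (n + 1)) S c := by
      by_contra h2
      exact h (if_neg h2)
    refine ⟨h1, ?_⟩
    rw [asm_om G lam h1] at h
    have := ((hG _).supom _ h).2
    rw [← mvw_append, spc_append_spd] at this
    exact this
  eqn c y h1 h2 h3 h4 := by
    classical
    have hd := rc_spd h1
    obtain ⟨hd1, hd2⟩ := decomp c h1
    have hagr := asm_agr lam hG hd
    have hyl : ∀ j ∈ y.dec, Pn n j := by
      intro j hj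
      have h5 := lsz_lt_of_mem hj
      have h6 : lsz (Sum.inr y) < n + 1 := h3
      change lsz j < n
      omega
    have hyg : ∀ j ∈ y.dec, Good j := fun j hj => good_mem h2 hj
    have hep : ep ∈ mvw (spc n c) (mvw (spd n c) S) := by
      rw [← mvw_append, spc_append_spd]; exact h4
    by_cases hlt : lsz (Sum.inr y : Ltr X) < n
    · have e1 : actC S (Sum.inr y) c = actC (mvw (spd n c) S) (Sum.inr y) (spc n c) ++ spd n c := by
        conv_lhs => rw [← spc_append_spd n c]
        exact actC_append hd _ hlt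
      rw [e1, fv_agr hd hagr y.dec hyl hyg _ (vd_actC h2 hlt hd2),
        (hG (spd n c)).eqn _ y hd2 h2 hlt hep, ← hagr.1 _ hd2, ← hagr.2 _ _ hd2 hlt h2,
        spc_append_spd]
    · have hn : lsz (Sum.inr y : Ltr X) = n := by
        have h6 : lsz (Sum.inr y) < n + 1 := h3
        omega
      rcases actC_cases (Sum.inr y) h2 h3 h1 with ⟨h0, h⟩ | ⟨h0, q, h5, h⟩ | ⟨h0, h, h'⟩
      · rw [h, asm_fv lam hG h1 hyl hyg, asm_om G lam h1]
        have e2 : (asm n S G lam).th c (Sum.inr y)
            = ldv ((G (spd n c)).om (spc n c))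
              (fv (mvw (spd n c) S) (G (spd n c)) (spc n c) (bd (Sum.inr y))) := by
          change (if Vd (Pn (n + 1)) S c ∧ Good (Sum.inr y) ∧ Lp (mvw c S) (Sum.inr y) then _ else 1)
            = _
          rw [if_pos ⟨h1, h2, h0⟩, if_neg hlt, if_pos hn, if_pos ⟨⟨y, rfl⟩, h4⟩]
        rw [e2, mul_ldv]
        rfl
      · have e2 : (asm n S G lam).th c (Sum.inr y) = 1 := by
          change (if Vd (Pn (n + 1)) S c ∧ Good (Sum.inr y) ∧ Lp (mvw c S) (Sum.inr y) then _ else 1)
            = _
          rw [if_neg (fun h6 => h0 h6.2.2)]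
        rw [h, e2, mul_one, asm_om G lam h1]
        subst h5
        have hA : Att S (Sum.inr y) q := ⟨⟨y, rfl⟩, Or.inl h4⟩
        have hN : Nd n S (Sum.inr y :: q) := ⟨h1, _, q, rfl, hn⟩
        have hst := hstep _ _ hN hA
        have hq : qd S (Sum.inr y) q = ep := by
          unfold qd
          rw [if_pos h4]
        rw [hq, tt_ep h2] at hst
        rw [asm_fv lam hG h1.1 hyl hyg]
        obtain ⟨h7, h8⟩ := spl_cons_ge hlt q
        rw [h7, h8]
        exact hst.symm
      · have e2 : (asm n S G lam).th c (Sum.inr y) = 1 := by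
          change (if Vd (Pn (n + 1)) S c ∧ Good (Sum.inr y) ∧ Lp (mvw c S) (Sum.inr y) then _ else 1)
            = _
          rw [if_neg (fun h6 => h0 h6.2.2)]
        rw [h, e2, mul_one, asm_om G lam h1]
        have hA : Att S (Sum.inr y) c := ⟨⟨y, rfl⟩, Or.inr h4⟩
        have hN : Nd n S (Sum.inr y :: c) := ⟨h', _, c, rfl, hn⟩
        have hst := hstep _ _ hN hA
        have hnot : ep ∉ mvw (Sum.inr y :: c) S := by
          intro h6
          apply h0
          rw [mvw_cons, mem_mv] at h6
          exact ⟨ep, h4, h6⟩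
        have hq : qd S (Sum.inr y) c = tt (Sum.inr y) ep := by
          unfold qd
          rw [if_neg hnot]
        rw [hq, tt_tt, tt_ep h2] at hst
        rw [asm_fv lam hG h' hyl hyg]
        obtain ⟨h7, h8⟩ := spl_cons_ge hlt c
        rw [h7, h8]
        exact hst

end Asm

theorem fv_triv {M : Type v} [MulOneClass M] (S : Set (Md X)) (p : Wd X) : ∀ c : Wd X,
    fv S (⟨fun _ _ => 1, fun _ => 1⟩ : Pre X M) c p = 1 := by
  induction p with
  | nil => intro c; rfl
  | cons i p ih =>
    intro c
    rw [fv_cons, ih, mul_one]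

theorem isSol_triv {M : Type v} [MulOneClass M] (P : Ltr X → Prop) (S : Set (Md X)) :
    IsSol P S (⟨fun _ _ => 1, fun _ => 1⟩ : Pre X M) where
  supth c i h := absurd rfl h
  supom c h := absurd rfl h
  eqn c y _ _ _ _ := by
    rw [fv_triv, mul_one]

/-- The index type of the new loops. -/
def FL (n : ℕ) (S : Set (Md X)) : Type u :=
  {x : Wd X × Ltr X // Vd (Pn (n + 1)) S x.1 ∧ lsz x.2 = n ∧ Good x.2 ∧ Lp (mvw x.1 S) x.2 ∧
    ¬ ((∃ y, x.2 = Sum.inr y) ∧ ep ∈ mvw x.1 S)}

theorem step {n : ℕ} {S : Set (Md X)} (hS : Nice S) (hne : S.Nonempty)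
    (IH : ∀ S' : Set (Md X), Nice S' → S'.Nonempty → Mn n S') :
    ∃ (Q : Type u) (k : ∀ (M : Type u) [MulOneClass M] [IsBolTwo M],
        Sol (Pn (n + 1)) S M → Q → M),
      NatK (Pn (n + 1)) S Q k ∧
      (∀ (M : Type u) [MulOneClass M] [IsBolTwo M],
        Function.Bijective (fun s : Sol (Pn (n + 1)) S M =>
          ((s.restr (dc_Pn n) (Pn_mono n) (rc_nil _ _ S) : Sol (Pn n) S M), k M s))) ∧
      (∀ v c, Nd n S (v :: c) → ¬ Att S v c →
        (∃ c2, Vd (Pn n) (mvw (v :: c) S) c2 ∧ ep ∈ mvw c2 (mvw (v :: c) S)) →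
        ∃ q0 c2, Vd (Pn n) (mvw (v :: c) S) c2 ∧ ep ∈ mvw c2 (mvw (v :: c) S) ∧
          ∀ (M : Type u) [MulOneClass M] [IsBolTwo M] (s : Sol (Pn (n + 1)) S M),
            k M s q0 = s.1.om (c2 ++ v :: c)) := by
  classical
  choose Q k hN hA hU hE using node_data hS hne IH
  refine ⟨(Σ d : {d : Wd X // Nd n S d}, Q d.1) ⊕ FL n S,
    fun M _ _ s x => match x with
      | Sum.inl ⟨d, q⟩ => k d.1 M (s.restr (dc_Pn n) (Pn_mono n) d.2.rc) q
      | Sum.inr x => s.1.th x.1.1 x.1.2, ?_, ?_, ?_⟩
  · intro M N _ _ _ _ g s x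
    rcases x with ⟨d, q⟩ | x
    · simp only
      rw [Sol.map_restr, hN]
    · rfl
  · intro M _ _
    constructor
    · intro s t hst
      simp only [Prod.mk.injEq] at hst
      obtain ⟨h0, h1⟩ := hst
      have hnode : ∀ m : ℕ, ∀ (d : Wd X) (hd : Nd n S d), d.length ≤ m →
          s.restr (dc_Pn n) (Pn_mono n) hd.rc = t.restr (dc_Pn n) (Pn_mono n) hd.rc := by
        intro m
        induction m with
        | zero =>
          rintro d ⟨_, v, c, rfl, _⟩ hm
          simp at hm
        | succ m ihm =>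
          intro d hd hm
          have hk : k d M (s.restr (dc_Pn n) (Pn_mono n) hd.rc)
              = k d M (t.restr (dc_Pn n) (Pn_mono n) hd.rc) := by
            funext q
            exact congrFun h1 (Sum.inl ⟨⟨d, hd⟩, q⟩)
          obtain ⟨hd1, v, c, hdc, hv⟩ := hd
          have hd : Nd n S d := ⟨hd1, v, c, hdc, hv⟩
          by_cases hAt : Att S v c
          · apply (hA d v c hdc hd hAt M).1
            simp only [Prod.mk.injEq]
            refine ⟨?_, hk⟩
            subst hdc
            have hgv : Good v := hd1.2.1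
            have hPv : Pn (n + 1) v := hd1.2.2.1
            have hcv : Vd (Pn (n + 1)) S c := hd1.1
            have hact : actC S v c = v :: c := by
              unfold actC
              rw [if_neg hd1.2.2.2.2, if_neg hd1.2.2.2.1]
            have key : ∀ r : Sol (Pn (n + 1)) S M,
                fv (mvw (v :: c) S) (r.restr (dc_Pn n) (Pn_mono n) hd.rc).1 [] (qd S v c).1
                = fv (mvw (spd n c) S) (r.restr (dc_Pn n) (Pn_mono n) (rc_spd hcv)).1 (spc n c)
                  (tt v (qd S v c)).1 := by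
              intro r
              have e1 := fv_agr hd.rc (Sol.agr_restr (dc_Pn n) (Pn_mono n) hd.rc r) (qd S v c).1
                (qd_letters hAt hgv hv) (qd S v c).2.good [] trivial
              have e2 := fv_agr (rc_spd hcv)
                (Sol.agr_restr (dc_Pn n) (Pn_mono n) (rc_spd hcv) r) (tt v (qd S v c)).1
                (qd_letters' hAt hgv hv) (tt v (qd S v c)).2.good (spc n c) (decomp c hcv).2
              rw [← e1, ← e2, spc_append_spd, List.nil_append]
              have e3 := r.2.equi hS hgv hPv hcv (p := tt v (qd S v c)) (qd_mem' hAt)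
              rw [tt_tt, hact, r.2.th_nonloop hd1.2.2.2.2, mul_one] at e3
              exact e3
            rw [key s, key t]
            have hlen := spd_length n c
            have hpar : s.restr (dc_Pn n) (Pn_mono n) (rc_spd hcv)
                = t.restr (dc_Pn n) (Pn_mono n) (rc_spd hcv) := by
              rcases (decomp c hcv).1 with h2 | h2
              · have : ∀ (d : Wd X) (hd : RC (Pn n) (Pn (n + 1)) S d), d = [] →
                    s.restr (dc_Pn n) (Pn_mono n) hd = t.restr (dc_Pn n) (Pn_mono n) hd := by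
                  rintro d hd rfl
                  exact h0
                exact this _ _ h2
              · apply ihm _ h2
                simp only [List.length_cons] at hm
                omega
            rw [hpar]
          · exact (hU d v c hdc hAt M).1 hk
      have hblock : ∀ (c : Wd X) (hc : Vd (Pn (n + 1)) S c),
          s.restr (dc_Pn n) (Pn_mono n) (rc_spd hc) = t.restr (dc_Pn n) (Pn_mono n) (rc_spd hc) := by
        intro c hc
        rcases (decomp c hc).1 with h2 | h2
        · have : ∀ (d : Wd X) (hd : RC (Pn n) (Pn (n + 1)) S d), d = [] →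
              s.restr (dc_Pn n) (Pn_mono n) hd = t.restr (dc_Pn n) (Pn_mono n) hd := by
            rintro d hd rfl
            exact h0
          exact this _ _ h2
        · exact hnode _ _ h2 le_rfl
      have hom : ∀ c, Vd (Pn (n + 1)) S c → s.1.om c = t.1.om c := by
        intro c hc
        have e1 := (Sol.agr_restr (dc_Pn n) (Pn_mono n) (rc_spd hc) s).1 _ (decomp c hc).2
        have e2 := (Sol.agr_restr (dc_Pn n) (Pn_mono n) (rc_spd hc) t).1 _ (decomp c hc).2
        rw [spc_append_spd] at e1 e2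
        rw [e1, e2, hblock c hc]
      apply Sol.ext'
      · intro c hc _
        exact hom c hc
      · intro c i hc hi hPi hL
        by_cases hlt : lsz i < n
        · have e1 := (Sol.agr_restr (dc_Pn n) (Pn_mono n) (rc_spd hc) s).2 _ i (decomp c hc).2
            hlt hi
          have e2 := (Sol.agr_restr (dc_Pn n) (Pn_mono n) (rc_spd hc) t).2 _ i (decomp c hc).2
            hlt hi
          rw [spc_append_spd] at e1 e2
          rw [e1, e2, hblock c hc]
        · have hn : lsz i = n := by
            have h6 : lsz i < n + 1 := hPi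
            omega
          by_cases hc2 : (∃ y, i = Sum.inr y) ∧ ep ∈ mvw c S
          · obtain ⟨⟨y, rfl⟩, hep⟩ := hc2
            have e1 := s.2.eqn c y hc hi hPi hep
            have e2 := t.2.eqn c y hc hi hPi hep
            have hact : actC S (Sum.inr y) c = c := by
              unfold actC; rw [if_pos hL]
            rw [hact] at e1 e2
            have hyl : ∀ j ∈ y.dec, Pn n j := by
              intro j hj
              have h5 := lsz_lt_of_mem hj
              change lsz j < n
              omega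
            have hyg : ∀ j ∈ y.dec, Good j := fun j hj => good_mem hi hj
            have e3 : fv S s.1 c y.dec = fv S t.1 c y.dec := by
              have e4 := fv_agr (rc_spd hc)
                (Sol.agr_restr (dc_Pn n) (Pn_mono n) (rc_spd hc) s) y.dec hyl hyg (spc n c)
                (decomp c hc).2
              have e5 := fv_agr (rc_spd hc)
                (Sol.agr_restr (dc_Pn n) (Pn_mono n) (rc_spd hc) t) y.dec hyl hyg (spc n c)
                (decomp c hc).2
              rw [spc_append_spd] at e4 e5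
              rw [e4, e5, hblock c hc]
            rw [e1, e2, hom c hc] at e3
            exact mul_lcancel e3
          · exact congrFun h1 (Sum.inr ⟨(c, i), hc, hn, hi, hL, hc2⟩)
    · rintro ⟨s0, κ⟩
      have hchoice : ∀ v c, ∀ s' : Sol (Pn n) (mvw (spd n c) S) M,
          ∃ s : Sol (Pn n) (mvw (v :: c) S) M, ∀ h : Nd n S (v :: c),
            (k (v :: c) M s = fun q => κ (Sum.inl ⟨⟨v :: c, h⟩, q⟩)) ∧
            (Att S v c → fv (mvw (v :: c) S) s.1 [] (qd S v c).1
              = fv (mvw (spd n c) S) s'.1 (spc n c) (tt v (qd S v c)).1) := by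
        intro v c s'
        by_cases h : Nd n S (v :: c)
        · by_cases hAt : Att S v c
          · obtain ⟨s, hs⟩ := (hA (v :: c) v c rfl h hAt M).2
              (fv (mvw (spd n c) S) s'.1 (spc n c) (tt v (qd S v c)).1,
                fun q => κ (Sum.inl ⟨⟨v :: c, h⟩, q⟩))
            simp only [Prod.mk.injEq] at hs
            exact ⟨s, fun h' => ⟨hs.2, fun _ => hs.1⟩⟩
          · obtain ⟨s, hs⟩ := (hU (v :: c) v c rfl hAt M).2
              (fun q => κ (Sum.inl ⟨⟨v :: c, h⟩, q⟩))
            exact ⟨s, fun h' => ⟨hs, fun h2 => absurd h2 hAt⟩⟩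
        · by_cases hAt : Att S v c
          · exact ⟨⟨⟨fun _ _ => 1, fun _ => 1⟩, isSol_triv _ _⟩, fun h' => absurd h' h⟩
          · obtain ⟨s, hs⟩ := (hU (v :: c) v c rfl hAt M).2 (fun _ => 1)
            exact ⟨s, fun h' => absurd h' h⟩
      choose stp hstp using hchoice
      set F := solF s0 stp with hF
      have hF0 : F [] = s0 := by rw [hF, solF]
      have hF1 : ∀ v c, F (v :: c) = stp v c (F (spd n c)) := by
        intro v c
        rw [hF, solF]
      let G : Wd X → Pre X M := fun d => (F d).1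
      let lam : Wd X → Ltr X → M := fun c i =>
        if h : Vd (Pn (n + 1)) S c ∧ lsz i = n ∧ Good i ∧ Lp (mvw c S) i ∧
          ¬ ((∃ y, i = Sum.inr y) ∧ ep ∈ mvw c S) then κ (Sum.inr ⟨(c, i), h⟩) else 1
      have hG : ∀ d, IsSol (Pn n) (mvw d S) (G d) := fun d => (F d).2
      have hsol : IsSol (Pn (n + 1)) S (asm n S G lam) := by
        apply isSol_asm hS lam hG
        intro v c hNd hAt
        have := (hstp v c (F (spd n c)) hNd).2 hAt
        rw [← hF1] at this
        exact this
      refine ⟨⟨asm n S G lam, hsol⟩, ?_⟩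
      have hres : ∀ (d : Wd X) (hd : RC (Pn n) (Pn (n + 1)) S d),
          Sol.restr (dc_Pn n) (Pn_mono n) hd (⟨asm n S G lam, hsol⟩ : Sol (Pn (n + 1)) S M)
            = F d := fun d hd => Sol.restr_eq _ _ _ _ _ (asm_agr lam hG hd)
      simp only [Prod.mk.injEq]
      constructor
      · exact (hres [] (rc_nil _ _ S)).trans hF0
      · funext x
        rcases x with ⟨d, q⟩ | x
        · simp only
          rw [hres]
          obtain ⟨d, hd⟩ := d
          obtain ⟨hd1, v, c, hdc, hv⟩ := hd
          subst hdc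
          simp only
          rw [hF1, (hstp v c _ ⟨hd1, v, c, rfl, hv⟩).1]
        · obtain ⟨⟨c, i⟩, h1, h2, h3, h4, h5⟩ := x
          simp only
          change (if Vd (Pn (n + 1)) S c ∧ Good i ∧ Lp (mvw c S) i then _ else 1) = _
          simp only at h1 h2 h3 h4 h5
          rw [if_pos ⟨h1, h3, h4⟩, if_neg (by omega), if_pos h2, if_neg h5]
          exact dif_pos ⟨h1, h2, h3, h4, h5⟩
  · intro v c hNd hAt hex
    obtain ⟨q0, c2, h1, h2, h3⟩ := hE (v :: c) v c rfl hAt hex
    refine ⟨Sum.inl ⟨⟨v :: c, hNd⟩, q0⟩, c2, h1, h2, ?_⟩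
    intro M _ _ s
    simp only
    rw [h3]
    exact ((Sol.agr_restr (dc_Pn n) (Pn_mono n) hNd.rc s).1 c2 h1).symm

end Pool.Agent.Lib.MP_a1bc66_al
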