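import Pool.Agent.Lib.MP_a1bc66_al.Basic

set_option autoImplicit false

namespace Pool.Agent.Lib.MP_a1bc66_al

universe u v

/-- Codes of words; the letters are the elements of `X ⊕ W X`. -/
inductive W (X : Type u) : Type u
  | nil : W X
  | cons0 : X → W X → W X
  | cons1 : W X → W X → W X

/-- Letters. -/
abbrev Ltr (X : Type u) : Type u := X ⊕ W X

/-- Words. The head of the list is the letter which is applied last. -/
abbrev Wd (X : Type u) : Type u := List (Ltr X)

variable {X : Type u}

/-- Decoding of words. -/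
def W.dec : W X → Wd X
  | W.nil => []
  | W.cons0 x p => Sum.inl x :: p.dec
  | W.cons1 y p => Sum.inr y :: p.dec

/-- Encoding of words. -/
def enc : Wd X → W X
  | [] => W.nil
  | Sum.inl x :: p => W.cons0 x (enc p)
  | Sum.inr y :: p => W.cons1 y (enc p)

@[simp] theorem dec_enc (p : Wd X) : (enc p).dec = p := by
  induction p with
  | nil => rfl
  | cons i p ih =>
    cases i with
    | inl x => simp [enc, W.dec, ih]
    | inr y => simp [enc, W.dec, ih]

@[simp] theorem enc_dec (w : W X) : enc w.dec = w := by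
  induction w with
  | nil => rfl
  | cons0 x p ih => simp [enc, W.dec, ih]
  | cons1 y p _ ih => simp [enc, W.dec, ih]

/-- Size of a code. -/
def W.sz : W X → ℕ
  | W.nil => 0
  | W.cons0 _ p => 1 + p.sz
  | W.cons1 y p => (1 + y.sz) + p.sz

/-- Size of a letter. -/
def lsz : Ltr X → ℕ
  | Sum.inl _ => 1
  | Sum.inr y => 1 + y.sz

/-- Size of a word. -/
def wsz (p : Wd X) : ℕ := (p.map lsz).sum

@[simp] theorem wsz_nil : wsz ([] : Wd X) = 0 := rfl

@[simp] theorem wsz_cons (i : Ltr X) (p : Wd X) : wsz (i :: p) = lsz i + wsz p := by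
  simp [wsz]

@[simp] theorem wsz_append (p q : Wd X) : wsz (p ++ q) = wsz p + wsz q := by
  simp [wsz]

@[simp] theorem wsz_reverse (p : Wd X) : wsz p.reverse = wsz p := by
  induction p with
  | nil => rfl
  | cons i p ih => simp [ih]; omega

theorem wsz_dec (w : W X) : wsz w.dec = w.sz := by
  induction w with
  | nil => rfl
  | cons0 x p ih => simp [W.dec, W.sz, lsz, ih]
  | cons1 y p _ ih => simp [W.dec, W.sz, lsz, ih]

theorem lsz_inr (y : W X) : lsz (Sum.inr y : Ltr X) = 1 + wsz y.dec := by
  rw [wsz_dec]; rfl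

theorem lsz_pos (i : Ltr X) : 0 < lsz i := by
  cases i <;> simp [lsz]

theorem lsz_le_of_mem {i : Ltr X} {p : Wd X} (h : i ∈ p) : lsz i ≤ wsz p := by
  induction p with
  | nil => simp at h
  | cons j p ih =>
    rw [List.mem_cons] at h
    rw [wsz_cons]
    rcases h with h | h
    · subst h; omega
    · have := ih h; omega

theorem lsz_lt_of_mem {y : W X} {j : Ltr X} (h : j ∈ y.dec) :
    lsz j < lsz (Sum.inr y : Ltr X) := by
  have := lsz_le_of_mem h
  rw [lsz_inr]; omega

theorem not_mem_self (y : W X) : (Sum.inr y : Ltr X) ∉ y.dec := fun h =>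
  lt_irrefl _ (lsz_lt_of_mem h)

/-- A fixed strict well-ordering of the words. -/
def wlt (p q : Wd X) : Prop := WellOrderingRel p q

theorem wlt_asymm {p q : Wd X} (h : wlt p q) : ¬ wlt q p := fun h' =>
  asymm_of (WellOrderingRel : Wd X → Wd X → Prop) h h'

theorem wlt_tri (p q : Wd X) : wlt p q ∨ p = q ∨ wlt q p := by
  rcases trichotomous_of (WellOrderingRel : Wd X → Wd X → Prop) p q with h | h | h
  · exact Or.inl h
  · exact Or.inr (Or.inl h)
  · exact Or.inr (Or.inr h)

theorem wlt_irrefl (p : Wd X) : ¬ wlt p p := fun h => wlt_asymm h h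

/-- Irreducible words. -/
inductive Irr : Wd X → Prop
  | nil : Irr []
  | gen (x : X) (p : Wd X) : Irr p → p.head? ≠ some (Sum.inl x) → Irr (Sum.inl x :: p)
  | new (y : W X) (p : Wd X) : Irr p → Irr y.dec → Irr y.dec.reverse →
      wlt y.dec y.dec.reverse → p.head? ≠ some (Sum.inr y) → p ≠ y.dec → p ≠ [] →
      Irr (Sum.inr y :: p)

/-- Good letters. -/
def Good : Ltr X → Prop
  | Sum.inl _ => True
  | Sum.inr y => Irr y.dec ∧ Irr y.dec.reverse ∧ wlt y.dec y.dec.reverse

theorem irr_cons {i : Ltr X} {p : Wd X} :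
    Irr (i :: p) ↔ Irr p ∧ Good i ∧ p.head? ≠ some i ∧
      ∀ y, i = Sum.inr y → p ≠ y.dec ∧ p ≠ [] := by
  constructor
  · intro h
    cases h with
    | gen x _ h1 h2 => exact ⟨h1, trivial, h2, fun y hy => by cases hy⟩
    | new y _ h1 h2 h3 h4 h5 h6 h7 =>
      exact ⟨h1, ⟨h2, h3, h4⟩, h5, fun y' hy => by cases hy; exact ⟨h6, h7⟩⟩
  · rintro ⟨h1, h2, h3, h4⟩
    cases i with
    | inl x => exact Irr.gen x p h1 h3
    | inr y => exact Irr.new y p h1 h2.1 h2.2.1 h2.2.2 h3 (h4 y rfl).1 (h4 y rfl).2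

theorem Irr.tail {i : Ltr X} {p : Wd X} (h : Irr (i :: p)) : Irr p := (irr_cons.1 h).1

theorem Irr.good {p : Wd X} (h : Irr p) : ∀ i ∈ p, Good i := by
  induction p with
  | nil => simp
  | cons j p ih =>
    have h' := irr_cons.1 h
    intro i hi
    rw [List.mem_cons] at hi
    rcases hi with hi | hi
    · subst hi; exact h'.2.1
    · exact ih h'.1 i hi

theorem Irr.of_append {p q : Wd X} (h : Irr (p ++ q)) : Irr q := by
  induction p with
  | nil => exact h
  | cons j p ih => exact ih (Irr.tail h)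

/-- The boundary of a letter: `i` swaps `[]` and `bd i`. -/
def bd : Ltr X → Wd X
  | Sum.inl x => [Sum.inl x]
  | Sum.inr y => y.dec

theorem good_irr_bd {i : Ltr X} (h : Good i) : Irr (bd i) := by
  cases i with
  | inl x => exact Irr.gen x [] Irr.nil (by simp)
  | inr y => exact h.1

theorem good_ne_nil {y : W X} (h : Good (Sum.inr y)) : y.dec ≠ [] := by
  intro h'
  have := h.2.2
  rw [h'] at this
  exact wlt_irrefl _ this

theorem good_bd_ne_nil {i : Ltr X} (h : Good i) : bd i ≠ [] := by
  cases i with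
  | inl x => simp [bd]
  | inr y => exact good_ne_nil h

theorem good_mem {y : W X} (h : Good (Sum.inr y)) {j : Ltr X} (hj : j ∈ y.dec) : Good j :=
  h.1.good j hj

open Classical in
/-- The action of a letter on words. -/
noncomputable def act (i : Ltr X) (p : Wd X) : Wd X :=
  if p.head? = some i then p.tail
  else if p = [] then bd i
  else if p = bd i then []
  else i :: p

theorem act_head (i : Ltr X) (p : Wd X) : act i (i :: p) = p := by
  simp [act]

theorem act_nil (i : Ltr X) : act i ([] : Wd X) = bd i := by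
  simp [act]

theorem bd_head (i : Ltr X) (h : (bd i).head? = some i) : bd i = [i] := by
  cases i with
  | inl x => rfl
  | inr y =>
    exfalso
    have : (Sum.inr y : Ltr X) ∈ y.dec := List.mem_of_mem_head? (by simpa [bd] using h)
    exact not_mem_self y this

theorem act_bd (i : Ltr X) (h : Good i) : act i (bd i) = [] := by
  unfold act
  by_cases h1 : (bd i).head? = some i
  · rw [if_pos h1, bd_head i h1]; rfl
  · rw [if_neg h1, if_neg (good_bd_ne_nil h), if_pos rfl]

theorem act_cons (i : Ltr X) (p : Wd X) (h : Irr (i :: p)) : act i p = i :: p := by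
  obtain ⟨h1, h2, h3, h4⟩ := irr_cons.1 h
  unfold act
  rw [if_neg h3]
  cases i with
  | inl x =>
    by_cases hp : p = []
    · subst hp; simp [bd]
    · rw [if_neg hp, if_neg]
      rintro rfl
      simp [bd] at h3
  | inr y =>
    rw [if_neg (h4 y rfl).2, if_neg]
    exact (h4 y rfl).1

theorem act_cases (i : Ltr X) (hi : Good i) (p : Wd X) (hp : Irr p) :
    (∃ q, p = i :: q ∧ act i p = q) ∨ (p = [] ∧ act i p = bd i) ∨
    (p = bd i ∧ act i p = []) ∨ (act i p = i :: p ∧ Irr (i :: p)) := by
  unfold act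
  by_cases h1 : p.head? = some i
  · left
    cases p with
    | nil => simp at h1
    | cons j q =>
      simp only [List.head?_cons, Option.some.injEq] at h1
      subst h1
      exact ⟨q, rfl, by simp⟩
  · rw [if_neg h1]
    by_cases h2 : p = []
    · right; left; exact ⟨h2, by rw [if_pos h2]⟩
    · rw [if_neg h2]
      by_cases h3 : p = bd i
      · right; right; left; exact ⟨h3, by rw [if_pos h3]⟩
      · rw [if_neg h3]
        right; right; right
        refine ⟨rfl, irr_cons.2 ⟨hp, hi, h1, ?_⟩⟩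
        rintro y rfl
        exact ⟨h3, h2⟩

theorem irr_act {i : Ltr X} (hi : Good i) {p : Wd X} (hp : Irr p) : Irr (act i p) := by
  rcases act_cases i hi p hp with ⟨q, h1, h2⟩ | ⟨h1, h2⟩ | ⟨h1, h2⟩ | ⟨h1, h2⟩
  · rw [h2]; subst h1; exact hp.tail
  · rw [h2]; exact good_irr_bd hi
  · rw [h2]; exact Irr.nil
  · rw [h1]; exact h2

theorem act_act {i : Ltr X} (hi : Good i) {p : Wd X} (hp : Irr p) : act i (act i p) = p := by
  rcases act_cases i hi p hp with ⟨q, h1, h2⟩ | ⟨h1, h2⟩ | ⟨h1, h2⟩ | ⟨h1, h2⟩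
  · rw [h2]; subst h1; exact act_cons i q hp
  · rw [h2, h1]; exact act_bd i hi
  · rw [h2, h1]; exact act_nil i
  · rw [h1]; exact act_head i p

theorem act_ne {i : Ltr X} (hi : Good i) {p : Wd X} (hp : Irr p) : act i p ≠ p := by
  rcases act_cases i hi p hp with ⟨q, h1, h2⟩ | ⟨h1, h2⟩ | ⟨h1, h2⟩ | ⟨h1, h2⟩
  · rw [h2]; subst h1; simp
  · rw [h2, h1]; exact good_bd_ne_nil hi
  · rw [h2, h1]; exact (good_bd_ne_nil hi).symm
  · rw [h1]; simp

theorem wsz_bd_le (i : Ltr X) : wsz (bd i) ≤ lsz i := by
  cases i with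
  | inl x => simp [bd]
  | inr y => rw [lsz_inr]; simp only [bd]; omega

theorem wsz_act_le {i : Ltr X} (hi : Good i) {p : Wd X} (hp : Irr p) :
    wsz (act i p) ≤ wsz p + lsz i := by
  rcases act_cases i hi p hp with ⟨q, h1, h2⟩ | ⟨h1, h2⟩ | ⟨h1, h2⟩ | ⟨h1, h2⟩
  · rw [h2]; subst h1; rw [wsz_cons]; omega
  · rw [h2, h1]; have := wsz_bd_le i; simp; exact this
  · rw [h2]; simp
  · rw [h1, wsz_cons]; omega

/-- The underlying set of the model of the free Bol loop of exponent two. -/
def Md (X : Type u) : Type u := {p : Wd X // Irr p}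

/-- The base point. -/
def ep : Md X := ⟨[], Irr.nil⟩

open Classical in
/-- The involution given by a letter (the identity for letters which are not good). -/
noncomputable def tt (i : Ltr X) : Equiv.Perm (Md X) :=
  if hi : Good i then
    { toFun := fun p => ⟨act i p.1, irr_act hi p.2⟩
      invFun := fun p => ⟨act i p.1, irr_act hi p.2⟩
      left_inv := fun p => Subtype.ext (act_act hi p.2)
      right_inv := fun p => Subtype.ext (act_act hi p.2) }
  else 1

theorem tt_val {i : Ltr X} (hi : Good i) (p : Md X) : (tt i p).1 = act i p.1 := by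
  simp [tt, hi]

theorem tt_tt (i : Ltr X) (p : Md X) : tt i (tt i p) = p := by
  by_cases hi : Good i
  · apply Subtype.ext
    rw [tt_val hi, tt_val hi]
    exact act_act hi p.2
  · simp [tt, hi]

theorem tt_mul_self (i : Ltr X) : tt i * tt i = (1 : Equiv.Perm (Md X)) := by
  ext p; exact tt_tt i p

theorem tt_inv (i : Ltr X) : (tt i)⁻¹ = (tt i : Equiv.Perm (Md X)) := by
  rw [inv_eq_iff_mul_eq_one]; exact tt_mul_self i

/-- The permutation given by a word. -/
noncomputable def tw (w : Wd X) : Equiv.Perm (Md X) := (w.map tt).prod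

@[simp] theorem tw_nil : tw ([] : Wd X) = 1 := rfl

@[simp] theorem tw_cons (i : Ltr X) (w : Wd X) : tw (i :: w) = tt i * tw w := by
  simp [tw]

@[simp] theorem tw_append (w w' : Wd X) : tw (w ++ w') = tw w * tw w' := by
  simp [tw]

theorem tw_reverse (w : Wd X) : tw w.reverse = (tw w)⁻¹ := by
  induction w with
  | nil => simp
  | cons i w ih => simp [ih, tt_inv]

theorem wsz_tw_le (w : Wd X) (p : Md X) : wsz (tw w p).1 ≤ wsz w + wsz p.1 := by
  induction w with
  | nil => simp
  | cons i w ih =>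
    rw [tw_cons, Equiv.Perm.mul_apply, wsz_cons]
    by_cases hi : Good i
    · rw [tt_val hi]
      have := wsz_act_le hi (tw w p).2
      omega
    · have : (tt i : Equiv.Perm (Md X)) = 1 := by simp [tt, hi]
      rw [this, Equiv.Perm.one_apply]
      omega

/-- A word which is irreducible, applied to the base point, gives itself. -/
theorem tw_ep {w : Wd X} (hw : Irr w) : tw w ep = ⟨w, hw⟩ := by
  induction w with
  | nil => rfl
  | cons i w ih =>
    apply Subtype.ext
    rw [tw_cons, Equiv.Perm.mul_apply, ih hw.tail, tt_val (irr_cons.1 hw).2.1]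
    exact act_cons i w hw

theorem tw_ep' (p : Md X) : tw p.1 ep = p := tw_ep p.2

end Pool.Agent.Lib.MP_a1bc66_al
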